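import Pool.Agent.H7.GF.Defs

/-!
# MP_cd65c5_nt: targets, part 1 (general tools, geometry of numbers, algebraic number theory)
-/

set_option autoImplicit false

namespace Pool.Agent.H7.GF

open Polynomial NumberField Module

/-! ## General tools -/

/-- `A ^ ω(N) ≤ K N ^ ε` -/
def T_OMG : Prop := ∀ A : ℝ, 1 ≤ A → ∀ ε : ℝ, 0 < ε → ∃ K : ℝ, ∀ N : ℕ, 1 ≤ N →
  A ^ (om N) ≤ K * (N : ℝ) ^ ε

/-- reducible polynomials -/
def T_RED : Prop := ∀ m : ℕ, 2 ≤ m → ∀ b : ℤ, b ≠ 0 → ∃ K : ℝ, ∀ H : ℕ, 1 ≤ H →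
  cnt m H (fun a => ¬ Irreducible (toQ (pol b a))) ≤ K * (H : ℝ) ^ (m - 1)

/-- lower bound -/
def T_LOW : Prop := ∀ m : ℕ, 2 ≤ m → ∀ b : ℤ, b ≠ 0 → ∃ c : ℝ, 0 < c ∧ ∃ H₀ : ℕ, ∀ H : ℕ, H₀ ≤ H →
  c * (H : ℝ) ^ (m - 1) ≤ cnt m H (fun a => (pol b a).eval 1 = 0)

/-- integers of a number field in a box: packing -/
def T_PACK : Prop := ∀ (F : Type) [Field F] [NumberField F] (B : InfinitePlace F → ℝ),
  (∀ w, 1 ≤ B w) → {γ : 𝓞 F | ∀ w : InfinitePlace F, w (γ : F) ≤ B w}.Finite ∧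
    ({γ : 𝓞 F | ∀ w : InfinitePlace F, w (γ : F) ≤ B w}.ncard : ℝ) ≤
      ∏ w : InfinitePlace F, (6 * B w) ^ w.mult

/-- integers of given norm in a box -/
def T_NORMB : Prop := ∀ n : ℕ, 1 ≤ n → ∀ b : ℤ, b ≠ 0 → ∃ K : ℝ, ∀ (F : Type) [Field F]
  [NumberField F], finrank ℚ F = n → ∀ B : ℝ, 2 ≤ B →
  {γ : 𝓞 F | |Algebra.norm ℤ γ| = |b| ∧ ∀ w : InfinitePlace F, w (γ : F) ≤ B}.Finite ∧
  ({γ : 𝓞 F | |Algebra.norm ℤ γ| = |b| ∧ ∀ w : InfinitePlace F, w (γ : F) ≤ B}.ncard : ℝ) ≤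
    K * Real.log B ^ (n - 1)

/-- integers of given norm in cubic fields of large discriminant -/
def T_GAP3 : Prop := ∀ b : ℤ, b ≠ 0 → ∃ K : ℝ, ∀ (F : Type) [Field F]
  [NumberField F], finrank ℚ F = 3 → ∀ B : ℝ, 2 ≤ B → B ^ (1 / 2 : ℝ) ≤ ((discr F).natAbs : ℝ) →
  ({γ : 𝓞 F | |Algebra.norm ℤ γ| = |b| ∧ ∀ w : InfinitePlace F, w (γ : F) ≤ B}.ncard : ℝ) ≤ K

/-- coefficients of the minimal polynomial from the sizes of the conjugates -/
def T_CONJ : Prop := ∀ (n : ℕ) (F : Type) [Field F] [NumberField F] (θ : 𝓞 F) (T : ℝ),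
  finrank ℚ F = n → (minpoly ℤ θ).natDegree = n → 0 ≤ T →
  (∀ w : InfinitePlace F, w (θ : F) ≤ T) → ∀ j, j ≤ n →
  |((minpoly ℤ θ).coeff (n - j) : ℝ)| ≤ 2 ^ n * T ^ j

/-- sizes of the conjugates of a root and its norm -/
def T_ROOTB : Prop := ∀ (m H : ℕ) (b : ℤ) (a : Fin m → ℤ), a ∈ box m H →
  ∀ (F : Type) [Field F] [NumberField F] (θ : 𝓞 F), minpoly ℤ θ = pol b a →
  finrank ℚ F = m + 1 → (∀ w : InfinitePlace F, w (θ : F) ≤ H + |(b : ℝ)| + 1) ∧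
    |Algebra.norm ℤ θ| = |b|

/-- a small generator modulo the integers (Minkowski) -/
def T_MINK : Prop := ∀ n : ℕ, 2 ≤ n → ∃ c : ℝ, 0 < c ∧ ∀ (F : Type) [Field F] [NumberField F],
  finrank ℚ F = n → ∃ α : 𝓞 F, (∀ z : ℤ, α ≠ (z : 𝓞 F)) ∧
    |(Algebra.trace ℤ (𝓞 F) α : ℝ)| ≤ n ∧
    ∀ w : InfinitePlace F, w (α : F) ≤ c * ((discr F).natAbs : ℝ) ^ (1 / (2 * ((n : ℝ) - 1)))

/-- few polynomials of the box in a given field -/
def T_FIB : Prop := ∀ m : ℕ, 1 ≤ m → ∀ b : ℤ, b ≠ 0 → ∃ K : ℝ, ∀ H : ℕ, 2 ≤ H → ∀ g : ℤ[X],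
  cnt m H (fun a => SameField (pol b a) g) ≤ K * Real.log H ^ m

/-- boundedly many polynomials of the box in a cubic field of large discriminant -/
def T_FIB3 : Prop := ∀ b : ℤ, b ≠ 0 → ∃ K : ℝ, ∀ H : ℕ, 2 ≤ H → ∀ (g : ℤ[X]) (D : ℕ), FDisc g D →
  K * (H : ℝ) ^ (1 / 2 : ℝ) ≤ D → cnt 2 H (fun a => SameField (pol b a) g) ≤ K

/-! ## Algebraic number theory -/

/-- the exponent of the different: idempotent argument -/
def T_IDEM : Prop := ∀ (F : Type) [Field F] [NumberField F] (P : Ideal (𝓞 F)) (p e s : ℕ),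
  P.IsPrime → P ≠ ⊥ → p.Prime → 1 ≤ s → 1 ≤ e → finrank ℚ F < p ^ s →
  P ^ e ∣ Ideal.span {(p : 𝓞 F)} → ¬ P ^ (e + 1) ∣ Ideal.span {(p : 𝓞 F)} →
  ¬ P ^ (e * s) ∣ differentIdeal ℤ (𝓞 F)

/-- number of homomorphisms to the algebraic closure of the prime field -/
def T_HOMC : Prop := ∀ (p : ℕ) [Fact p.Prime] (F : Type) [Field F] [NumberField F],
  Finite (𝓞 F →+* AlgebraicClosure (ZMod p)) ∧
  Hp p F = ∑ P ∈ IsDedekindDomain.primesOverFinset (Ideal.span {(p : ℤ)}) (𝓞 F),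
    (Ideal.absNorm P).factorization p

/-- the discriminant and the number of homomorphisms -/
def T_VP : Prop := ∀ (p : ℕ) [Fact p.Prime] (F : Type) [Field F] [NumberField F],
  finrank ℚ F ≤ (discr F).natAbs.factorization p + Hp p F ∧
  (finrank ℚ F < p → (discr F).natAbs.factorization p + Hp p F ≤ finrank ℚ F) ∧
  (finrank ℚ F ≤ 7 → (discr F).natAbs.factorization p ≤ 21)

/-- roots modulo `p` come from homomorphisms; there is at least one -/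
def T_ROOTS : Prop := ∀ (p : ℕ) [Fact p.Prime] (F : Type) [Field F] [NumberField F] (θ : 𝓞 F),
  finrank ℚ F = (minpoly ℤ θ).natDegree →
  ((toZ p (minpoly ℤ θ)).rootSet (AlgebraicClosure (ZMod p))).ncard ≤ Hp p F ∧ 1 ≤ Hp p F

/-- number of distinct roots and the index -/
def T_CONV : Prop := ∀ (p : ℕ) [Fact p.Prime] (f : ℤ[X]) (k : ℕ), f.Monic → f.natDegree < p →
  ((toZ p f).rootSet (AlgebraicClosure (ZMod p))).ncard + k ≤ f.natDegree → IX p k f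

/-- the index at the primes dividing the discriminant -/
def T_AN1 : Prop := ∀ (p : ℕ) [Fact p.Prime] (F : Type) [Field F] [NumberField F] (θ : 𝓞 F),
  finrank ℚ F = (minpoly ℤ θ).natDegree → finrank ℚ F < p →
  (discr F).natAbs.factorization p ≤ finrank ℚ F - 1 ∧
  IX p ((discr F).natAbs.factorization p) (minpoly ℤ θ)

/-- homomorphisms to residue fields of the Galois closure come from embeddings -/
def T_SURJ : Prop := ∀ (F L : Type) [Field F] [NumberField F] [Field L] [NumberField L]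
  [IsGalois ℚ L] (P : Ideal (𝓞 L)), P.IsMaximal → Nonempty (F →ₐ[ℚ] L) →
  ∀ (κ : Type) [Field κ] [IsAlgClosed κ] (π : (𝓞 L) ⧸ P →+* κ) (χ : 𝓞 F →+* κ),
    ∃ φ : F →ₐ[ℚ] L, ∀ x : 𝓞 F, ∃ y : 𝓞 L, (y : L) = φ (x : F) ∧
      χ x = π (Ideal.Quotient.mk P y)

/-- if `p` divides the discriminant exactly once, the Galois group contains a transposition -/
def T_SWAP : Prop := ∀ (p : ℕ) [Fact p.Prime] (F L : Type) [Field F] [NumberField F] [Field L]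
  [NumberField L] [IsGalois ℚ L], finrank ℚ F < p → (discr F).natAbs.factorization p = 1 →
  Nonempty (F →ₐ[ℚ] L) → (⨆ φ : F →ₐ[ℚ] L, φ.fieldRange) = ⊤ →
  ∃ (σ : L ≃ₐ[ℚ] L) (φ ψ : F →ₐ[ℚ] L), φ ≠ ψ ∧ σ.toAlgHom.comp φ = ψ ∧ σ.toAlgHom.comp ψ = φ ∧
    ∀ χ : F →ₐ[ℚ] L, χ ≠ φ → χ ≠ ψ → σ.toAlgHom.comp χ = χ

/-- no intermediate fields and a transposition: full Galois group -/
def T_PRIMG : Prop := ∀ (F L : Type) [Field F] [NumberField F] [Field L] [NumberField L]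
  [IsGalois ℚ L] (θ : 𝓞 F), finrank ℚ F = (minpoly ℤ θ).natDegree → NoInt F →
  Polynomial.IsSplittingField ℚ L (toQ (minpoly ℤ θ)) →
  (∃ (σ : L ≃ₐ[ℚ] L) (φ ψ : F →ₐ[ℚ] L), φ ≠ ψ ∧ σ.toAlgHom.comp φ = ψ ∧ σ.toAlgHom.comp ψ = φ ∧
    ∀ χ : F →ₐ[ℚ] L, χ ≠ φ → χ ≠ ψ → σ.toAlgHom.comp χ = χ) →
  ¬ NonFull (minpoly ℤ θ)

/-- primitive and not full: no prime larger than the degree divides the discriminant exactly
once -/
def T_AN3 : Prop := ∀ (p : ℕ) [Fact p.Prime] (F : Type) [Field F] [NumberField F] (θ : 𝓞 F),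
  finrank ℚ F = (minpoly ℤ θ).natDegree → NoInt F → NonFull (minpoly ℤ θ) → finrank ℚ F < p →
  (discr F).natAbs.factorization p ≠ 1

/-- the structure theorem -/
def T_STR : Prop := ∀ n : ℕ, 3 ≤ n → n ≤ 7 → ∃ c : ℝ, 0 < c ∧ ∀ f : ℤ[X], f.Monic →
  f.natDegree = n → PrimF f → NonFull f → ∃ (g : ℤ[X]) (D : ℕ), Str n c f g D

/-- irreducible polynomials generate number fields -/
def T_DICH : Prop := ∀ f : ℤ[X], f.Monic → Irreducible (toQ f) → PrimF f ∨ ImprF f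

/-- no intermediate fields in prime degree -/
def T_PDEG : Prop := ∀ f : ℤ[X], f.natDegree.Prime → ¬ ImprF f

/-- generators of the same field have the same Galois group -/
def T_SFUL : Prop := ∀ f g : ℤ[X], SameField f g → (NonFull f → NonFull g) ∧
  (PrimF f → PrimF g)

/-- primitive, not full, degree 3 or 4: the Galois group acts by even permutations -/
def T_ALT : Prop := ∀ (F L : Type) [Field F] [NumberField F] [Field L] [NumberField L]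
  [IsGalois ℚ L] (θ : 𝓞 F), finrank ℚ F = (minpoly ℤ θ).natDegree →
  finrank ℚ F = 3 ∨ finrank ℚ F = 4 → NoInt F →
  Polynomial.IsSplittingField ℚ L (toQ (minpoly ℤ θ)) → NonFull (minpoly ℤ θ) →
  ∀ σ : L ≃ₐ[ℚ] L, open Classical in
    Equiv.Perm.sign ((AlgEquiv.refl : F ≃ₐ[ℚ] F).arrowCongr σ : Equiv.Perm (F →ₐ[ℚ] L)) = 1

/-- cubics with group `A₃` -/
def T_SQ3 : Prop := ∀ f : ℤ[X], f.Monic → f.natDegree = 3 → Irreducible (toQ f) → NonFull f → Sq3 f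

/-- primitive quartics with group `A₄` -/
def T_SQ4 : Prop := ∀ f : ℤ[X], f.Monic → f.natDegree = 4 → PrimF f → NonFull f → Sq4 f

/-- quartic fields with group `A₄`: no total ramification -/
def T_EXP4 : Prop := ∀ (c : ℝ) (f g : ℤ[X]) (D : ℕ), Str 4 c f g D → ∀ p, p.Prime → 7 < p →
  p ∣ D → D.factorization p = 2

/-- depressed primitive quartics have a nonzero linear coefficient -/
def T_QDEP : Prop := ∀ g : ℤ[X], g.Monic → g.natDegree = 4 → Irreducible (toQ g) → PrimF g →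
  Qdep g ≠ 0

end Pool.Agent.H7.GF
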