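import Pool.Agent.H7.GF.Defs

/-!
# MP_cd65c5_nt: targets, part 2 (double discriminants, sizes, Fourier analysis)
-/

set_option autoImplicit false

namespace Pool.Agent.H7.GF

open Polynomial NumberField Module

/-! ## Zeros and sizes of integer polynomials on boxes -/

/-- zeros of a nonzero polynomial in a box -/
def T_MVZ : Prop := ∀ (m : ℕ) (P : MvPolynomial (Fin m) ℤ), P ≠ 0 → ∃ K : ℝ, ∀ H : ℕ, 1 ≤ H →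
  cnt m H (fun a => MvPolynomial.eval a P = 0) ≤ K * (H : ℝ) ^ (m - 1)

/-- size of a polynomial on a box -/
def T_MVG : Prop := ∀ (m : ℕ) (P : MvPolynomial (Fin m) ℤ), ∃ K : ℕ, ∀ H : ℕ, 1 ≤ H →
  ∀ a ∈ box m H, |MvPolynomial.eval a P| ≤ (K : ℤ) * (H : ℤ) ^ K

/-! ## Double discriminants -/

/-- Over a field where `n = m + 2` and `n - 1` are invertible: the resultant of `X f' - f` and
`f + (T - t) X` in `T` has a (double) root at `t` if `f` has a (double) coincidence of roots.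
Here `f = pol b (Fin.cons t a)`. -/
noncomputable def Rs {A : Type} [CommRing A] {m : ℕ} (b : A) (a : Fin m → A) : A[X] :=
  resultant
    ((C ((m : A) + 1) * X ^ (m + 2) + ∑ i : Fin m, C (((i : ℕ) : A) + 1) * C (a i) * X ^ ((i : ℕ) + 2)
      - C b : A[X]).map C)
    (X ^ (m + 2) + ∑ i : Fin m, C (C (a i)) * X ^ ((i : ℕ) + 2) + C X * X + C (C b) : A[X][X])
    (m + 2) (m + 2)

/-- the double discriminant of the slice with constant term `b` -/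
noncomputable def DDs {A : Type} [CommRing A] {m : ℕ} (b : A) (a : Fin m → A) : A :=
  resultant (Rs b a) (derivative (Rs b a)) (m + 2) (m + 1)

/-- roots of `Rs` -/
def T_RS : Prop := ∀ (k : Type) [Field k] (m : ℕ) (b t : k) (a : Fin m → k), 1 ≤ m → b ≠ 0 →
  (∀ j : ℕ, 1 ≤ j → j ≤ m + 2 → (j : k) ≠ 0) →
  (Rs b a).natDegree = m + 2 ∧
  (IXp 1 (pol b (Fin.cons t a : Fin (m + 1) → k)) → (Rs b a).eval t = 0) ∧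
  (IXp 2 (pol b (Fin.cons t a : Fin (m + 1) → k)) → (X - C t) ^ 2 ∣ Rs b a)

/-- the double discriminant of the slice does not vanish at the origin -/
def T_DDN : Prop := ∀ (m : ℕ) (b : ℤ), 1 ≤ m → b ≠ 0 → DDs b (fun _ : Fin m => (0 : ℤ)) ≠ 0

/-- the double discriminant of the slice: interface. The polynomial is
`pol b (Fin.cons t a)`, of degree `m + 2`, and `t` is the coefficient of `X`. -/
def T_DDS : Prop := ∀ (m : ℕ) (b : ℤ), 1 ≤ m → b ≠ 0 → ∃ (K : ℕ) (DD : (Fin m → ℤ) → ℤ)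
  (Δ : (Fin m → ℤ) → ℤ[X]),
  (∀ H : ℕ, 1 ≤ H → cnt m H (fun a => DD a = 0) ≤ K * (H : ℝ) ^ (m - 1)) ∧
  (∀ H : ℕ, 1 ≤ H → ∀ a ∈ box m H, |DD a| ≤ (K : ℤ) * (H : ℤ) ^ K) ∧
  (∀ (p : ℕ), p.Prime → m + 2 < p → ¬ ((p : ℤ) ∣ b) → ∀ a : Fin m → ℤ,
    toZ p (Δ a) ≠ 0 ∧ (Δ a).natDegree ≤ K) ∧
  (∀ (p : ℕ), p.Prime → m + 2 < p → ¬ ((p : ℤ) ∣ b) → ∀ (t : ℤ) (a : Fin m → ℤ),
    IX p 1 (pol b (Fin.cons t a : Fin (m + 1) → ℤ)) → (p : ℤ) ∣ (Δ a).eval t) ∧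
  (∀ (p : ℕ), p.Prime → m + 2 < p → ¬ ((p : ℤ) ∣ b) → ∀ (t : ℤ) (a : Fin m → ℤ),
    IX p 2 (pol b (Fin.cons t a : Fin (m + 1) → ℤ)) → (p : ℤ) ∣ DD a)

/-- The resultant of `f'` and `f + T` where `f = pol 0 a`. -/
noncomputable def R0 {A : Type} [CommRing A] {m : ℕ} (a : Fin m → A) : A[X] :=
  resultant
    ((C ((m : A) + 1) * X ^ m + ∑ i : Fin m, C (((i : ℕ) : A) + 1) * C (a i) * X ^ (i : ℕ) : A[X]).map C)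
    (X ^ (m + 1) + ∑ i : Fin m, C (C (a i)) * X ^ ((i : ℕ) + 1) + C X : A[X][X])
    m (m + 1)

/-- the double discriminant with respect to the constant term -/
noncomputable def DD0 {A : Type} [CommRing A] {m : ℕ} (a : Fin m → A) : A :=
  resultant (R0 a) (derivative (R0 a)) m (m - 1)

/-- roots of `R0` -/
def T_R0 : Prop := ∀ (k : Type) [Field k] (m : ℕ) (t : k) (a : Fin m → k), 2 ≤ m →
  (∀ j : ℕ, 1 ≤ j → j ≤ m + 1 → (j : k) ≠ 0) →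
  (R0 a).natDegree = m ∧ (IXp 1 (pol t a) → (R0 a).eval t = 0) ∧
  (IXp 2 (pol t a) → (X - C t) ^ 2 ∣ R0 a)

/-- the double discriminant is a nonzero polynomial of the coefficient of `X` -/
def T_D0N : Prop := ∀ (m : ℕ), 2 ≤ m → ∃ K : ℕ, ∀ (j : Fin m), (j : ℕ) = 0 → ∀ a : Fin m → ℤ,
  {t : ℤ | DD0 (Function.update a j t) = 0}.Finite ∧
    {t : ℤ | DD0 (Function.update a j t) = 0}.ncard ≤ K

/-- The double discriminant with respect to the constant term: interface. The polynomial is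
`pol t a`, of degree `m + 1`, `t` is the constant term, `a 0` the coefficient of `X`. -/
def T_DD0 : Prop := ∀ (m : ℕ), 2 ≤ m → ∃ (K : ℕ) (DD : (Fin m → ℤ) → ℤ)
  (Δ : (Fin m → ℤ) → ℤ[X]),
  (∀ (j : Fin m), (j : ℕ) = 0 → ∀ a : Fin m → ℤ, {t : ℤ | DD (Function.update a j t) = 0}.Finite ∧
    {t : ℤ | DD (Function.update a j t) = 0}.ncard ≤ K) ∧
  (∀ H : ℕ, 1 ≤ H → ∀ a ∈ box m H, |DD a| ≤ (K : ℤ) * (H : ℤ) ^ K) ∧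
  (∀ (p : ℕ), p.Prime → m + 1 < p → ∀ a : Fin m → ℤ,
    toZ p (Δ a) ≠ 0 ∧ (Δ a).natDegree ≤ K) ∧
  (∀ (p : ℕ), p.Prime → m + 1 < p → ∀ (t : ℤ) (a : Fin m → ℤ),
    IX p 1 (pol t a) → (p : ℤ) ∣ (Δ a).eval t) ∧
  (∀ (p : ℕ), p.Prime → m + 1 < p → ∀ (t : ℤ) (a : Fin m → ℤ),
    IX p 2 (pol t a) → (p : ℤ) ∣ DD a)

/-! ## Number of polynomials of given index modulo a prime -/

/-- all monic polynomials of degree `n` -/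
def T_SZ0 : Prop := ∀ n : ℕ, 1 ≤ n → ∃ K : ℕ, ∀ (p : ℕ) [Fact p.Prime], n < p → ∀ k : ℕ,
  {a : Fin n → ZMod p | IXp k (X ^ n + ∑ i : Fin n, C (a i) * X ^ (i : ℕ) : (ZMod p)[X])}.ncard
    * p ^ k ≤ K * p ^ n

/-- fixed nonzero constant term -/
def T_SZB : Prop := ∀ m : ℕ, 1 ≤ m → ∃ K : ℕ, ∀ (p : ℕ) [Fact p.Prime], m + 1 < p →
  ∀ (b : ZMod p), b ≠ 0 → ∀ k : ℕ, {a : Fin m → ZMod p | IXp k (pol b a)}.ncard * p ^ k ≤ K * p ^ m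

/-- fixed trace -/
def T_SZT : Prop := ∀ m : ℕ, 1 ≤ m → ∃ K : ℕ, ∀ (p : ℕ) [Fact p.Prime], m + 1 < p →
  ∀ (t : ZMod p) (k : ℕ), {a : Fin m → ZMod p | IXp k (polt t a)}.ncard * p ^ k ≤ K * p ^ m

/-- points of a box in prescribed residue classes -/
def T_CLS : Prop := ∀ (m : ℕ) (S : Fin m → ℕ) (C : ℕ) (Z : ∀ p : ℕ, Set (Fin m → ZMod p)),
  Squarefree C → ({a : Fin m → ℤ | (∀ i, |a i| ≤ (S i : ℤ)) ∧ ∀ p, p.Prime → p ∣ C →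
    red p a ∈ Z p}.ncard : ℝ) ≤
    (∏ i : Fin m, ((2 * (S i : ℝ) + 1) / C + 1)) * ∏ p ∈ C.primeFactors, ((Z p).ncard : ℝ)

/-- roots modulo a squarefree number in an interval -/
def T_RTS : Prop := ∀ (K C S : ℕ) (Δ : ℤ[X]), Squarefree C → Δ.natDegree ≤ K →
  (∀ p, p.Prime → p ∣ C → toZ p Δ ≠ 0) →
  ({t : ℤ | |t| ≤ (S : ℤ) ∧ ∀ p, p.Prime → p ∣ C → (p : ℤ) ∣ Δ.eval t}.ncard : ℝ) ≤
    (K : ℝ) ^ (om C) * ((2 * (S : ℝ) + 1) / C + 1)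

/-- large discriminant, small radical -/
def T_EI : Prop := ∀ m : ℕ, 4 ≤ m → m ≤ 6 → ∀ b : ℤ, b ≠ 0 → ∀ c₀ : ℝ, 0 < c₀ → ∃ K : ℝ,
  ∀ H : ℕ, 1 ≤ H → cnt m H (fun a => ∃ (C : ℕ) (k : ℕ → ℕ), Good b C ∧
    (C : ℝ) ≤ (H : ℝ) ^ (201 / 200 : ℝ) ∧
    (∀ p, p.Prime → p ∣ C → 2 ≤ k p ∧ k p ≤ m ∧ IX p (k p) (pol b a)) ∧
    c₀ * (H : ℝ) ^ (207 / 100 : ℝ) ≤ ∏ p ∈ C.primeFactors, (p : ℝ) ^ (k p)) ≤ K * (H : ℝ) ^ (m - 1)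

/-! ## Fourier analysis -/

/-- Fejér majorant of a box modulo `C` -/
def T_FEJ : Prop := ∀ (m H C : ℕ) [NeZero C] (W : (Fin m → ZMod C) → ℝ), 1 ≤ H → 16 * H ≤ C →
  (∀ a, 0 ≤ W a) →
  ∑ a ∈ box m H, W (red C a) ≤ (3 / ((C / (8 * H) : ℕ) : ℝ) ^ 2) ^ m *
    ∑ k ∈ Fintype.piFinset (fun _ : Fin m => Finset.Ioo (-((C / (8 * H) : ℕ) : ℤ)) ((C / (8 * H) : ℕ) : ℤ)),
      (∏ i, ((((C / (8 * H) : ℕ) : ℤ) - |k i| : ℤ) : ℝ)) * ‖FT W (red C k)‖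

/-- Fourier transform of a product weight -/
def T_CRTF : Prop := ∀ (m C : ℕ) [NeZero C] (W : ∀ p : ℕ, (Fin m → ZMod p) → ℝ)
  (Bd : ∀ p : ℕ, (Fin m → ZMod p) → ℝ), Squarefree C →
  (∀ (p : ℕ) [Fact p.Prime], p ∣ C → ∀ k : Fin m → ZMod p, ‖FT (W p) k‖ ≤ Bd p k) →
  (∀ (p : ℕ), p.Prime → ∀ (u : (ZMod p)ˣ) (k : Fin m → ZMod p), Bd p (fun i => u * k i) = Bd p k) →
  ∀ k : Fin m → ℤ, ‖FT (Wprod C W) (red C k)‖ ≤ ∏ p ∈ C.primeFactors, Bd p (red p k)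

/-- majorants of the polynomials of index at least two with small Fourier transform -/
def FW (m : ℕ) : Prop := ∀ (p : ℕ) [Fact p.Prime], 7 < p → ∀ b : ZMod p, b ≠ 0 →
  ∃ W : (Fin m → ZMod p) → ℝ, (∀ a, 0 ≤ W a) ∧ (∀ a, IXp 2 (pol b a) → 1 ≤ W a) ∧
    (∀ k, ‖FT W k‖ ≤ 20 * (p : ℝ) ^ ((m : ℝ) - 2)) ∧
    (∀ k, k ≠ 0 → ‖FT W k‖ ≤ 20 * (p : ℝ) ^ ((m : ℝ) - 5 / 2))

/-- factorisation types of index at least two -/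
def T_MAJ : Prop := ∀ (p : ℕ) [Fact p.Prime] (f : (ZMod p)[X]), f.Monic → f.natDegree < p →
  IXp 2 f → (∃ r : ZMod p, (X - C r) ^ 3 ∣ f) ∨ (∃ u v : ZMod p, (X ^ 2 + C u * X + C v) ^ 2 ∣ f) ∨
    ∃ q : (ZMod p)[X], q.Monic ∧ 3 ≤ q.natDegree ∧ q ^ 2 ∣ f

/-- quadratic exponential sums -/
def T_GAUSS : Prop := ∀ (p : ℕ) [Fact p.Prime], 2 < p → ∀ α β : ZMod p,
  (α ≠ 0 → ‖∑ u : ZMod p, ZMod.stdAddChar (α * u ^ 2 + β * u)‖ ≤ Real.sqrt p) ∧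
  (α = 0 → β ≠ 0 → ∑ u : ZMod p, ZMod.stdAddChar (α * u ^ 2 + β * u) = 0)

def T_FW4 : Prop := FW 4
def T_FW5 : Prop := FW 5
def T_FW6 : Prop := FW 6

/-- points of index at least two modulo all primes of `C` -/
def T_NC : Prop := ∀ m : ℕ, 4 ≤ m → m ≤ 6 → ∀ b : ℤ, b ≠ 0 → ∃ A : ℝ, 1 ≤ A ∧ ∀ H C : ℕ, 1 ≤ H →
  Good b C → 16 * H ≤ C → cnt m H (fun a => ∀ p, p.Prime → p ∣ C → IX p 2 (pol b a)) ≤
    A ^ (om C + 1) * ((H : ℝ) ^ m / (C : ℝ) ^ 2 + (C : ℝ) ^ (m - 2) * (H : ℝ) ^ (-(1 / 2) : ℝ))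

/-- radical with many large primes -/
def T_E3A : Prop := ∀ m : ℕ, 2 ≤ m → m ≤ 6 → ∀ b : ℤ, b ≠ 0 → ∃ K : ℝ, ∀ H : ℕ, 1 ≤ H →
  cnt m H (fun a => ∃ C : ℕ, Good b C ∧ H < C ∧ ∀ p, p.Prime → p ∣ C →
    (H : ℝ) ^ (1 / 400 : ℝ) < p ∧ IX p 2 (pol b a)) ≤ K * (H : ℝ) ^ (m - 1)

/-- radical slightly larger than `H` -/
def T_E3B : Prop := ∀ m : ℕ, 4 ≤ m → m ≤ 6 → ∀ b : ℤ, b ≠ 0 → ∃ K : ℝ, ∀ H : ℕ, 1 ≤ H →
  cnt m H (fun a => ∃ C : ℕ, Good b C ∧ (H : ℝ) ^ (401 / 400 : ℝ) < C ∧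
    (C : ℝ) ≤ (H : ℝ) ^ (201 / 200 : ℝ) ∧ ∀ p, p.Prime → p ∣ C → IX p 2 (pol b a)) ≤
    K * (H : ℝ) ^ (m - 1)

/-- large radical -/
def T_E3 : Prop := ∀ m : ℕ, 4 ≤ m → m ≤ 6 → ∀ b : ℤ, b ≠ 0 → ∃ K : ℝ, ∀ H : ℕ, 1 ≤ H →
  cnt m H (fun a => ∃ C : ℕ, Good b C ∧ (H : ℝ) ^ (201 / 200 : ℝ) < C ∧
    ∀ p, p.Prime → p ∣ C → IX p 2 (pol b a)) ≤ K * (H : ℝ) ^ (m - 1)

end Pool.Agent.H7.GF
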