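import Pool.Agent.H7.GF.Defs

/-!
# MP_cd65c5_nt: targets, part 3 (quartics, imprimitive fields, small fields, cubics, assembly)
-/

set_option autoImplicit false

namespace Pool.Agent.H7.GF

open Polynomial NumberField Module

/-! ## Quartics: Fourier analysis -/

/-- factorisation types of quartics -/
def T_MAJ4 : Prop := ∀ (p : ℕ) [Fact p.Prime], 7 < p → ∀ (b : ZMod p) (a : Fin 3 → ZMod p), b ≠ 0 →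
  IXp 2 (pol b a) → 1 ≤ WB b a ∨ ∃ w : ZMod p, w ^ 2 = b ∧ 1 ≤ WA w a

/-- Fourier transform of `WA` -/
def T_FA : Prop := ∀ (p : ℕ) [Fact p.Prime], 7 < p → ∀ (w : ZMod p) (k : Fin 3 → ZMod p), w ≠ 0 →
  ‖FT (WA w) k‖ ≤ p ∧ (k 1 ≠ 0 → ‖FT (WA w) k‖ ≤ Real.sqrt p) ∧
  (k 1 = 0 → k 2 + w * k 0 ≠ 0 → ‖FT (WA w) k‖ = 0)

/-- Mordell's elementary bound -/
def T_MORD : Prop := ∃ K : ℝ, ∀ (p : ℕ) [Fact p.Prime], 7 < p → ∀ c d : Fin 3 → ZMod p,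
  ((∃ i, c i ≠ 0) ∨ ∃ i, d i ≠ 0) →
  ‖∑ r : (ZMod p)ˣ, ZMod.stdAddChar (∑ i : Fin 3, c i * (r : ZMod p) ^ ((i : ℕ) + 1) +
    ∑ i : Fin 3, d i * ((r⁻¹ : (ZMod p)ˣ) : ZMod p) ^ ((i : ℕ) + 1))‖ ≤ K * (p : ℝ) ^ (11 / 12 : ℝ)

/-- number of solutions of the system of power sums -/
def T_MCNT : Prop := ∃ K : ℕ, ∀ (p : ℕ) [Fact p.Prime], 7 < p →
  {x : (Fin 6 → (ZMod p)ˣ) × (Fin 6 → (ZMod p)ˣ) | ∀ j : ℕ, 1 ≤ j → j ≤ 3 →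
    ∑ i, ((x.1 i : (ZMod p)ˣ) : ZMod p) ^ j = ∑ i, ((x.2 i : (ZMod p)ˣ) : ZMod p) ^ j ∧
    ∑ i, (((x.1 i)⁻¹ : (ZMod p)ˣ) : ZMod p) ^ j = ∑ i, (((x.2 i)⁻¹ : (ZMod p)ˣ) : ZMod p) ^ j}.ncard
    ≤ K * p ^ 6

/-- Fourier transform of `WB` -/
def T_FB : Prop := ∃ K : ℝ, 1 ≤ K ∧ ∀ (p : ℕ) [Fact p.Prime], 7 < p → ∀ (b : ZMod p)
  (k : Fin 3 → ZMod p), b ≠ 0 → ‖FT (WB b) k‖ ≤ p ∧ (k ≠ 0 → ‖FT (WB b) k‖ ≤ K * (p : ℝ) ^ (11 / 12 : ℝ))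

/-- bound for the Fourier transform at a prime of type B -/
noncomputable def BdB (K : ℝ) (p : ℕ) (k : Fin 3 → ZMod p) : ℝ :=
  open Classical in if k = 0 then (p : ℝ) else K * (p : ℝ) ^ (11 / 12 : ℝ)

/-- bound for the Fourier transform at a prime of type A with square root `w` -/
noncomputable def BdA (p : ℕ) (w : ZMod p) (k : Fin 3 → ZMod p) : ℝ :=
  open Classical in if k 1 ≠ 0 then Real.sqrt p else if k 2 + w * k 0 = 0 then (p : ℝ) else 0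

/-- the weight of the type given by the divisor `C₂` (primes of type A) and the root `w` -/
noncomputable def WT (b w : ℤ) (C₂ : ℕ) (p : ℕ) (a : Fin 3 → ZMod p) : ℝ :=
  open Classical in if p ∣ C₂ then WA (w : ZMod p) a else WB (b : ZMod p) a

/-- the bound for the product of the local Fourier transforms -/
noncomputable def BT (K : ℝ) (w : ℤ) (C C₂ : ℕ) (k : Fin 3 → ℤ) : ℝ :=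
  ∏ p ∈ C.primeFactors, open Classical in
    if p ∣ C₂ then BdA p (w : ZMod p) (red p k) else BdB K p (red p k)

/-- Fejér majorant with the local bounds inserted -/
def T_N4F : Prop := ∃ K : ℝ, 1 ≤ K ∧ ∀ (b w : ℤ) (H C C₂ : ℕ) [NeZero C], 1 ≤ H → 16 * H ≤ C →
  Good b C → C₂ ∣ C → (C₂ : ℤ) ∣ w ^ 2 - b →
  ∑ a ∈ box 3 H, Wprod C (WT b w C₂) (red C a) ≤ (3 / ((C / (8 * H) : ℕ) : ℝ) ^ 2) ^ 3 *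
    ∑ k ∈ Fintype.piFinset (fun _ : Fin 3 => Finset.Ioo (-((C / (8 * H) : ℕ) : ℤ)) ((C / (8 * H) : ℕ) : ℤ)),
      (((C / (8 * H) : ℕ) : ℝ)) ^ 3 * BT K w C C₂ k

/-- frequencies which are not exceptional -/
def T_N4R : Prop := ∀ (K : ℝ), 1 ≤ K → ∃ A : ℝ, 1 ≤ A ∧ ∀ (b w : ℤ) (C C₂ L : ℕ)
  (k : Fin 3 → ℤ), 1 ≤ L → b ≠ 0 → Good b C → C₂ ∣ C → (C₂ : ℤ) ∣ w ^ 2 - b → (∀ i, |k i| < (L : ℤ)) →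
  (k 1 ≠ 0 ∨ (k 2) ^ 2 ≠ b * (k 0) ^ 2) →
  BT K w C C₂ k ≤ A ^ (om C + 1) * (C : ℝ) ^ (11 / 12 : ℝ) * ((1 + |(b : ℝ)|) * (L : ℝ) ^ 3) ^ (1 / 12 : ℝ)

/-- exceptional frequencies: `b = β²`, `k = (x, 0, - β x)` -/
def T_N4E : Prop := ∀ (K : ℝ), 1 ≤ K → ∃ A : ℝ, 1 ≤ A ∧ ∀ (β w : ℤ) (C C₂ L g : ℕ),
  1 ≤ L → β ≠ 0 → Good (β ^ 2) C → C₂ ∣ C → (C₂ : ℤ) ∣ w ^ 2 - β ^ 2 →
  g = ∏ p ∈ C₂.primeFactors.filter (fun p : ℕ => (p : ℤ) ∣ w + β), p →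
  ∑ x ∈ (Finset.Ioo (-(L : ℤ)) (L : ℤ)).filter (fun x => x ≠ 0),
    BT K w C C₂ (fun i : Fin 3 => if (i : ℕ) = 0 then x else if (i : ℕ) = 2 then -β * x else 0) ≤
    A ^ (om C + 1) * (C : ℝ) * (L : ℝ) / ((g : ℝ) * ((C / C₂ : ℕ) : ℝ)) ^ (1 / 12 : ℝ)

/-- nondegenerate quartics of index at least two at all primes of `C` -/
def T_NC4 : Prop := ∀ b : ℤ, b ≠ 0 → ∃ A : ℝ, 1 ≤ A ∧ ∃ H₀ : ℕ, ∀ H C : ℕ, H₀ ≤ H → Good b C →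
  (H : ℝ) ^ (401 / 400 : ℝ) < C → (C : ℝ) ≤ (H : ℝ) ^ (201 / 200 : ℝ) →
  cnt 3 H (fun a => (a 2) ^ 2 * b ≠ (a 0) ^ 2 ∧ ∀ p, p.Prime → p ∣ C → IX p 2 (pol b a)) ≤
    A ^ (om C + 1) * (H : ℝ) ^ (2 - 1 / 5000 : ℝ) / C

/-- large radical, quartics -/
def T_E34 : Prop := ∀ b : ℤ, b ≠ 0 → ∃ K : ℝ, ∀ H : ℕ, 1 ≤ H →
  cnt 3 H (fun a => ∃ C : ℕ, Good b C ∧ (H : ℝ) ^ (201 / 200 : ℝ) < C ∧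
    ∀ p, p.Prime → p ∣ C → IX p 2 (pol b a)) ≤ K * (H : ℝ) ^ 2

/-! ## Squares among the values of a cubic -/

/-- character sums of cubics, elementary bound -/
def T_CS3 : Prop := ∀ (p : ℕ) [Fact p.Prime], 3 < p → ∀ h : (ZMod p)[X], h.natDegree = 3 →
  Squarefree h → |((∑ x : ZMod p, quadraticChar (ZMod p) (h.eval x) : ℤ) : ℝ)| ≤
    6 * (p : ℝ) ^ (3 / 4 : ℝ)

/-- sieve by nonresidues -/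
def T_SIEVE : Prop := ∃ K : ℝ, ∀ (N Q : ℕ) (S : Finset ℕ) (P : Finset ℕ) (Z : ∀ p : ℕ, Finset (ZMod p)),
  1 ≤ N → 1 ≤ Q → S ⊆ Finset.range N → (∀ p ∈ P, p.Prime ∧ p ≤ Q) →
  (∀ p ∈ P, ∀ n ∈ S, (n : ZMod p) ∉ Z p) → (∀ p ∈ P, (p : ℝ) / 4 ≤ ((Z p).card : ℝ)) →
  (S.card : ℝ) * P.card ≤ K * ((N : ℝ) + (Q : ℝ) ^ 2)

/-- square values of a cubic -/
def T_ELL : Prop := ∃ K : ℝ, ∀ (J : ℕ) (T : ℝ) (h : ℤ[X]) (R : ℤ), 1 ≤ J → 2 ≤ T →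
  h.natDegree = 3 → R ≠ 0 → |(R : ℝ)| ≤ T →
  (∀ p : ℕ, p.Prime → 3 < p → ¬ ((p : ℤ) ∣ R) → (toZ p h).natDegree = 3 ∧ Squarefree (toZ p h)) →
  ({j : ℤ | |j| ≤ (J : ℤ) ∧ IsSquare (h.eval j)}.ncard : ℝ) ≤
    K * ((J : ℝ) ^ (1 / 2 : ℝ) * Real.log (J + 2) + Real.log T ^ 6)

/-- small `A₄` quartics -/
def T_GC4 : Prop := ∀ c : ℝ, 0 < c → ∃ K : ℝ, ∀ X : ℝ, 1 ≤ X →
  {g : ℤ[X] | RelG4 c X g}.Finite ∧ ({g : ℤ[X] | RelG4 c X g}.ncard : ℝ) ≤ K * X ^ (19 / 20 : ℝ)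

/-! ## Imprimitive fields -/

/-- quartic fields with a quadratic subfield: integral root of the resolvent -/
def T_I4A : Prop := ∀ (b : ℤ) (H : ℕ) (a : Fin 3 → ℤ), b ≠ 0 → a ∈ box 3 H → ImprF (pol b a) →
  ∃ u : ℤ, |(u : ℝ)| ≤ 20 * (H + |(b : ℝ)|) ∧
    (u ^ 2 - 4 * b) * (a 1 - u) = u * a 0 * a 2 - b * a 2 ^ 2 - a 0 ^ 2

/-- sparse solutions of Pell type equations -/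
def T_PELL : Prop := ∀ b : ℤ, b ≠ 0 → ∃ K : ℝ, ∀ (d : ℤ) (U : ℕ), 2 ≤ d → 1 ≤ U →
  {u : ℤ | |u| ≤ (U : ℤ) ∧ ∃ v : ℤ, u ^ 2 - 4 * b = d * v ^ 2}.Finite ∧
  ({u : ℤ | |u| ≤ (U : ℤ) ∧ ∃ v : ℤ, u ^ 2 - 4 * b = d * v ^ 2}.ncard : ℝ) ≤
    K * (1 + Real.log U)

/-- points near the lines `w √d = ± x` -/
def T_I4B : Prop := ∀ c : ℝ, 1 ≤ c → ∃ K : ℝ, ∀ (d : ℤ) (H : ℕ), 1 ≤ d → 2 ≤ H →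
  ({x : ℤ × ℤ | |x.1| ≤ (H : ℤ) ∧ |((d * x.2 ^ 2 - x.1 ^ 2 : ℤ) : ℝ)| ≤ c * H}.ncard : ℝ) ≤
    K * (H + H * Real.log H / Real.sqrt d)

/-- quartics with an integral root of the resolvent -/
def T_I4C : Prop := ∀ b : ℤ, b ≠ 0 → ∃ K : ℝ, ∀ H : ℕ, 1 ≤ H → cnt 3 H (fun a =>
  ∃ u : ℤ, |(u : ℝ)| ≤ 20 * (H + |(b : ℝ)|) ∧
    (u ^ 2 - 4 * b) * (a 1 - u) = u * a 0 * a 2 - b * a 2 ^ 2 - a 0 ^ 2) ≤ K * (H : ℝ) ^ 2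

/-- sextic fields with a proper subfield -/
def T_I6A : Prop := ∀ (b : ℤ) (H : ℕ) (a : Fin 5 → ℤ), b ≠ 0 → 1 ≤ H → a ∈ box 5 H →
  ImprF (pol b a) → Nrm b H a

/-- number of norm polynomials -/
def T_I6C : Prop := ∀ b : ℤ, b ≠ 0 → ∃ K : ℝ, ∀ H : ℕ, 1 ≤ H →
  cnt 5 H (fun a => Irreducible (toQ (pol b a)) ∧ Nrm b H a) ≤ K * (H : ℝ) ^ 4

/-! ## Small fields, degrees 5, 6, 7 -/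

/-- degree 5, small radical -/
def T_G5A : Prop := ∀ c : ℝ, 0 < c → ∃ K : ℝ, ∀ X : ℝ, 1 ≤ X →
  {g : ℤ[X] | g.Monic ∧ g.natDegree = 5 ∧ |(g.coeff 4 : ℝ)| ≤ 5 ∧
    (∀ j, 2 ≤ j → j ≤ 5 → |(g.coeff (5 - j) : ℝ)| ≤ c * X ^ ((j : ℝ) / 8)) ∧
    ∃ (C : ℕ) (k : ℕ → ℕ), Squarefree C ∧ (C : ℝ) ≤ X ^ (3 / 8 : ℝ) ∧
      (∀ p, p.Prime → p ∣ C → 7 < p ∧ 2 ≤ k p ∧ k p ≤ 4 ∧ IX p (k p) g) ∧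
      X ≤ c * ∏ p ∈ C.primeFactors, (p : ℝ) ^ (k p)}.ncard ≤ K * X ^ (7 / 5 : ℝ)

/-- degree 5, large radical -/
def T_G5B : Prop := ∀ c : ℝ, 0 < c → ∃ K : ℝ, ∀ X : ℝ, 1 ≤ X →
  {g : ℤ[X] | g.Monic ∧ g.natDegree = 5 ∧ |(g.coeff 4 : ℝ)| ≤ 5 ∧
    (∀ j, 2 ≤ j → j ≤ 5 → |(g.coeff (5 - j) : ℝ)| ≤ c * X ^ ((j : ℝ) / 8)) ∧
    ∃ C : ℕ, Squarefree C ∧ X ^ (3 / 8 : ℝ) < (C : ℝ) ∧ (C : ℝ) ^ 2 ≤ X ∧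
      (∀ p, p.Prime → p ∣ C → 7 < p ∧ IX p 2 g)}.ncard ≤ K * X ^ (7 / 5 : ℝ)

/-- degree 6, small radical -/
def T_G6A : Prop := ∀ c : ℝ, 0 < c → ∃ K : ℝ, ∀ X : ℝ, 1 ≤ X →
  {g : ℤ[X] | g.Monic ∧ g.natDegree = 6 ∧ |(g.coeff 5 : ℝ)| ≤ 6 ∧
    (∀ j, 2 ≤ j → j ≤ 6 → |(g.coeff (6 - j) : ℝ)| ≤ c * X ^ ((j : ℝ) / 10)) ∧
    ∃ (C : ℕ) (k : ℕ → ℕ), Squarefree C ∧ (C : ℝ) ≤ X ^ (1 / 5 : ℝ) ∧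
      (∀ p, p.Prime → p ∣ C → 7 < p ∧ 2 ≤ k p ∧ k p ≤ 5 ∧ IX p (k p) g) ∧
      X ≤ c * ∏ p ∈ C.primeFactors, (p : ℝ) ^ (k p)}.ncard ≤ K * X ^ (19 / 10 : ℝ)

/-- degree 6, large radical -/
def T_G6B : Prop := ∀ c : ℝ, 0 < c → ∃ K : ℝ, ∀ X : ℝ, 1 ≤ X →
  {g : ℤ[X] | g.Monic ∧ g.natDegree = 6 ∧ |(g.coeff 5 : ℝ)| ≤ 6 ∧
    (∀ j, 2 ≤ j → j ≤ 6 → |(g.coeff (6 - j) : ℝ)| ≤ c * X ^ ((j : ℝ) / 10)) ∧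
    ∃ C : ℕ, Squarefree C ∧ X ^ (1 / 5 : ℝ) < (C : ℝ) ∧ (C : ℝ) ^ 2 ≤ X ∧
      (∀ p, p.Prime → p ∣ C → 7 < p ∧ IX p 2 g)}.ncard ≤ K * X ^ (19 / 10 : ℝ)

/-- exponent of the number of small fields -/
noncomputable def expo (n : ℕ) : ℝ := if n = 5 then 7 / 5 else if n = 6 then 19 / 10 else 9 / 4

/-- small fields of degree 5, 6, 7 -/
def T_GC : Prop := ∀ n : ℕ, 5 ≤ n → n ≤ 7 → ∀ c : ℝ, 0 < c → ∃ K : ℝ, ∀ X : ℝ, 1 ≤ X →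
  {g : ℤ[X] | RelG n c X g}.Finite ∧ ({g : ℤ[X] | RelG n c X g}.ncard : ℝ) ≤ K * X ^ expo n

/-! ## Cubics -/

/-- small cyclic cubics -/
def T_GC3 : Prop := ∀ c : ℝ, 0 < c → ∃ K : ℝ, ∀ Y : ℝ, 1 ≤ Y →
  {g : ℤ[X] | RelG3 c Y g}.Finite ∧ ({g : ℤ[X] | RelG3 c Y g}.ncard : ℝ) ≤ K * Y

/-- parameters of cyclic cubics of large radical: with `a = (c, a)` i.e. `a 1` the coefficient of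
`X²` and `a 0` the coefficient of `X` -/
def T_N3Q : Prop := ∀ b : ℤ, b ≠ 0 → ∃ κ : ℝ, 1 ≤ κ ∧ ∀ (H : ℕ) (a : Fin 2 → ℤ), 1 ≤ H →
  a ∈ box 2 H → Irreducible (toQ (pol b a)) → Sq3 (pol b a) →
  (∃ C : ℕ, Squarefree C ∧ κ * H < C ∧ ∀ p, p.Prime → p ∣ C → 7 < p ∧ IX p 2 (pol b a)) →
  (∃ r : ℤ, r ^ 3 = -b ∧ a 0 = r * a 1 - 3 * r ^ 2) ∨
  ∃ (F s₁ s₂ l q : ℤ), κ * H < F ∧ 0 < l ∧ 0 < q ∧ s₁ ≠ 0 ∧ s₂ ≠ 0 ∧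
    l * q = s₁ ^ 2 - s₁ * s₂ + s₂ ^ 2 ∧
    a 1 * (s₁ * s₂) = (s₁ + s₂) * l + b * q ^ 2 ∧ a 0 * (s₁ * s₂) = (s₁ + s₂) * b * q + l ^ 2 ∧
    (∀ t : ℤ, Prime t → ¬ t ∣ b → ¬ (t ∣ s₂ ∧ t ∣ l) ∧ ¬ (t ∣ s₂ ∧ t ∣ q) ∧ ¬ (t ∣ s₁ ∧ t ∣ s₂)) ∧
    (F : ℝ) * q ≤ 2 * (a 1 : ℝ) ^ 2 ∧ (a 1 : ℝ) ^ 2 ≤ 2 * (F * q) ∧
    (F : ℝ) * l ≤ 2 * (a 0 : ℝ) ^ 2 ∧ (a 0 : ℝ) ^ 2 ≤ 2 * (F * l) ∧
    |(F : ℝ) * s₁| ≤ 2 * |(a 0 : ℝ) * a 1| ∧ |(a 0 : ℝ) * a 1| ≤ 2 * |(F : ℝ) * s₁| ∧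
    |(F : ℝ) * s₂| * |(a 0 : ℝ) * a 1| ≤ 6 * |(b : ℝ)| * max |(a 0 : ℝ)| |(a 1 : ℝ)| ^ 3

/-- number of roots of `x² - s x + s²` modulo `l` -/
noncomputable def rho (s l : ℤ) : ℕ := {x : ℤ | 0 ≤ x ∧ x < l ∧ l ∣ x ^ 2 - s * x + s ^ 2}.ncard

/-- the part of `s` which is coprime to `b` -/
noncomputable def cop (b : ℤ) (s : ℕ) : ℕ :=
  ∏ t ∈ s.primeFactors.filter (fun t : ℕ => ¬ ((t : ℤ) ∣ b)), t ^ (s.factorization t)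

/-- average of the number of roots -/
def T_RHO1 : Prop := ∃ K : ℝ, ∀ L : ℕ, 1 ≤ L → ∑ l ∈ Finset.Icc 1 L, (rho 1 (l : ℤ) : ℝ) ≤ K * L

/-- average of the number of roots, general `s`, over the `l` with only primes of `b` in common
with `s` -/
def T_RHO : Prop := ∀ b : ℤ, b ≠ 0 → ∃ K : ℝ, ∀ (s : ℤ) (L : ℕ), s ≠ 0 → 1 ≤ L →
  (∑ l ∈ Finset.Icc L (64 * L), open Classical in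
    if (∀ t : ℕ, t.Prime → ¬ ((t : ℤ) ∣ b) → ¬ ((t : ℤ) ∣ s ∧ t ∣ l)) then
    (rho s (l : ℤ) : ℝ) / l else 0) ≤ K

/-- for fixed `s₂` and `l` (case `false`) or `q` (case `true`): number of `s₁` -/
def T_N3S : Prop := ∀ b : ℤ, b ≠ 0 → ∃ K : ℝ, ∀ (s₂ l : ℤ) (S : ℝ), s₂ ≠ 0 → 0 < l → 0 ≤ S →
  (∀ t : ℤ, Prime t → ¬ t ∣ b → ¬ (t ∣ s₂ ∧ t ∣ l)) →
  ({s₁ : ℤ | |(s₁ : ℝ)| ≤ S ∧ (∀ t : ℤ, Prime t → ¬ t ∣ b → ¬ (t ∣ s₁ ∧ t ∣ s₂)) ∧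
    ∃ q : ℤ, l * q = s₁ ^ 2 - s₁ * s₂ + s₂ ^ 2 ∧
      (s₂ ∣ s₁ * l + b * q ^ 2 ∨ s₂ ∣ s₁ * q + b * l ^ 2)}.ncard : ℝ) ≤
    K * 3 ^ (om s₂.natAbs) * rho s₂ l *
      (S / (l * (cop b s₂.natAbs : ℝ)) + 1)

/-- sum over `s₂` -/
def T_N3T : Prop := ∀ b : ℤ, b ≠ 0 → ∃ K : ℝ, ∀ S : ℝ, 1 ≤ S →
  (∑ s ∈ Finset.Icc 1 ⌊S⌋₊, (3 : ℝ) ^ (om s) / (cop b s : ℝ)) ≤ K * S ^ (1 / 4 : ℝ)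

/-- cyclic cubics of large radical -/
def T_N3A : Prop := ∀ b : ℤ, b ≠ 0 → ∃ κ K : ℝ, 1 ≤ κ ∧ ∀ H : ℕ, 1 ≤ H →
  cnt 2 H (fun a => Irreducible (toQ (pol b a)) ∧ Sq3 (pol b a) ∧
    ∃ C : ℕ, Squarefree C ∧ κ * H < C ∧ ∀ p, p.Prime → p ∣ C → 7 < p ∧ IX p 2 (pol b a)) ≤ K * H

/-! ## Assembly -/

/-- primitive bad polynomials -/
def T_PR2 : Prop := ∀ b : ℤ, b ≠ 0 → ∃ K : ℝ, ∀ H : ℕ, 1 ≤ H →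
  cnt 2 H (fun a => PrimF (pol b a) ∧ NonFull (pol b a)) ≤ K * (H : ℝ)

/-- primitive bad polynomials -/
def T_PR3 : Prop := ∀ b : ℤ, b ≠ 0 → ∃ K : ℝ, ∀ H : ℕ, 1 ≤ H →
  cnt 3 H (fun a => PrimF (pol b a) ∧ NonFull (pol b a)) ≤ K * (H : ℝ) ^ 2

/-- primitive bad polynomials -/
def T_PR : Prop := ∀ m : ℕ, 4 ≤ m → m ≤ 6 → ∀ b : ℤ, b ≠ 0 → ∃ K : ℝ, ∀ H : ℕ, 1 ≤ H →
  cnt m H (fun a => PrimF (pol b a) ∧ NonFull (pol b a)) ≤ K * (H : ℝ) ^ (m - 1)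

/-- number of bad polynomials, `H` real -/
noncomputable def E (n : ℕ) (b : ℤ) (H : ℝ) : ℝ :=
  ({f : ℤ[X] | f.Monic ∧ f.natDegree = n ∧ f.coeff 0 = b ∧
    (∀ i, 1 ≤ i → i < n → |(f.coeff i : ℝ)| ≤ H) ∧ ¬ Full f}.ncard : ℝ)

/-- the main theorem -/
def T_MAIN : Prop := ∀ n : ℕ, 3 ≤ n → n ≤ 7 → ∀ b : ℤ, b ≠ 0 → ∃ c K H₀ : ℝ, 0 < c ∧
  ∀ H : ℝ, H₀ ≤ H → c * H ^ (n - 2) ≤ E n b H ∧ E n b H ≤ K * H ^ (n - 2)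

end Pool.Agent.H7.GF
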