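import Pool.Agent.H7.GF.Defs

/-!
# MP_cd65c5_nt: basic lemmas on `pol`, `box`, `cnt`, `IX` (proved)
-/

set_option autoImplicit false

namespace Pool.Agent.H7.GF

open Polynomial NumberField Module

section pol

variable {R : Type} [CommRing R] {m : ℕ}

lemma natDegree_tail_lt [Nontrivial R] (b : R) (a : Fin m → R) :
    (∑ i : Fin m, C (a i) * X ^ ((i : ℕ) + 1) + C b : R[X]).degree < ((m + 1 : ℕ) : WithBot ℕ) := by
  refine lt_of_le_of_lt (degree_add_le _ _) (max_lt ?_ ?_)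
  · refine lt_of_le_of_lt (degree_sum_le _ _) ?_
    rw [Finset.sup_lt_iff (WithBot.bot_lt_coe _)]
    intro i _
    refine lt_of_le_of_lt (degree_C_mul_X_pow_le _ _) ?_
    exact_mod_cast Nat.add_lt_add_right i.2 1
  · exact lt_of_le_of_lt degree_C_le (by exact_mod_cast Nat.succ_pos m)

lemma pol_eq (b : R) (a : Fin m → R) : pol b a = X ^ (m + 1) +
    (∑ i : Fin m, C (a i) * X ^ ((i : ℕ) + 1) + C b) := by
  rw [pol, add_assoc]

lemma pol_monic (b : R) (a : Fin m → R) : (pol b a).Monic := by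
  nontriviality R
  rw [pol_eq]
  exact monic_X_pow_add (natDegree_tail_lt b a)

lemma pol_natDegree [Nontrivial R] (b : R) (a : Fin m → R) : (pol b a).natDegree = m + 1 := by
  rw [pol_eq]
  rw [natDegree_add_eq_left_of_degree_lt]
  · simp
  · simpa using natDegree_tail_lt b a

lemma pol_coeff_zero (b : R) (a : Fin m → R) : (pol b a).coeff 0 = b := by
  simp [pol, coeff_X_pow]

lemma pol_coeff_succ (b : R) (a : Fin m → R) (i : Fin m) : (pol b a).coeff ((i : ℕ) + 1) = a i := by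
  have h1 : ((i : ℕ) + 1 : ℕ) ≠ m + 1 := by have := i.2; omega
  simp only [pol, coeff_add, coeff_X_pow, finsetSum_coeff, coeff_C_mul, coeff_C_succ, add_zero]
  rw [if_neg h1, zero_add, Finset.sum_eq_single i]
  · simp
  · intro j _ hj
    have : ¬ ((i : ℕ) = (j : ℕ)) := fun h => hj (Fin.ext h.symm)
    simp [this]
  · simp

lemma pol_injective (b : R) : Function.Injective (pol (m := m) b) := by
  intro a a' h
  funext i
  rw [← pol_coeff_succ b a i, h, pol_coeff_succ]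

lemma pol_map {S : Type} [CommRing S] (φ : R →+* S) (b : R) (a : Fin m → R) :
    (pol b a).map φ = pol (φ b) (fun i => φ (a i)) := by
  simp [pol, Polynomial.map_sum]

/-- a monic polynomial of degree `m + 1` is of the form `pol` -/
lemma eq_pol [Nontrivial R] (f : R[X]) (hf : f.Monic) (hd : f.natDegree = m + 1) :
    f = pol (f.coeff 0) (fun i : Fin m => f.coeff ((i : ℕ) + 1)) := by
  ext k
  rcases Nat.lt_or_ge k (m + 2) with hk | hk
  · rcases Nat.eq_zero_or_pos k with rfl | hk0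
    · rw [pol_coeff_zero]
    · rcases Nat.lt_or_ge k (m + 1) with hk1 | hk1
      · obtain ⟨j, rfl⟩ : ∃ j, k = j + 1 := ⟨k - 1, by omega⟩
        have := pol_coeff_succ (f.coeff 0) (fun i : Fin m => f.coeff ((i : ℕ) + 1)) ⟨j, by omega⟩
        exact this.symm
      · have hk2 : k = m + 1 := by omega
        subst hk2
        have h1 := (pol_monic (f.coeff 0) (fun i : Fin m => f.coeff ((i : ℕ) + 1))).coeff_natDegree
        rw [pol_natDegree] at h1
        rw [h1, ← hd]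
        exact hf.coeff_natDegree
  · rw [coeff_eq_zero_of_natDegree_lt (by omega), coeff_eq_zero_of_natDegree_lt]
    rw [pol_natDegree]; omega

end pol

lemma toZ_pol (p : ℕ) {m : ℕ} (b : ℤ) (a : Fin m → ℤ) :
    toZ p (pol b a) = pol (b : ZMod p) (red p a) := by
  rw [toZ, pol_map]; rfl

lemma toQ_pol {m : ℕ} (b : ℤ) (a : Fin m → ℤ) :
    toQ (pol b a) = pol (b : ℚ) (fun i => (a i : ℚ)) := by
  rw [toQ, pol_map]; rfl

lemma mem_box {m H : ℕ} {a : Fin m → ℤ} : a ∈ box m H ↔ ∀ i, |a i| ≤ (H : ℤ) := by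
  simp [box, abs_le]

lemma card_box (m H : ℕ) : (box m H).card = (2 * H + 1) ^ m := by
  rw [box, Fintype.card_piFinset]
  simp only [Int.card_Icc, Finset.prod_const, Finset.card_univ, Fintype.card_fin]
  congr 1
  omega

lemma cnt_finite (m H : ℕ) (P : (Fin m → ℤ) → Prop) : {a | a ∈ box m H ∧ P a}.Finite :=
  (box m H).finite_toSet.subset fun _ h => h.1

lemma cnt_nonneg (m H : ℕ) (P : (Fin m → ℤ) → Prop) : 0 ≤ cnt m H P := Nat.cast_nonneg _

lemma cnt_mono {m H : ℕ} {P Q : (Fin m → ℤ) → Prop} (h : ∀ a ∈ box m H, P a → Q a) :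
    cnt m H P ≤ cnt m H Q := by
  rw [cnt, cnt]
  have h1 : {a | a ∈ box m H ∧ P a} ⊆ {a | a ∈ box m H ∧ Q a} := fun a ha => ⟨ha.1, h a ha.1 ha.2⟩
  exact_mod_cast Set.ncard_le_ncard h1 (cnt_finite m H Q)

lemma cnt_or_le {m H : ℕ} (P Q : (Fin m → ℤ) → Prop) :
    cnt m H (fun a => P a ∨ Q a) ≤ cnt m H P + cnt m H Q := by
  rw [cnt, cnt, cnt]
  have h1 : {a | a ∈ box m H ∧ (P a ∨ Q a)} = {a | a ∈ box m H ∧ P a} ∪ {a | a ∈ box m H ∧ Q a} := by
    ext a
    simp only [Set.mem_ofPred_eq, Set.mem_union]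
    tauto
  rw [h1]
  exact_mod_cast Set.ncard_union_le _ _

lemma cnt_le_card (m H : ℕ) (P : (Fin m → ℤ) → Prop) : cnt m H P ≤ (2 * (H : ℝ) + 1) ^ m := by
  rw [cnt]
  have h1 : {a | a ∈ box m H ∧ P a}.ncard ≤ ((box m H : Finset (Fin m → ℤ)) : Set (Fin m → ℤ)).ncard :=
    Set.ncard_le_ncard (fun a ha => ha.1) (box m H).finite_toSet
  rw [Set.ncard_coe_finset, card_box] at h1
  calc (({a | a ∈ box m H ∧ P a}.ncard : ℕ) : ℝ) ≤ (((2 * H + 1) ^ m : ℕ) : ℝ) := by exact_mod_cast h1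
    _ = _ := by push_cast; ring

/-- union bound over a finite set -/
lemma cnt_exists_le {m H : ℕ} {ι : Type*} (s : Finset ι) (P : ι → (Fin m → ℤ) → Prop) :
    cnt m H (fun a => ∃ i ∈ s, P i a) ≤ ∑ i ∈ s, cnt m H (P i) := by
  classical
  induction s using Finset.induction_on with
  | empty => simp [cnt]
  | insert i s hi ih =>
    rw [Finset.sum_insert hi]
    refine le_trans ?_ (add_le_add le_rfl ih)
    refine le_trans (cnt_mono ?_) (cnt_or_le (P i) (fun a => ∃ j ∈ s, P j a))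
    rintro a - ⟨j, hj, hja⟩
    rcases Finset.mem_insert.1 hj with rfl | hj
    · exact Or.inl hja
    · exact Or.inr ⟨j, hj, hja⟩

lemma IXp_mono {k l : ℕ} (h : l ≤ k) {F : Type} [CommRing F] {f : F[X]} (hf : IXp k f) : IXp l f := by
  obtain ⟨g, h1, h2, h3, h4⟩ := hf
  exact ⟨g, h1, h.trans h2, h3, h4⟩

lemma IX_mono {p k l : ℕ} (h : l ≤ k) {f : ℤ[X]} (hf : IX p k f) : IX p l f := IXp_mono h hf

lemma Good.dvd {b : ℤ} {C C' : ℕ} (h : Good b C) (hC : C' ∣ C) : Good b C' :=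
  ⟨h.1.squarefree_of_dvd hC, fun p hp hpC => h.2 p hp (hpC.trans hC)⟩

end Pool.Agent.H7.GF
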