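import Mathlib

/-!
# MP_cd65c5_nt: Galois groups of monic polynomials with fixed constant term, degrees 3 to 7

Common definitions of the modules of the board `gf_modules`.
-/

set_option autoImplicit false

namespace Pool.Agent.H7.GF

open Polynomial NumberField Module

/-- `X^(m+1) + a_{m-1} X^m + ... + a_0 X + b`: `a i` is the coefficient of `X^(i+1)`. -/
noncomputable def pol {R : Type} [CommRing R] {m : ℕ} (b : R) (a : Fin m → R) : R[X] :=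
  X ^ (m + 1) + ∑ i : Fin m, C (a i) * X ^ ((i : ℕ) + 1) + C b

/-- `X^(m+1) + t X^m + a_{m-1} X^(m-1) + ... + a_0`: `a i` is the coefficient of `X^i`. -/
noncomputable def polt {R : Type} [CommRing R] {m : ℕ} (t : R) (a : Fin m → R) : R[X] :=
  X ^ (m + 1) + C t * X ^ m + ∑ i : Fin m, C (a i) * X ^ (i : ℕ)

/-- the box `|a i| ≤ H` -/
noncomputable def box (m H : ℕ) : Finset (Fin m → ℤ) := Fintype.piFinset fun _ => Finset.Icc (-(H : ℤ)) H

/-- the polynomial over the rationals -/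
noncomputable def toQ (f : ℤ[X]) : ℚ[X] := f.map (Int.castRingHom ℚ)

/-- the polynomial modulo `p` -/
noncomputable def toZ (p : ℕ) (f : ℤ[X]) : (ZMod p)[X] := f.map (Int.castRingHom (ZMod p))

/-- `gcd (f, f')` has degree at least `k` -/
def IXp (k : ℕ) {F : Type} [CommRing F] (f : F[X]) : Prop :=
  ∃ g : F[X], g.Monic ∧ k ≤ g.natDegree ∧ g ∣ f ∧ g ∣ derivative f

/-- index at least `k` modulo `p` -/
def IX (p k : ℕ) (f : ℤ[X]) : Prop := IXp k (toZ p f)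

/-- the field has no proper intermediate fields over the rationals -/
def NoInt (K : Type) [Field K] [NumberField K] : Prop :=
  ∀ F : IntermediateField ℚ K, F = ⊥ ∨ F = ⊤

/-- `f` is the minimal polynomial of a generator of a number field without proper
intermediate fields -/
def PrimF (f : ℤ[X]) : Prop :=
  ∃ (K : Type) (_ : Field K) (_ : NumberField K) (θ : 𝓞 K), minpoly ℤ θ = f ∧
    f.natDegree = Module.finrank ℚ K ∧ NoInt K

/-- `f` is the minimal polynomial of a generator of a number field with a proper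
intermediate field -/
def ImprF (f : ℤ[X]) : Prop :=
  ∃ (K : Type) (_ : Field K) (_ : NumberField K) (θ : 𝓞 K), minpoly ℤ θ = f ∧
    f.natDegree = Module.finrank ℚ K ∧ ¬ NoInt K

/-- `f` and `g` are minimal polynomials of generators of the same number field -/
def SameField (f g : ℤ[X]) : Prop :=
  ∃ (K : Type) (_ : Field K) (_ : NumberField K) (θ α : 𝓞 K), minpoly ℤ θ = f ∧
    minpoly ℤ α = g ∧ f.natDegree = Module.finrank ℚ K ∧ g.natDegree = Module.finrank ℚ K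

/-- the Galois group is not the full symmetric group -/
def NonFull (f : ℤ[X]) : Prop := Nat.card (toQ f).Gal ≠ f.natDegree.factorial

/-- irreducible with full Galois group -/
def Full (f : ℤ[X]) : Prop :=
  Irreducible (toQ f) ∧ Nat.card (toQ f).Gal = f.natDegree.factorial

/-- `D` is the absolute value of the discriminant of the field generated by a root of `g` -/
def FDisc (g : ℤ[X]) (D : ℕ) : Prop :=
  ∃ (K : Type) (_ : Field K) (_ : NumberField K) (α : 𝓞 K), minpoly ℤ α = g ∧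
    g.natDegree = Module.finrank ℚ K ∧ (discr K).natAbs = D

/-- number of ring homomorphisms from the ring of integers to an algebraic closure of `ZMod p` -/
noncomputable def Hp (p : ℕ) [Fact p.Prime] (K : Type) [Field K] [NumberField K] : ℕ :=
  Nat.card (𝓞 K →+* AlgebraicClosure (ZMod p))

/-- number of points of the box with property `P` -/
noncomputable def cnt (m H : ℕ) (P : (Fin m → ℤ) → Prop) : ℝ := ({a | a ∈ box m H ∧ P a}.ncard : ℝ)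

/-- the field structure attached to a bad primitive polynomial `f`: `D` is the absolute value of
the discriminant of the field, `g` is the minimal polynomial of a small generator -/
def Str (n : ℕ) (c : ℝ) (f g : ℤ[X]) (D : ℕ) : Prop :=
  0 < D ∧ SameField f g ∧ FDisc g D ∧ g.Monic ∧ g.natDegree = n ∧ Irreducible (toQ g) ∧ NonFull g ∧
  PrimF g ∧ |(g.coeff (n - 1) : ℝ)| ≤ n ∧
  (∀ j, 2 ≤ j → j ≤ n → |(g.coeff (n - j) : ℝ)| ≤ c * (D : ℝ) ^ ((j : ℝ) / (2 * ((n : ℝ) - 1)))) ∧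
  (∀ p, p.Prime → D.factorization p ≤ 21) ∧
  (∀ p, p.Prime → 7 < p → p ∣ D → 2 ≤ D.factorization p ∧ D.factorization p ≤ n - 1 ∧
    IX p (D.factorization p) f ∧ IX p (D.factorization p) g)

/-- number of prime factors -/
def om (N : ℕ) : ℕ := N.primeFactors.card

/-- `C` is squarefree, its prime factors exceed 7 and do not divide `b` -/
def Good (b : ℤ) (C : ℕ) : Prop := Squarefree C ∧ ∀ p, p.Prime → p ∣ C → 7 < p ∧ ¬ ((p : ℤ) ∣ b)

/-- Fourier transform of a weight on `(ZMod N)^m` -/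
noncomputable def FT {N m : ℕ} [NeZero N] (W : (Fin m → ZMod N) → ℝ) (k : Fin m → ZMod N) : ℂ :=
  ∑ a : Fin m → ZMod N, (W a : ℂ) * ZMod.stdAddChar (∑ i, k i * a i)

/-- reduction modulo `N` -/
def red (N : ℕ) {m : ℕ} (a : Fin m → ℤ) : Fin m → ZMod N := fun i => (a i : ZMod N)

/-- `12 e - 3 b d + c²` for `x⁴ + b x³ + c x² + d x + e` -/
def I4 (f : ℤ[X]) : ℤ := 12 * f.coeff 0 - 3 * f.coeff 3 * f.coeff 1 + f.coeff 2 ^ 2

/-- the invariant `J` of a monic quartic -/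
def J4 (f : ℤ[X]) : ℤ := 72 * f.coeff 2 * f.coeff 0 + 9 * f.coeff 3 * f.coeff 2 * f.coeff 1
  - 27 * f.coeff 1 ^ 2 - 27 * f.coeff 0 * f.coeff 3 ^ 2 - 2 * f.coeff 2 ^ 3

/-- the discriminant of the monic quartic is a square -/
def Sq4 (f : ℤ[X]) : Prop := ∃ y : ℤ, 4 * I4 f ^ 3 - J4 f ^ 2 = 27 * y ^ 2

/-- the discriminant of the monic cubic is a square -/
def Sq3 (f : ℤ[X]) : Prop := ∃ y : ℤ,
  4 * (f.coeff 2 ^ 2 - 3 * f.coeff 1) * (f.coeff 1 ^ 2 - 3 * f.coeff 2 * f.coeff 0)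
    - (f.coeff 2 * f.coeff 1 - 9 * f.coeff 0) ^ 2 = 3 * y ^ 2

/-- linear coefficient of the depressed quartic (times 64) -/
def Qdep (f : ℤ[X]) : ℤ := 64 * f.coeff 1 - 32 * f.coeff 3 * f.coeff 2 + 8 * f.coeff 3 ^ 3

/-- product weight modulo a squarefree number -/
noncomputable def Wprod {m : ℕ} (C : ℕ) (W : ∀ p : ℕ, (Fin m → ZMod p) → ℝ)
    (a : Fin m → ZMod C) : ℝ := ∏ p ∈ C.primeFactors, W p (fun i => ((a i).val : ZMod p))

/-- number of `u` with `pol b a = (X² + u X + w)²` (where `b = w²`) -/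
noncomputable def WA {p : ℕ} (w : ZMod p) (a : Fin 3 → ZMod p) : ℝ :=
  ({u : ZMod p | a 2 = 2 * u ∧ a 1 = u ^ 2 + 2 * w ∧ a 0 = 2 * u * w}.ncard : ℝ)

/-- number of units `r` with `(X - r)³ ∣ pol b a` -/
noncomputable def WB {p : ℕ} (b : ZMod p) (a : Fin 3 → ZMod p) : ℝ :=
  ({r : (ZMod p)ˣ | a 2 = -(3 * (r : ZMod p) + b * ((r⁻¹ : (ZMod p)ˣ) : ZMod p) ^ 3) ∧
    a 1 = 3 * (r : ZMod p) ^ 2 + 3 * b * ((r⁻¹ : (ZMod p)ˣ) : ZMod p) ^ 2 ∧
    a 0 = -((r : ZMod p) ^ 3 + 3 * b * ((r⁻¹ : (ZMod p)ˣ) : ZMod p))}.ncard : ℝ)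

/-- small quartic polynomials with group `A₄` -/
def RelG4 (c X : ℝ) (g : ℤ[X]) : Prop :=
  g.Monic ∧ g.natDegree = 4 ∧ |(g.coeff 3 : ℝ)| ≤ 4 ∧ |(g.coeff 2 : ℝ)| ≤ c * X ^ (1 / 3 : ℝ) ∧
  |(g.coeff 1 : ℝ)| ≤ c * X ^ (1 / 2 : ℝ) ∧ |(g.coeff 0 : ℝ)| ≤ c * X ^ (2 / 3 : ℝ) ∧
  Sq4 g ∧ Qdep g ≠ 0 ∧ ∃ C : ℕ, Squarefree C ∧ (∀ p, p.Prime → p ∣ C → 7 < p ∧ IX p 2 g) ∧
    X ≤ c * (C : ℝ) ^ 2 ∧ (C : ℝ) ^ 2 ≤ X

/-- small cubic polynomials with group `A₃` -/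
def RelG3 (c : ℝ) (Y : ℝ) (g : ℤ[X]) : Prop :=
  g.Monic ∧ g.natDegree = 3 ∧ |(g.coeff 2 : ℝ)| ≤ 3 ∧ Irreducible (toQ g) ∧ Sq3 g ∧
  ∃ C : ℕ, Squarefree C ∧ (∀ p, p.Prime → p ∣ C → 7 < p ∧ IX p 2 g) ∧ 1 ≤ C ∧ (C : ℝ) ≤ Y ∧
    |(g.coeff 1 : ℝ)| ≤ c * (C : ℝ) ∧ |(g.coeff 0 : ℝ)| ≤ c * (C : ℝ) ^ (3 / 2 : ℝ)

/-- sextics which are norms from a quadratic or a cubic field -/
def Nrm (b : ℤ) (H : ℕ) (a : Fin 5 → ℤ) : Prop :=
  ∃ (F : Type) (_ : Field F) (_ : NumberField F) (d r : ℕ) (γ : Fin r → 𝓞 F)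
    (M : InfinitePlace F → ℝ), finrank ℚ F = d ∧ d * r = 6 ∧ (d = 2 ∨ d = 3) ∧ (∀ w, 1 ≤ M w) ∧
    ∏ w : InfinitePlace F, M w ^ w.mult ≤ 20 * (H + |(b : ℝ)|) ∧
    (∀ (i : Fin r) (w : InfinitePlace F), w (γ i : F) ≤ 8 * M w) ∧
    (pol b a).map (Int.castRingHom ℂ) =
      ∏ σ : F →+* ℂ, (X ^ r + ∑ i : Fin r, C (σ (γ i : F)) * X ^ (i : ℕ))

/-- small polynomials with prescribed ramification, size parameter `X` -/
def RelG (n : ℕ) (c X : ℝ) (g : ℤ[X]) : Prop :=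
  g.Monic ∧ g.natDegree = n ∧ |(g.coeff (n - 1) : ℝ)| ≤ n ∧
  (∀ j, 2 ≤ j → j ≤ n → |(g.coeff (n - j) : ℝ)| ≤ c * X ^ ((j : ℝ) / (2 * ((n : ℝ) - 1)))) ∧
  ∃ (C : ℕ) (k : ℕ → ℕ), Squarefree C ∧
    (∀ p, p.Prime → p ∣ C → 7 < p ∧ 2 ≤ k p ∧ k p ≤ n - 1 ∧ IX p (k p) g) ∧
    X ≤ c * ∏ p ∈ C.primeFactors, (p : ℝ) ^ (k p) ∧ ∏ p ∈ C.primeFactors, (p : ℝ) ^ (k p) ≤ X

end Pool.Agent.H7.GF
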