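import Pool.Agent.H7.GF.PR

/-!
# MP_cd65c5_nt: module E3, large radical
-/

set_option autoImplicit false

namespace Pool.Agent.H7.GF

open Polynomial NumberField Module

lemma exists_sub_prod (S : Finset ℕ) (A B y : ℝ) (hA : A ≤ B) (hA0 : 0 ≤ A)
    (hy : ∀ p ∈ S, (p : ℝ) ≤ y) (hbig : B < A * ∏ p ∈ S, (p : ℝ)) :
    ∃ T ⊆ S, B < A * ∏ p ∈ T, (p : ℝ) ∧ A * ∏ p ∈ T, (p : ℝ) ≤ B * y := by
  classical
  induction S using Finset.induction_on with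
  | empty => simp at hbig; linarith
  | insert q S hq ih =>
    by_cases h : B < A * ∏ p ∈ S, (p : ℝ)
    · obtain ⟨T, hT, h1, h2⟩ := ih (fun p hp => hy p (Finset.mem_insert_of_mem hp)) h
      exact ⟨T, hT.trans (Finset.subset_insert _ _), h1, h2⟩
    · refine ⟨insert q S, subset_rfl, hbig, ?_⟩
      rw [Finset.prod_insert hq]
      have h1 := not_lt.1 h
      have h2 := hy q (Finset.mem_insert_self _ _)
      have h3 : (0 : ℝ) ≤ q := Nat.cast_nonneg _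
      have h4 : 0 ≤ A * ∏ p ∈ S, (p : ℝ) := mul_nonneg hA0 (Finset.prod_nonneg fun _ _ => Nat.cast_nonneg _)
      calc A * ((q : ℝ) * ∏ p ∈ S, (p : ℝ)) = (A * ∏ p ∈ S, (p : ℝ)) * q := by ring
        _ ≤ B * y := mul_le_mul h1 h2 h3 (h4.trans h1)

lemma split_radical (H : ℕ) (hH : 1 ≤ H) (C : ℕ) (hC : Squarefree C)
    (hbig : (H : ℝ) ^ (201 / 200 : ℝ) < C) :
    (∃ C₁ : ℕ, C₁ ∣ C ∧ H < C₁ ∧ ∀ p, p.Prime → p ∣ C₁ → (H : ℝ) ^ (1 / 400 : ℝ) < p) ∨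
    (∃ C₂ : ℕ, C₂ ∣ C ∧ (H : ℝ) ^ (401 / 400 : ℝ) < C₂ ∧ (C₂ : ℝ) ≤ (H : ℝ) ^ (201 / 200 : ℝ)) := by
  classical
  have hH1 : (1 : ℝ) ≤ H := by exact_mod_cast hH
  have hH0 : (0 : ℝ) < H := by linarith
  set y : ℝ := (H : ℝ) ^ (1 / 400 : ℝ) with hy
  set S₁ : Finset ℕ := C.primeFactors.filter (fun p => y < (p : ℝ)) with hS₁
  set S₂ : Finset ℕ := C.primeFactors.filter (fun p => ¬ y < (p : ℝ)) with hS₂
  have hprod : ∏ p ∈ C.primeFactors, p = C := Nat.prod_primeFactors_of_squarefree hC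
  have hsplit : (∏ p ∈ S₁, p) * ∏ p ∈ S₂, p = C := by
    rw [hS₁, hS₂, Finset.prod_filter_mul_prod_filter_not, hprod]
  by_cases h1 : H < ∏ p ∈ S₁, p
  · left
    refine ⟨∏ p ∈ S₁, p, ⟨_, hsplit.symm⟩, h1, ?_⟩
    intro p hp hpd
    have hSp : ∀ p ∈ S₁, p.Prime := fun p hp =>
      Nat.prime_of_mem_primeFactors (Finset.mem_filter.1 hp).1
    have h2 : p ∈ (∏ p ∈ S₁, p).primeFactors :=
      Nat.mem_primeFactors.2 ⟨hp, hpd, (squarefree_prod_primes S₁ hSp).ne_zero⟩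
    rw [Nat.primeFactors_prod hSp, hS₁, Finset.mem_filter] at h2
    exact h2.2
  · right
    have h1' : ((∏ p ∈ S₁, p : ℕ) : ℝ) ≤ H := by exact_mod_cast not_lt.1 h1
    have hB : ((∏ p ∈ S₁, p : ℕ) : ℝ) ≤ (H : ℝ) ^ (401 / 400 : ℝ) := by
      refine h1'.trans ?_
      conv_lhs => rw [← Real.rpow_one (H : ℝ)]
      exact Real.rpow_le_rpow_of_exponent_le hH1 (by norm_num)
    have hbig2 : (H : ℝ) ^ (401 / 400 : ℝ) < ((∏ p ∈ S₁, p : ℕ) : ℝ) * ∏ p ∈ S₂, (p : ℝ) := by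
      have h3 : ((∏ p ∈ S₁, p : ℕ) : ℝ) * ∏ p ∈ S₂, (p : ℝ) = C := by
        conv_rhs => rw [← hsplit]
        push_cast; ring
      rw [h3]
      refine lt_of_le_of_lt ?_ hbig
      exact Real.rpow_le_rpow_of_exponent_le hH1 (by norm_num)
    obtain ⟨T, hT, hT1, hT2⟩ := exists_sub_prod S₂ _ _ y hB (Nat.cast_nonneg _)
      (fun p hp => not_lt.1 (Finset.mem_filter.1 hp).2) hbig2
    refine ⟨(∏ p ∈ S₁, p) * ∏ p ∈ T, p, ?_, ?_, ?_⟩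
    · conv_rhs => rw [← hsplit]
      exact mul_dvd_mul_left _ (Finset.prod_dvd_prod_of_subset _ _ _ hT)
    · push_cast at hT1 ⊢; exact hT1
    · push_cast at hT2 ⊢
      refine hT2.trans ?_
      rw [hy, ← Real.rpow_add hH0]
      norm_num

theorem e3 (hA : T_E3A) (hB : T_E3B) : T_E3 := by
  intro m hm4 hm6 b hb
  obtain ⟨K1, hK1⟩ := hA m (by omega) hm6 b hb
  obtain ⟨K2, hK2⟩ := hB m hm4 hm6 b hb
  refine ⟨K1 + K2, ?_⟩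
  intro H hH
  have hcov : ∀ a ∈ box m H, (∃ C : ℕ, Good b C ∧ (H : ℝ) ^ (201 / 200 : ℝ) < C ∧
      ∀ p, p.Prime → p ∣ C → IX p 2 (pol b a)) →
      (∃ C : ℕ, Good b C ∧ H < C ∧ ∀ p, p.Prime → p ∣ C →
        (H : ℝ) ^ (1 / 400 : ℝ) < p ∧ IX p 2 (pol b a)) ∨
      (∃ C : ℕ, Good b C ∧ (H : ℝ) ^ (401 / 400 : ℝ) < C ∧
        (C : ℝ) ≤ (H : ℝ) ^ (201 / 200 : ℝ) ∧ ∀ p, p.Prime → p ∣ C → IX p 2 (pol b a)) := by
    rintro a - ⟨C, hg, hC, hIX⟩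
    rcases split_radical H hH C hg.1 hC with ⟨C₁, h1, h2, h3⟩ | ⟨C₂, h1, h2, h3⟩
    · exact Or.inl ⟨C₁, hg.dvd h1, h2, fun p hp hpC => ⟨h3 p hp hpC, hIX p hp (hpC.trans h1)⟩⟩
    · exact Or.inr ⟨C₂, hg.dvd h1, h2, h3, fun p hp hpC => hIX p hp (hpC.trans h1)⟩
  refine (cnt_mono hcov).trans ((cnt_or_le _ _).trans ?_)
  have := add_le_add (hK1 H hH) (hK2 H hH)
  calc _ ≤ _ := this
    _ = _ := by ring

end Pool.Agent.H7.GF
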