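import Pool.Agent.H7.GF.PR

/-!
# MP_cd65c5_nt: module EI, large discriminant and small radical
-/

set_option autoImplicit false

namespace Pool.Agent.H7.GF

open Polynomial NumberField Module

lemma cls_szb (hSZB : T_SZB) (hCLS : T_CLS) (m : ℕ) (hm1 : 1 ≤ m) (hm6 : m ≤ 6) :
    ∃ K : ℕ, 1 ≤ K ∧ ∀ (b : ℤ) (C H : ℕ) (k : ℕ → ℕ), Good b C →
    cnt m H (fun a => ∀ p, p.Prime → p ∣ C → IX p (k p) (pol b a)) ≤
      (2 * (H : ℝ) + 1 + C) ^ m * (K : ℝ) ^ (om C) / ∏ p ∈ C.primeFactors, (p : ℝ) ^ (k p) := by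
  classical
  obtain ⟨K, hK⟩ := hSZB m hm1
  refine ⟨K + 1, by omega, ?_⟩
  intro b C H k hg
  have hC0 : C ≠ 0 := hg.1.ne_zero
  have hC0R : (0 : ℝ) < C := by exact_mod_cast Nat.pos_of_ne_zero hC0
  have hcls := hCLS m (fun _ => H) C (fun p => {a | IXp (k p) (pol (b : ZMod p) a)}) hg.1
  have hset : {a : Fin m → ℤ | a ∈ box m H ∧ ∀ p, p.Prime → p ∣ C → IX p (k p) (pol b a)} =
      {a : Fin m → ℤ | (∀ i : Fin m, |a i| ≤ (((fun _ => H) i : ℕ) : ℤ)) ∧ ∀ p, p.Prime → p ∣ C →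
    red p a ∈ {a | IXp (k p) (pol (b : ZMod p) a)}} := by
    ext a
    simp only [Set.mem_ofPred_eq, mem_box, IX, toZ_pol]
  rw [cnt, hset]
  refine hcls.trans ?_
  have hZ : ∏ p ∈ C.primeFactors, (({a : Fin m → ZMod p | IXp (k p) (pol (b : ZMod p) a)}.ncard : ℕ) : ℝ) ≤
      ∏ p ∈ C.primeFactors, (((K + 1 : ℕ) : ℝ) * ((p : ℝ) ^ m / (p : ℝ) ^ (k p))) := by
    refine Finset.prod_le_prod (fun _ _ => Nat.cast_nonneg _) ?_
    intro p hp
    have hpp := Nat.prime_of_mem_primeFactors hp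
    have hpC := Nat.dvd_of_mem_primeFactors hp
    obtain ⟨h7, hpb⟩ := hg.2 p hpp hpC
    have : Fact p.Prime := ⟨hpp⟩
    have hb0 : (b : ZMod p) ≠ 0 := by
      rw [Ne, ZMod.intCast_zmod_eq_zero_iff_dvd]; exact hpb
    have h1 := hK p (by omega) (b : ZMod p) hb0 (k p)
    have hp0 : (0 : ℝ) < p := by exact_mod_cast hpp.pos
    have h2 : (({a : Fin m → ZMod p | IXp (k p) (pol (b : ZMod p) a)}.ncard : ℕ) : ℝ) *
        (p : ℝ) ^ (k p) ≤ K * (p : ℝ) ^ m := by exact_mod_cast h1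
    rw [← mul_div_assoc, le_div_iff₀ (by positivity)]
    refine h2.trans ?_
    refine mul_le_mul_of_nonneg_right ?_ (by positivity)
    push_cast; linarith
  have h3 : ∏ p ∈ C.primeFactors, (((K + 1 : ℕ) : ℝ) * ((p : ℝ) ^ m / (p : ℝ) ^ (k p))) =
      ((K + 1 : ℕ) : ℝ) ^ (om C) * ((C : ℝ) ^ m / ∏ p ∈ C.primeFactors, (p : ℝ) ^ (k p)) := by
    rw [Finset.prod_mul_distrib, Finset.prod_const, Finset.prod_div_distrib, Finset.prod_pow]
    have h4 : ∏ p ∈ C.primeFactors, (p : ℝ) = C := by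
      rw [← Nat.cast_prod, Nat.prod_primeFactors_of_squarefree hg.1]
    rw [h4]; rfl
  rw [h3] at hZ
  have h5 : ∏ i : Fin m, ((2 * (((fun _ => H) i : ℕ) : ℝ) + 1) / C + 1) =
      ((2 * (H : ℝ) + 1) / C + 1) ^ m := by
    rw [Finset.prod_const, Finset.card_univ, Fintype.card_fin]
  rw [h5]
  refine (mul_le_mul_of_nonneg_left hZ (by positivity)).trans (le_of_eq ?_)
  have h6 : (2 * (H : ℝ) + 1 + C) = ((2 * (H : ℝ) + 1) / C + 1) * C := by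
    field_simp
  rw [h6, mul_pow]
  ring

lemma cnt_false_le {m H : ℕ} (P : (Fin m → ℤ) → Prop) (h : ∀ a, ¬ P a) : cnt m H P = 0 := by
  rw [cnt]
  have : {a | a ∈ box m H ∧ P a} = ∅ := by
    ext a
    simp only [Set.mem_ofPred_eq, Set.mem_empty_iff_false, iff_false, not_and]
    intro _
    exact h a
  rw [this]
  simp

/-- exponents -/
lemma exists_exponents (m C : ℕ) : ∃ s : Finset (ℕ → ℕ), (s.card : ℝ) ≤ (m : ℝ) ^ (om C) ∧
    ∀ k : ℕ → ℕ, (∀ p ∈ C.primeFactors, 2 ≤ k p ∧ k p ≤ m) →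
      ∃ k' ∈ s, ∀ p ∈ C.primeFactors, k' p = k p := by
  classical
  refine ⟨(Finset.pi C.primeFactors (fun _ => Finset.Icc 2 m)).image
      (fun k p => if h : p ∈ C.primeFactors then k p h else 0), ?_, ?_⟩
  · have h1 : ((Finset.pi C.primeFactors (fun _ => Finset.Icc 2 m)).image
      (fun k p => if h : p ∈ C.primeFactors then k p h else 0)).card ≤
        (Finset.pi C.primeFactors (fun _ => Finset.Icc 2 m)).card :=
      Finset.card_image_le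
    rw [Finset.card_pi, Finset.prod_const, Nat.card_Icc] at h1
    have h2 : (m + 1 - 2) ^ (C.primeFactors.card) ≤ m ^ (om C) :=
      Nat.pow_le_pow_left (by omega) _
    exact_mod_cast h1.trans h2
  · intro k hk
    refine ⟨fun p => if h : p ∈ C.primeFactors then k p else 0, ?_, ?_⟩
    · refine Finset.mem_image.2 ⟨fun p _ => k p, ?_, rfl⟩
      rw [Finset.mem_pi]
      intro p hp
      exact Finset.mem_Icc.2 (hk p hp)
    · intro p hp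
      simp only [dif_pos hp]

lemma ei_aux (m : ℕ) (hm4 : 4 ≤ m) (hm6 : m ≤ 6) (H : ℝ) (hH1 : 1 ≤ H) (KO c₀ : ℝ) (hc₀ : 0 < c₀) :
    H ^ (201 / 200 : ℝ) * ((4 * H ^ (201 / 200 : ℝ)) ^ m * (|KO| * H ^ (1 / 100 : ℝ)) /
      (c₀ * H ^ (207 / 100 : ℝ))) ≤ 4 ^ m * |KO| / c₀ * H ^ (m - 1) := by
  have hH0 : (0 : ℝ) < H := by linarith
  have hYm : H ^ (201 / 200 : ℝ) * (H ^ (201 / 200 : ℝ)) ^ m = H ^ (201 / 200 * ((m : ℝ) + 1)) := by
    rw [← Real.rpow_natCast (H ^ (201 / 200 : ℝ)) m, ← Real.rpow_mul hH0.le,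
      ← Real.rpow_add hH0]
    congr 1; ring
  have hexp : 201 / 200 * ((m : ℝ) + 1) + 1 / 100 - 207 / 100 ≤ ((m - 1 : ℕ) : ℝ) := by
    have h : m = 4 ∨ m = 5 ∨ m = 6 := by omega
    rcases h with rfl | rfl | rfl <;> norm_num
  calc _ = 4 ^ m * |KO| / c₀ * ((H ^ (201 / 200 : ℝ) * (H ^ (201 / 200 : ℝ)) ^ m) *
        H ^ (1 / 100 : ℝ) / H ^ (207 / 100 : ℝ)) := by
        rw [mul_pow]; field_simp
    _ = 4 ^ m * |KO| / c₀ * H ^ (201 / 200 * ((m : ℝ) + 1) + 1 / 100 - 207 / 100) := by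
        rw [hYm, ← Real.rpow_add hH0, ← Real.rpow_sub hH0]
    _ ≤ 4 ^ m * |KO| / c₀ * H ^ (m - 1) := by
        rw [← Real.rpow_natCast H (m - 1)]
        gcongr

theorem ei (hSZB : T_SZB) (hCLS : T_CLS) (hOMG : T_OMG) : T_EI := by
  intro m hm4 hm6 b hb c₀ hc₀
  obtain ⟨K, hK1, hK⟩ := cls_szb hSZB hCLS m (by omega) hm6
  obtain ⟨KO, hKO⟩ := hOMG ((K : ℝ) * m) (by
    have h1 : (1 : ℝ) ≤ K := by exact_mod_cast hK1
    have h2 : (1 : ℝ) ≤ m := by exact_mod_cast (by omega : 1 ≤ m)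
    nlinarith) (2 / 201) (by norm_num)
  refine ⟨4 ^ m * |KO| / c₀, ?_⟩
  intro H hH
  have hH1 : (1 : ℝ) ≤ H := by exact_mod_cast hH
  have hH0 : (0 : ℝ) < H := by linarith
  set Y : ℝ := (H : ℝ) ^ (201 / 200 : ℝ) with hY
  have hY1 : 1 ≤ Y := Real.one_le_rpow hH1 (by norm_num)
  have hHY : (H : ℝ) ≤ Y := by
    conv_lhs => rw [← Real.rpow_one (H : ℝ)]
    exact Real.rpow_le_rpow_of_exponent_le hH1 (by norm_num)
  have hQ0 : 0 < c₀ * (H : ℝ) ^ (207 / 100 : ℝ) := by positivity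
  have hfin := ei_aux m hm4 hm6 H hH1 KO c₀ hc₀
  rw [← hY] at hfin
  generalize hQdef : c₀ * (H : ℝ) ^ (207 / 100 : ℝ) = Q at hQ0 hfin ⊢
  choose Ks hKs1 hKs2 using exists_exponents m
  -- the covering
  let P : ℕ → (ℕ → ℕ) → (Fin m → ℤ) → Prop := fun C k a => Good b C ∧
    Q ≤ ∏ p ∈ C.primeFactors, (p : ℝ) ^ (k p) ∧ ∀ p, p.Prime → p ∣ C → IX p (k p) (pol b a)
  have hcov : ∀ a ∈ box m H, (∃ (C : ℕ) (k : ℕ → ℕ), Good b C ∧
      (C : ℝ) ≤ Y ∧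
      (∀ p, p.Prime → p ∣ C → 2 ≤ k p ∧ k p ≤ m ∧ IX p (k p) (pol b a)) ∧
      Q ≤ ∏ p ∈ C.primeFactors, (p : ℝ) ^ (k p)) →
      ∃ C ∈ Finset.Icc 1 ⌊Y⌋₊, ∃ k ∈ Ks C, P C k a := by
    rintro a - ⟨C, k, hg, hCY, hk, hQk⟩
    obtain ⟨k', hk', hkk⟩ := hKs2 C k (fun p hp => by
      have := hk p (Nat.prime_of_mem_primeFactors hp) (Nat.dvd_of_mem_primeFactors hp)
      exact ⟨this.1, this.2.1⟩)
    refine ⟨C, Finset.mem_Icc.2 ⟨Nat.one_le_iff_ne_zero.2 hg.1.ne_zero, Nat.le_floor hCY⟩, k', hk',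
      hg, ?_, ?_⟩
    · refine hQk.trans (le_of_eq ?_)
      refine Finset.prod_congr rfl ?_
      intro p hp
      rw [hkk p hp]
    · intro p hp hpC
      have h1 : p ∈ C.primeFactors := Nat.mem_primeFactors.2 ⟨hp, hpC, hg.1.ne_zero⟩
      rw [hkk p h1]
      exact (hk p hp hpC).2.2
  refine (cnt_mono hcov).trans ?_
  refine (cnt_exists_le (Finset.Icc 1 ⌊Y⌋₊) (fun C a => ∃ k ∈ Ks C, P C k a)).trans ?_
  have hterm : ∀ C ∈ Finset.Icc 1 ⌊Y⌋₊, cnt m H (fun a => ∃ k ∈ Ks C, P C k a) ≤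
      (4 * Y) ^ m * (|KO| * (H : ℝ) ^ (1 / 100 : ℝ)) / Q := by
    intro C hC
    obtain ⟨hC1, hCY⟩ := Finset.mem_Icc.1 hC
    have hCY' : (C : ℝ) ≤ Y := (Nat.cast_le.2 hCY).trans (Nat.floor_le (by linarith))
    refine (cnt_exists_le _ (fun k a => P C k a)).trans ?_
    have h1 : ∀ k ∈ Ks C, cnt m H (fun a => P C k a) ≤ (4 * Y) ^ m * (K : ℝ) ^ (om C) / Q := by
      intro k hk
      by_cases hg : Good b C ∧ Q ≤ ∏ p ∈ C.primeFactors, (p : ℝ) ^ (k p)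
      · refine (cnt_mono (fun a _ h => h.2.2)).trans ((hK b C H k hg.1).trans ?_)
        have h2 : 2 * (H : ℝ) + 1 + C ≤ 4 * Y := by linarith
        have h3 := hg.2
        gcongr
      · rw [cnt_false_le _ (fun a h => hg ⟨h.1, h.2.1⟩)]
        positivity
    refine (Finset.sum_le_card_nsmul _ _ _ h1).trans ?_
    rw [nsmul_eq_mul]
    have h4 : ((K : ℝ) * m) ^ (om C) ≤ |KO| * (H : ℝ) ^ (1 / 100 : ℝ) := by
      refine (hKO C hC1).trans ?_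
      have h5 : (C : ℝ) ^ (2 / 201 : ℝ) ≤ (H : ℝ) ^ (1 / 100 : ℝ) := by
        have h6 : (C : ℝ) ^ (2 / 201 : ℝ) ≤ Y ^ (2 / 201 : ℝ) :=
          Real.rpow_le_rpow (by positivity) hCY' (by norm_num)
        refine h6.trans (le_of_eq ?_)
        rw [hY, ← Real.rpow_mul hH0.le]; norm_num
      exact mul_le_mul (le_abs_self _) h5 (by positivity) (abs_nonneg _)
    calc _ ≤ (m : ℝ) ^ (om C) * ((4 * Y) ^ m * (K : ℝ) ^ (om C) / Q) :=
          mul_le_mul_of_nonneg_right (hKs1 C) (by positivity)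
      _ = (4 * Y) ^ m * (((K : ℝ) * m) ^ (om C)) / Q := by rw [mul_pow]; ring
      _ ≤ _ := by gcongr
  refine (Finset.sum_le_card_nsmul _ _ _ hterm).trans ?_
  rw [nsmul_eq_mul, Nat.card_Icc, Nat.add_sub_cancel]
  exact (mul_le_mul_of_nonneg_right (Nat.floor_le (by linarith)) (by positivity)).trans hfin

end Pool.Agent.H7.GF
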