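import Pool.Agent.H7.GF.PR

/-!
# MP_cd65c5_nt: module GC, small fields of degree 5, 6, 7
-/

set_option autoImplicit false

namespace Pool.Agent.H7.GF

open Polynomial NumberField Module

lemma count_bdd (n : ℕ) (B : ℕ → ℝ) (hB : ∀ i, 0 ≤ B i) :
    {g : ℤ[X] | g.Monic ∧ g.natDegree = n ∧ ∀ i < n, |(g.coeff i : ℝ)| ≤ B i}.Finite ∧
    ({g : ℤ[X] | g.Monic ∧ g.natDegree = n ∧ ∀ i < n, |(g.coeff i : ℝ)| ≤ B i}.ncard : ℝ) ≤
      ∏ i ∈ Finset.range n, (2 * B i + 1) := by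
  classical
  set T : Finset (Fin n → ℤ) := Fintype.piFinset fun i : Fin n => Finset.Icc (-⌊B i⌋) ⌊B i⌋ with hT
  set A : Set ℤ[X] := {g : ℤ[X] | g.Monic ∧ g.natDegree = n ∧ ∀ i < n, |(g.coeff i : ℝ)| ≤ B i} with hA
  let φ : ℤ[X] → (Fin n → ℤ) := fun g i => g.coeff (i : ℕ)
  have hmaps : Set.MapsTo φ A (T : Set (Fin n → ℤ)) := by
    rintro g ⟨-, -, h3⟩
    rw [Finset.mem_coe, hT, Fintype.mem_piFinset]
    intro i
    have h4 := abs_le.1 (h3 i i.2)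
    rw [Finset.mem_Icc]
    constructor
    · have h5 : -(g.coeff (i : ℕ)) ≤ ⌊B i⌋ := by
        rw [Int.le_floor]; push_cast; linarith [h4.1]
      show -⌊B i⌋ ≤ g.coeff (i : ℕ)
      linarith
    · show g.coeff (i : ℕ) ≤ ⌊B i⌋
      rw [Int.le_floor]; exact h4.2
  have hinj : Set.InjOn φ A := by
    rintro g ⟨h1, h2, -⟩ g' ⟨h1', h2', -⟩ h
    ext i
    rcases lt_trichotomy i n with hi | hi | hi
    · exact congrFun h ⟨i, hi⟩
    · subst hi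
      have h3 : g.coeff g.natDegree = 1 := h1.coeff_natDegree
      have h4 : g'.coeff g'.natDegree = 1 := h1'.coeff_natDegree
      rw [h2] at h3
      rw [h2'] at h4
      rw [h3, h4]
    · rw [coeff_eq_zero_of_natDegree_lt (by omega), coeff_eq_zero_of_natDegree_lt (by omega)]
  have hfin : A.Finite := Set.Finite.of_injOn hmaps hinj T.finite_toSet
  refine ⟨hfin, ?_⟩
  have h1 : A.ncard ≤ (T : Set (Fin n → ℤ)).ncard := by
    rw [← Set.ncard_image_of_injOn hinj]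
    exact Set.ncard_le_ncard hmaps.image_subset T.finite_toSet
  rw [Set.ncard_coe_finset, hT, Fintype.card_piFinset] at h1
  have h2 : ∏ i ∈ Finset.range n, (2 * B i + 1) = ∏ i : Fin n, (2 * B (i : ℕ) + 1) :=
    (Fin.prod_univ_eq_prod_range (fun i => 2 * B i + 1) n).symm
  rw [h2]
  calc (A.ncard : ℝ) ≤ ((∏ i : Fin n, (Finset.Icc (-⌊B i⌋) ⌊B i⌋).card : ℕ) : ℝ) := by
        exact_mod_cast h1
    _ = ∏ i : Fin n, (((Finset.Icc (-⌊B i⌋) ⌊B i⌋).card : ℕ) : ℝ) := by push_cast; rfl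
    _ ≤ _ := by
        refine Finset.prod_le_prod (fun _ _ => Nat.cast_nonneg _) ?_
        intro i _
        rw [Int.card_Icc]
        have h3 : 0 ≤ ⌊B i⌋ := Int.floor_nonneg.2 (hB i)
        have h4 : (((⌊B i⌋ + 1 - -⌊B i⌋).toNat : ℕ) : ℝ) = 2 * (⌊B i⌋ : ℝ) + 1 := by
          have h5 : (((⌊B i⌋ + 1 - -⌊B i⌋).toNat : ℕ) : ℤ) = 2 * ⌊B i⌋ + 1 := by
            rw [Int.toNat_of_nonneg (by omega)]; ring
          exact_mod_cast h5
        rw [h4]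
        have := Int.floor_le (B i)
        linarith

/-- the coefficients in `RelG` -/
lemma relG_bdd (n : ℕ) (hn : 2 ≤ n) (c X : ℝ) (hc : 0 < c) (hX : 1 ≤ X) :
    {g : ℤ[X] | g.Monic ∧ g.natDegree = n ∧ |(g.coeff (n - 1) : ℝ)| ≤ n ∧
      (∀ j, 2 ≤ j → j ≤ n → |(g.coeff (n - j) : ℝ)| ≤ c * X ^ ((j : ℝ) / (2 * ((n : ℝ) - 1))))}.Finite ∧
    ({g : ℤ[X] | g.Monic ∧ g.natDegree = n ∧ |(g.coeff (n - 1) : ℝ)| ≤ n ∧
      (∀ j, 2 ≤ j → j ≤ n → |(g.coeff (n - j) : ℝ)| ≤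
        c * X ^ ((j : ℝ) / (2 * ((n : ℝ) - 1))))}.ncard : ℝ) ≤
      ∏ i ∈ Finset.range n, (2 * (if i + 1 = n then (n : ℝ) else
        c * X ^ (((n - i : ℕ) : ℝ) / (2 * ((n : ℝ) - 1)))) + 1) := by
  have h := count_bdd n (fun i => if i + 1 = n then (n : ℝ) else
        c * X ^ (((n - i : ℕ) : ℝ) / (2 * ((n : ℝ) - 1)))) (by
    intro i
    split_ifs
    · positivity
    · positivity)
  have hsub : {g : ℤ[X] | g.Monic ∧ g.natDegree = n ∧ |(g.coeff (n - 1) : ℝ)| ≤ n ∧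
      (∀ j, 2 ≤ j → j ≤ n → |(g.coeff (n - j) : ℝ)| ≤ c * X ^ ((j : ℝ) / (2 * ((n : ℝ) - 1))))} ⊆
      {g : ℤ[X] | g.Monic ∧ g.natDegree = n ∧ ∀ i < n, |(g.coeff i : ℝ)| ≤
        (fun i => if i + 1 = n then (n : ℝ) else
        c * X ^ (((n - i : ℕ) : ℝ) / (2 * ((n : ℝ) - 1)))) i} := by
    rintro g ⟨h1, h2, h3, h4⟩
    refine ⟨h1, h2, ?_⟩
    intro i hi
    show _ ≤ if i + 1 = n then (n : ℝ) else c * X ^ (((n - i : ℕ) : ℝ) / (2 * ((n : ℝ) - 1)))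
    split_ifs with h5
    · have : i = n - 1 := by omega
      rw [this]; exact h3
    · have h6 := h4 (n - i) (by omega) (by omega)
      have h7 : n - (n - i) = i := by omega
      rw [h7] at h6
      exact h6
  exact ⟨h.1.subset hsub, le_trans (by exact_mod_cast Set.ncard_le_ncard hsub h.1) h.2⟩

theorem gc (hG5A : T_G5A) (hG5B : T_G5B) (hG6A : T_G6A) (hG6B : T_G6B) : T_GC := by
  intro n hn5 hn7 c hc
  have hn : n = 5 ∨ n = 6 ∨ n = 7 := by omega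
  rcases hn with rfl | rfl | rfl
  · obtain ⟨K1, hK1⟩ := hG5A c hc
    obtain ⟨K2, hK2⟩ := hG5B c hc
    refine ⟨K1 + K2, ?_⟩
    intro X hX
    have hb := relG_bdd 5 (by norm_num) c X hc hX
    have he : (2 : ℝ) * (((5 : ℕ) : ℝ) - 1) = 8 := by norm_num
    have hbf := hb.1
    have hsub0 : {g : ℤ[X] | RelG 5 c X g} ⊆ {g : ℤ[X] | g.Monic ∧ g.natDegree = 5 ∧
        |(g.coeff (5 - 1) : ℝ)| ≤ (5 : ℕ) ∧ (∀ j, 2 ≤ j → j ≤ 5 → |(g.coeff (5 - j) : ℝ)| ≤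
        c * X ^ ((j : ℝ) / (2 * (((5 : ℕ) : ℝ) - 1))))} := by
      rintro g ⟨h1, h2, h3, h4, -⟩
      exact ⟨h1, h2, h3, h4⟩
    refine ⟨hbf.subset hsub0, ?_⟩
    have h1 := hK1 X hX
    have h2 := hK2 X hX
    set A : Set ℤ[X] := {g : ℤ[X] | g.Monic ∧ g.natDegree = 5 ∧ |(g.coeff 4 : ℝ)| ≤ 5 ∧
      (∀ j, 2 ≤ j → j ≤ 5 → |(g.coeff (5 - j) : ℝ)| ≤ c * X ^ ((j : ℝ) / 8)) ∧
      ∃ (C : ℕ) (k : ℕ → ℕ), Squarefree C ∧ (C : ℝ) ≤ X ^ (3 / 8 : ℝ) ∧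
      (∀ p, p.Prime → p ∣ C → 7 < p ∧ 2 ≤ k p ∧ k p ≤ 4 ∧ IX p (k p) g) ∧
      X ≤ c * ∏ p ∈ C.primeFactors, (p : ℝ) ^ (k p)} with hA
    set B : Set ℤ[X] := {g : ℤ[X] | g.Monic ∧ g.natDegree = 5 ∧ |(g.coeff 4 : ℝ)| ≤ 5 ∧
      (∀ j, 2 ≤ j → j ≤ 5 → |(g.coeff (5 - j) : ℝ)| ≤ c * X ^ ((j : ℝ) / 8)) ∧
      ∃ C : ℕ, Squarefree C ∧ X ^ (3 / 8 : ℝ) < (C : ℝ) ∧ (C : ℝ) ^ 2 ≤ X ∧
      (∀ p, p.Prime → p ∣ C → 7 < p ∧ IX p 2 g)} with hB
    have hAfin : A.Finite := hbf.subset (by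
      rintro g ⟨h3, h4, h5, h6, -⟩
      refine ⟨h3, h4, by simpa using h5, ?_⟩
      rw [he]; exact h6)
    have hBfin : B.Finite := hbf.subset (by
      rintro g ⟨h3, h4, h5, h6, -⟩
      refine ⟨h3, h4, by simpa using h5, ?_⟩
      rw [he]; exact h6)
    have hsub : {g : ℤ[X] | RelG 5 c X g} ⊆ A ∪ B := by
      rintro g ⟨h3, h4, h5, h6, C, k, h7, h8, h9, h10⟩
      rw [he] at h6
      by_cases hC : (C : ℝ) ≤ X ^ (3 / 8 : ℝ)
      · left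
        exact ⟨h3, h4, by simpa using h5, h6, C, k, h7, hC, h8, h9⟩
      · right
        refine ⟨h3, h4, by simpa using h5, h6, C, h7, not_le.1 hC, ?_, ?_⟩
        · refine le_trans ?_ h10
          have h11 : (C : ℝ) ^ 2 = ∏ p ∈ C.primeFactors, (p : ℝ) ^ 2 := by
            rw [Finset.prod_pow, ← Nat.cast_prod, Nat.prod_primeFactors_of_squarefree h7]
          rw [h11]
          refine Finset.prod_le_prod (fun _ _ => by positivity) ?_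
          intro p hp
          have hpp := Nat.prime_of_mem_primeFactors hp
          exact pow_le_pow_right₀ (by exact_mod_cast hpp.one_lt.le)
            (h8 p hpp (Nat.dvd_of_mem_primeFactors hp)).2.1
        · intro p hp hpC
          obtain ⟨h12, h13, -, h14⟩ := h8 p hp hpC
          exact ⟨h12, IX_mono h13 h14⟩
    have h3 : ({g : ℤ[X] | RelG 5 c X g}.ncard : ℝ) ≤ A.ncard + B.ncard := by
      have := (Set.ncard_le_ncard hsub (hAfin.union hBfin)).trans (Set.ncard_union_le A B)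
      exact_mod_cast this
    have h4 : expo 5 = 7 / 5 := by simp [expo]
    rw [h4, add_mul]
    linarith
  · obtain ⟨K1, hK1⟩ := hG6A c hc
    obtain ⟨K2, hK2⟩ := hG6B c hc
    refine ⟨K1 + K2, ?_⟩
    intro X hX
    have hb := relG_bdd 6 (by norm_num) c X hc hX
    have he : (2 : ℝ) * (((6 : ℕ) : ℝ) - 1) = 10 := by norm_num
    have hbf := hb.1
    have hsub0 : {g : ℤ[X] | RelG 6 c X g} ⊆ {g : ℤ[X] | g.Monic ∧ g.natDegree = 6 ∧
        |(g.coeff (6 - 1) : ℝ)| ≤ (6 : ℕ) ∧ (∀ j, 2 ≤ j → j ≤ 6 → |(g.coeff (6 - j) : ℝ)| ≤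
        c * X ^ ((j : ℝ) / (2 * (((6 : ℕ) : ℝ) - 1))))} := by
      rintro g ⟨h1, h2, h3, h4, -⟩
      exact ⟨h1, h2, h3, h4⟩
    refine ⟨hbf.subset hsub0, ?_⟩
    have h1 := hK1 X hX
    have h2 := hK2 X hX
    set A : Set ℤ[X] := {g : ℤ[X] | g.Monic ∧ g.natDegree = 6 ∧ |(g.coeff 5 : ℝ)| ≤ 6 ∧
      (∀ j, 2 ≤ j → j ≤ 6 → |(g.coeff (6 - j) : ℝ)| ≤ c * X ^ ((j : ℝ) / 10)) ∧
      ∃ (C : ℕ) (k : ℕ → ℕ), Squarefree C ∧ (C : ℝ) ≤ X ^ (1 / 5 : ℝ) ∧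
      (∀ p, p.Prime → p ∣ C → 7 < p ∧ 2 ≤ k p ∧ k p ≤ 5 ∧ IX p (k p) g) ∧
      X ≤ c * ∏ p ∈ C.primeFactors, (p : ℝ) ^ (k p)} with hA
    set B : Set ℤ[X] := {g : ℤ[X] | g.Monic ∧ g.natDegree = 6 ∧ |(g.coeff 5 : ℝ)| ≤ 6 ∧
      (∀ j, 2 ≤ j → j ≤ 6 → |(g.coeff (6 - j) : ℝ)| ≤ c * X ^ ((j : ℝ) / 10)) ∧
      ∃ C : ℕ, Squarefree C ∧ X ^ (1 / 5 : ℝ) < (C : ℝ) ∧ (C : ℝ) ^ 2 ≤ X ∧
      (∀ p, p.Prime → p ∣ C → 7 < p ∧ IX p 2 g)} with hB
    have hAfin : A.Finite := hbf.subset (by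
      rintro g ⟨h3, h4, h5, h6, -⟩
      refine ⟨h3, h4, by simpa using h5, ?_⟩
      rw [he]; exact h6)
    have hBfin : B.Finite := hbf.subset (by
      rintro g ⟨h3, h4, h5, h6, -⟩
      refine ⟨h3, h4, by simpa using h5, ?_⟩
      rw [he]; exact h6)
    have hsub : {g : ℤ[X] | RelG 6 c X g} ⊆ A ∪ B := by
      rintro g ⟨h3, h4, h5, h6, C, k, h7, h8, h9, h10⟩
      rw [he] at h6
      by_cases hC : (C : ℝ) ≤ X ^ (1 / 5 : ℝ)
      · left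
        exact ⟨h3, h4, by simpa using h5, h6, C, k, h7, hC, h8, h9⟩
      · right
        refine ⟨h3, h4, by simpa using h5, h6, C, h7, not_le.1 hC, ?_, ?_⟩
        · refine le_trans ?_ h10
          have h11 : (C : ℝ) ^ 2 = ∏ p ∈ C.primeFactors, (p : ℝ) ^ 2 := by
            rw [Finset.prod_pow, ← Nat.cast_prod, Nat.prod_primeFactors_of_squarefree h7]
          rw [h11]
          refine Finset.prod_le_prod (fun _ _ => by positivity) ?_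
          intro p hp
          have hpp := Nat.prime_of_mem_primeFactors hp
          exact pow_le_pow_right₀ (by exact_mod_cast hpp.one_lt.le)
            (h8 p hpp (Nat.dvd_of_mem_primeFactors hp)).2.1
        · intro p hp hpC
          obtain ⟨h12, h13, -, h14⟩ := h8 p hp hpC
          exact ⟨h12, IX_mono h13 h14⟩
    have h3 : ({g : ℤ[X] | RelG 6 c X g}.ncard : ℝ) ≤ A.ncard + B.ncard := by
      have := (Set.ncard_le_ncard hsub (hAfin.union hBfin)).trans (Set.ncard_union_le A B)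
      exact_mod_cast this
    have h4 : expo 6 = 19 / 10 := by norm_num [expo]
    rw [h4, add_mul]
    linarith
  · refine ⟨15 * (2 * c + 1) ^ 6, ?_⟩
    intro X hX
    have hX0 : 0 < X := by linarith
    have hb := relG_bdd 7 (by norm_num) c X hc hX
    have hsub0 : {g : ℤ[X] | RelG 7 c X g} ⊆ {g : ℤ[X] | g.Monic ∧ g.natDegree = 7 ∧
        |(g.coeff (7 - 1) : ℝ)| ≤ (7 : ℕ) ∧ (∀ j, 2 ≤ j → j ≤ 7 → |(g.coeff (7 - j) : ℝ)| ≤
        c * X ^ ((j : ℝ) / (2 * (((7 : ℕ) : ℝ) - 1))))} := by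
      rintro g ⟨h1, h2, h3, h4, -⟩
      exact ⟨h1, h2, h3, h4⟩
    refine ⟨hb.1.subset hsub0, ?_⟩
    have h1 : ({g : ℤ[X] | RelG 7 c X g}.ncard : ℝ) ≤ _ :=
      le_trans (by exact_mod_cast Set.ncard_le_ncard hsub0 hb.1) hb.2
    refine h1.trans ?_
    have h2 : ∀ t : ℝ, 0 ≤ t → 2 * (c * X ^ t) + 1 ≤ (2 * c + 1) * X ^ t := by
      intro t ht
      have : 1 ≤ X ^ t := Real.one_le_rpow hX ht
      nlinarith
    have h3 : expo 7 = 9 / 4 := by norm_num [expo]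
    rw [h3]
    have h4 : ∏ i ∈ Finset.range 7, (2 * (if i + 1 = 7 then ((7 : ℕ) : ℝ) else
        c * X ^ (((7 - i : ℕ) : ℝ) / (2 * (((7 : ℕ) : ℝ) - 1)))) + 1) ≤
        ∏ i ∈ Finset.range 7, (if i = 6 then 15 else (2 * c + 1) * X ^ ((7 - (i : ℝ)) / 12)) := by
      refine Finset.prod_le_prod ?_ ?_
      · intro i _
        split_ifs <;> positivity
      · intro i hi
        have hi7 := Finset.mem_range.1 hi
        by_cases h5 : i = 6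
        · subst h5; norm_num
        · rw [if_neg (by omega), if_neg h5]
          have h6 : (((7 - i : ℕ) : ℝ) / (2 * (((7 : ℕ) : ℝ) - 1))) = (7 - (i : ℝ)) / 12 := by
            rw [Nat.cast_sub (by omega)]; push_cast; norm_num
          rw [h6]
          refine h2 _ ?_
          have : (i : ℝ) ≤ 7 := by exact_mod_cast (by omega : i ≤ 7)
          apply div_nonneg <;> linarith
    refine h4.trans (le_of_eq ?_)
    simp only [Finset.prod_range_succ, Finset.prod_range_zero]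
    norm_num
    have h7 : X ^ (9 / 4 : ℝ) = X ^ (7 / 12 : ℝ) * X ^ (1 / 2 : ℝ) * X ^ (5 / 12 : ℝ) *
        X ^ (1 / 3 : ℝ) * X ^ (1 / 4 : ℝ) * X ^ (1 / 6 : ℝ) := by
      rw [← Real.rpow_add hX0, ← Real.rpow_add hX0, ← Real.rpow_add hX0, ← Real.rpow_add hX0,
        ← Real.rpow_add hX0]
      norm_num
    rw [h7]
    ring

end Pool.Agent.H7.GF
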