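import Pool.Agent.H7.GF.Basic
import Pool.Agent.H7.GF.Targets1
import Pool.Agent.H7.GF.Targets3

/-!
# MP_cd65c5_nt, module MAIN: assembly of the main theorem
-/

set_option autoImplicit false

namespace Pool.Agent.H7.GF

open Polynomial NumberField Module

lemma E_eq_cnt (m : ℕ) (b : ℤ) (H : ℝ) (hH : 0 ≤ H) :
    E (m + 1) b H = cnt m ⌊H⌋₊ (fun a => ¬ Full (pol b a)) := by
  have h1 : {f : ℤ[X] | f.Monic ∧ f.natDegree = m + 1 ∧ f.coeff 0 = b ∧
      (∀ i, 1 ≤ i → i < m + 1 → |(f.coeff i : ℝ)| ≤ H) ∧ ¬ Full f} =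
      pol b '' {a : Fin m → ℤ | a ∈ box m ⌊H⌋₊ ∧ ¬ Full (pol b a)} := by
    ext f
    constructor
    · rintro ⟨h1, h2, h3, h4, h5⟩
      have h6 := eq_pol f h1 h2
      rw [h3] at h6
      refine ⟨fun i : Fin m => f.coeff ((i : ℕ) + 1), ⟨?_, ?_⟩, h6.symm⟩
      · rw [mem_box]
        intro i
        have h7 := h4 ((i : ℕ) + 1) (by omega) (by have := i.2; omega)
        have h8 : ((|f.coeff ((i : ℕ) + 1)| : ℤ) : ℝ) ≤ H := by
          rw [Int.cast_abs]; exact h7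
        have h9 : |f.coeff ((i : ℕ) + 1)| ≤ ⌊H⌋ := Int.le_floor.2 h8
        rwa [Int.natCast_floor_eq_floor hH]
      · rw [← h6]; exact h5
    · rintro ⟨a, ⟨h1, h2⟩, rfl⟩
      refine ⟨pol_monic b a, pol_natDegree b a, pol_coeff_zero b a, ?_, h2⟩
      intro i hi1 hi2
      obtain ⟨j, rfl⟩ : ∃ j, i = j + 1 := ⟨i - 1, by omega⟩
      have h3 := pol_coeff_succ b a ⟨j, by omega⟩
      rw [show ((⟨j, by omega⟩ : Fin m) : ℕ) = j from rfl] at h3
      rw [h3]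
      have h4 := mem_box.1 h1 ⟨j, by omega⟩
      rw [Int.natCast_floor_eq_floor hH] at h4
      have h5 := Int.le_floor.1 h4
      rwa [Int.cast_abs] at h5
  rw [E, h1, Set.ncard_image_of_injective _ (pol_injective b), cnt]

theorem main (hRED : T_RED) (hLOW : T_LOW) (hDICH : T_DICH) (hPDEG : T_PDEG) (hI4A : T_I4A)
    (hI4C : T_I4C) (hI6A : T_I6A) (hI6C : T_I6C) (hPR2 : T_PR2) (hPR3 : T_PR3) (hPR : T_PR) :
    T_MAIN := by
  -- upper bound on integers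
  have hup : ∀ m : ℕ, 2 ≤ m → m ≤ 6 → ∀ b : ℤ, b ≠ 0 → ∃ K : ℝ, ∀ H : ℕ, 1 ≤ H →
      cnt m H (fun a => ¬ Full (pol b a)) ≤ K * (H : ℝ) ^ (m - 1) := by
    intro m hm2 hm6 b hb
    -- primitive
    have hprim : ∃ K : ℝ, ∀ H : ℕ, 1 ≤ H →
        cnt m H (fun a => PrimF (pol b a) ∧ NonFull (pol b a)) ≤ K * (H : ℝ) ^ (m - 1) := by
      rcases (by omega : m = 2 ∨ m = 3 ∨ 4 ≤ m) with rfl | rfl | h4
      · obtain ⟨K, hK⟩ := hPR2 b hb
        exact ⟨K, fun H hH => by simpa using hK H hH⟩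
      · obtain ⟨K, hK⟩ := hPR3 b hb
        exact ⟨K, fun H hH => by simpa using hK H hH⟩
      · exact hPR m h4 hm6 b hb
    -- imprimitive
    have himpr : ∃ K : ℝ, ∀ H : ℕ, 1 ≤ H →
        cnt m H (fun a => Irreducible (toQ (pol b a)) ∧ ImprF (pol b a)) ≤ K * (H : ℝ) ^ (m - 1) := by
      have hprime : (m + 1).Prime → ∃ K : ℝ, ∀ H : ℕ, 1 ≤ H →
        cnt m H (fun a => Irreducible (toQ (pol b a)) ∧ ImprF (pol b a)) ≤ K * (H : ℝ) ^ (m - 1) := by
        intro hp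
        refine ⟨0, fun H _ => ?_⟩
        rw [zero_mul]
        have h1 : cnt m H (fun a => Irreducible (toQ (pol b a)) ∧ ImprF (pol b a)) ≤
            cnt m H (fun _ => False) := by
          refine cnt_mono ?_
          rintro a - ⟨_, h⟩
          exact hPDEG (pol b a) (by rw [pol_natDegree]; exact hp) h
        refine h1.trans ?_
        simp [cnt]
      rcases (by omega : m = 2 ∨ m = 3 ∨ m = 4 ∨ m = 5 ∨ m = 6) with rfl | rfl | rfl | rfl | rfl
      · exact hprime (by norm_num)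
      · obtain ⟨K, hK⟩ := hI4C b hb
        refine ⟨K, fun H hH => le_trans (cnt_mono ?_) (by simpa using hK H hH)⟩
        rintro a ha ⟨_, h⟩
        exact hI4A b H a hb ha h
      · exact hprime (by norm_num)
      · obtain ⟨K, hK⟩ := hI6C b hb
        refine ⟨K, fun H hH => le_trans (cnt_mono ?_) (by simpa using hK H hH)⟩
        rintro a ha ⟨h0, h⟩
        exact ⟨h0, hI6A b H a hb hH ha h⟩
      · exact hprime (by norm_num)
    obtain ⟨K1, hK1⟩ := hRED m hm2 b hb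
    obtain ⟨K2, hK2⟩ := hprim
    obtain ⟨K3, hK3⟩ := himpr
    refine ⟨K1 + (K2 + K3), fun H hH => ?_⟩
    have h1 : cnt m H (fun a => ¬ Full (pol b a)) ≤
        cnt m H (fun a => ¬ Irreducible (toQ (pol b a)) ∨
          ((PrimF (pol b a) ∧ NonFull (pol b a)) ∨ (Irreducible (toQ (pol b a)) ∧ ImprF (pol b a)))) := by
      refine cnt_mono ?_
      intro a _ ha
      by_cases hirr : Irreducible (toQ (pol b a))
      · right
        have hnf : NonFull (pol b a) := fun h => ha ⟨hirr, h⟩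
        rcases hDICH (pol b a) (pol_monic b a) hirr with h | h
        · exact Or.inl ⟨h, hnf⟩
        · exact Or.inr ⟨hirr, h⟩
      · exact Or.inl hirr
    calc cnt m H (fun a => ¬ Full (pol b a)) ≤ _ := h1
      _ ≤ _ := cnt_or_le _ _
      _ ≤ K1 * (H : ℝ) ^ (m - 1) + (K2 * (H : ℝ) ^ (m - 1) + K3 * (H : ℝ) ^ (m - 1)) :=
          add_le_add (hK1 H hH) ((cnt_or_le _ _).trans (add_le_add (hK2 H hH) (hK3 H hH)))
      _ = _ := by ring
  intro n hn3 hn7 b hb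
  obtain ⟨m, rfl⟩ : ∃ m, n = m + 1 := ⟨n - 1, by omega⟩
  obtain ⟨K, hK⟩ := hup m (by omega) (by omega) b hb
  obtain ⟨c, hc, H₀, hlow⟩ := hLOW m (by omega) b hb
  refine ⟨c * (1 / 2) ^ (m - 1), |K|, max (H₀ + 1) 1, by positivity, ?_⟩
  intro H hH
  have hH1 : (1 : ℝ) ≤ H := le_trans (le_max_right _ _) hH
  have hH0 : (H₀ : ℝ) + 1 ≤ H := le_trans (le_max_left _ _) hH
  have hfl : (⌊H⌋₊ : ℝ) ≤ H := Nat.floor_le (by linarith)
  have hfl2 : H < (⌊H⌋₊ : ℝ) + 1 := Nat.lt_floor_add_one H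
  have hfl1 : 1 ≤ ⌊H⌋₊ := Nat.le_floor (by simpa using hH1)
  have hfl1' : (1 : ℝ) ≤ (⌊H⌋₊ : ℝ) := by exact_mod_cast hfl1
  have hflH0 : H₀ ≤ ⌊H⌋₊ := Nat.le_floor (by linarith)
  rw [E_eq_cnt m b H (by linarith), show m + 1 - 2 = m - 1 by omega]
  constructor
  · have h1 : c * (⌊H⌋₊ : ℝ) ^ (m - 1) ≤ cnt m ⌊H⌋₊ (fun a => ¬ Full (pol b a)) := by
      refine (hlow ⌊H⌋₊ hflH0).trans (cnt_mono ?_)
      intro a _ ha hfull
      -- root 1: reducible
      have h2 : (toQ (pol b a)).IsRoot 1 := by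
        rw [IsRoot.def, toQ, eval_map, ← Int.cast_one, eval₂_at_intCast]
        simp [ha]
      have h3 := hfull.1.natDegree_pos
      have h4 : (toQ (pol b a)).natDegree = m + 1 := by rw [toQ_pol, pol_natDegree]
      have h5 := degree_eq_one_of_irreducible_of_root hfull.1 h2
      have h6 : (toQ (pol b a)).natDegree = 1 := natDegree_eq_of_degree_eq_some h5
      omega
    refine le_trans ?_ h1
    rw [mul_assoc, ← mul_pow]
    have h7 : 1 / 2 * H ≤ (⌊H⌋₊ : ℝ) := by linarith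
    gcongr
  · refine (hK ⌊H⌋₊ hfl1).trans ?_
    calc K * (⌊H⌋₊ : ℝ) ^ (m - 1) ≤ |K| * (⌊H⌋₊ : ℝ) ^ (m - 1) := by
          gcongr; exact le_abs_self K
      _ ≤ |K| * H ^ (m - 1) := by gcongr

end Pool.Agent.H7.GF
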