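import Pool.Agent.H7.GF.PR3

/-!
# MP_cd65c5_nt: module PR2, primitive bad cubics
-/

set_option autoImplicit false

namespace Pool.Agent.H7.GF

open Polynomial NumberField Module

lemma PrimF.irreducible {f : ℤ[X]} (h : PrimF f) : Irreducible (toQ f) := by
  obtain ⟨K, _, _, θ, hθ, -, -⟩ := h
  have h1 : IsIntegral ℤ θ := NumberField.RingOfIntegers.isIntegral θ
  have h2 := minpoly.isIntegrallyClosed_eq_field_fractions ℚ K h1
  have h3 : toQ f = minpoly ℚ (algebraMap (𝓞 K) K θ) := by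
    rw [h2, toQ, hθ]; rfl
  rw [h3]
  refine minpoly.irreducible ?_
  exact (Algebra.IsIntegral.isIntegral (R := ℚ) (algebraMap (𝓞 K) K θ))

theorem pr2 (hSTR : T_STR) (hN3A : T_N3A) (hGC3 : T_GC3) (hFIB : T_FIB) (hFIB3 : T_FIB3)
    (hSQ3 : T_SQ3) : T_PR2 := by
  classical
  intro b hb
  obtain ⟨c, hc, hS⟩ := hSTR 3 (by omega) (by omega)
  obtain ⟨κ, K1, hκ, hK1⟩ := hN3A b hb
  set c' : ℝ := c * (210 : ℝ) ^ 21 with hc'
  have hc'0 : 0 < c' := by positivity
  obtain ⟨KG, hKG⟩ := hGC3 c' hc'0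
  obtain ⟨K3, hK3⟩ := hFIB3 b hb
  obtain ⟨KF, hKF⟩ := hFIB 2 (by norm_num) b hb
  refine ⟨|K1| + |KG| * κ * |K3| + |KG| * (|K3| + 1) * (|KF| * 64) + 9, ?_⟩
  intro H hH
  have hH1 : (1 : ℝ) ≤ H := by exact_mod_cast hH
  have hH0 : (0 : ℝ) < H := by linarith
  rcases Nat.lt_or_ge H 2 with hH2 | hH2
  · have hH' : H = 1 := by omega
    subst hH'
    refine (cnt_le_card 2 1 _).trans ?_
    have : 0 ≤ |K1| + |KG| * κ * |K3| + |KG| * (|K3| + 1) * (|KF| * 64) := by positivity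
    norm_num
    linarith
  · set Y1 : ℝ := κ * H with hY1d
    have hY1 : 1 ≤ Y1 := by nlinarith
    set Y2 : ℝ := (|K3| + 1) * (H : ℝ) ^ (1 / 4 : ℝ) with hY2d
    have hH4 : 1 ≤ (H : ℝ) ^ (1 / 4 : ℝ) := Real.one_le_rpow hH1 (by norm_num)
    have hY2 : 1 ≤ Y2 := by
      have : 1 ≤ |K3| + 1 := by linarith [abs_nonneg K3]
      nlinarith
    have hcov : ∀ a ∈ box 2 H, (PrimF (pol b a) ∧ NonFull (pol b a)) →
        (Irreducible (toQ (pol b a)) ∧ Sq3 (pol b a) ∧
          ∃ C : ℕ, Squarefree C ∧ κ * H < C ∧ ∀ p, p.Prime → p ∣ C → 7 < p ∧ IX p 2 (pol b a)) ∨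
        (∃ g ∈ (hKG Y1 hY1).1.toFinset, ∃ D : ℕ, FDisc g D ∧ K3 * (H : ℝ) ^ (1 / 2 : ℝ) ≤ D ∧
          SameField (pol b a) g) ∨
        (∃ g ∈ (hKG Y2 hY2).1.toFinset, SameField (pol b a) g) := by
      rintro a - ⟨hprim, hnf⟩
      obtain ⟨g, D, hstr⟩ := hS (pol b a) (pol_monic b a) (pol_natDegree b a) hprim hnf
      obtain ⟨hD0, hSF, hFD, hgm, hgd, hgi, hgn, hgp, hg1, hgj, h21, hram⟩ := hstr
      have hirr := hprim.irreducible
      have hsqf := hSQ3 (pol b a) (pol_monic b a) (pol_natDegree b a) hirr hnf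
      have hsqg := hSQ3 g hgm hgd hgi hgn
      obtain ⟨G, hGsq, hGsub, hGP, hGP', hGn, hGprod⟩ := rad_data D (fun p => 7 < p)
      have hG0 : G ≠ 0 := hGsq.ne_zero
      have hG1R : (1 : ℝ) ≤ G := by exact_mod_cast Nat.one_le_iff_ne_zero.2 hG0
      have hG0R : (0 : ℝ) < G := by linarith
      have hD0R : (0 : ℝ) < D := by exact_mod_cast hD0
      have hG2 : ∏ p ∈ G.primeFactors, p ^ D.factorization p = G ^ 2 := by
        conv_rhs => rw [hGprod, ← Finset.prod_pow]
        refine Finset.prod_congr rfl ?_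
        intro p hp
        have h := hram p (Nat.prime_of_mem_primeFactors hp) (hGP p hp)
            (Nat.dvd_of_mem_primeFactors (hGsub hp))
        have h' : D.factorization p = 2 := by
          have := h.1; have := h.2.1; omega
        rw [h']
      have hup : (D : ℝ) ≤ 210 ^ 21 * (G : ℝ) ^ 2 := by
        have h1 := fact_bound D 210 hD0.ne' (by norm_num) h21 G.primeFactors hGsub (by
          intro p hp hpS
          have hpp := Nat.prime_of_mem_primeFactors hp
          exact prime_dvd_210 p hpp (not_lt.1 (hGn p hp hpS)))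
        rw [hG2] at h1
        exact_mod_cast h1
      have hlow : (G : ℝ) ^ 2 ≤ D := by
        have h1 := fact_prod_le D hD0.ne' G.primeFactors hGsub
        rw [hG2] at h1
        exact_mod_cast h1
      have hrel : ∀ Y : ℝ, (G : ℝ) ≤ Y → RelG3 c' Y g := by
        intro Y hGY
        have hbd : ∀ j : ℕ, 2 ≤ j → j ≤ 3 →
            |(g.coeff (3 - j) : ℝ)| ≤ c' * (G : ℝ) ^ ((j : ℝ) / 2) := by
          intro j hj2 hj3
          refine (hgj j hj2 hj3).trans ?_
          have h0 : (2 : ℝ) * (((3 : ℕ) : ℝ) - 1) = 4 := by norm_num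
          rw [h0]
          have hj3R : (j : ℝ) / 4 ≤ 1 := by
            have : (j : ℝ) ≤ 3 := by exact_mod_cast hj3
            linarith
          have h2 : (D : ℝ) ^ ((j : ℝ) / 4) ≤ (210 ^ 21 * (G : ℝ) ^ 2) ^ ((j : ℝ) / 4) :=
            Real.rpow_le_rpow hD0R.le hup (by positivity)
          rw [Real.mul_rpow (by positivity) (by positivity)] at h2
          have h3 : ((210 : ℝ) ^ 21) ^ ((j : ℝ) / 4) ≤ (210 : ℝ) ^ 21 := by
            conv_rhs => rw [← Real.rpow_one ((210 : ℝ) ^ 21)]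
            exact Real.rpow_le_rpow_of_exponent_le (one_le_pow₀ (by norm_num)) hj3R
          have h4 : ((G : ℝ) ^ 2) ^ ((j : ℝ) / 4) = (G : ℝ) ^ ((j : ℝ) / 2) := by
            rw [← Real.rpow_natCast, ← Real.rpow_mul hG0R.le]
            congr 1; push_cast; ring
          rw [h4] at h2
          calc c * (D : ℝ) ^ ((j : ℝ) / 4) ≤ c * (((210 : ℝ) ^ 21) ^ ((j : ℝ) / 4) *
                (G : ℝ) ^ ((j : ℝ) / 2)) := mul_le_mul_of_nonneg_left h2 hc.le
            _ ≤ c * ((210 : ℝ) ^ 21 * (G : ℝ) ^ ((j : ℝ) / 2)) := by gcongr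
            _ = c' * (G : ℝ) ^ ((j : ℝ) / 2) := by rw [hc']; ring
        refine ⟨hgm, hgd, by simpa using hg1, hgi, hsqg, G, hGsq, ?_, ?_, hGY, ?_, ?_⟩
        · intro p hp hpG
          obtain ⟨h1, h2⟩ := hGP' p hp hpG
          obtain ⟨h3, h4, h5, h6⟩ := hram p hp h2 h1
          exact ⟨h2, IX_mono h3 h6⟩
        · exact Nat.one_le_iff_ne_zero.2 hG0
        · have := hbd 2 (by norm_num) (by norm_num)
          norm_num at this ⊢
          exact this
        · have := hbd 3 (by norm_num) (by norm_num)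
          norm_num at this ⊢
          exact this
      by_cases hC : κ * H < (G : ℝ)
      · left
        refine ⟨hirr, hsqf, G, hGsq, hC, ?_⟩
        intro p hp hpG
        obtain ⟨h1, h2⟩ := hGP' p hp hpG
        obtain ⟨h3, h4, h5, h6⟩ := hram p hp h2 h1
        exact ⟨h2, IX_mono h3 h5⟩
      · right
        rcases le_or_gt (K3 * (H : ℝ) ^ (1 / 2 : ℝ)) (D : ℝ) with hD | hD
        · left
          refine ⟨g, ?_, D, hFD, hD, hSF⟩
          rw [Set.Finite.mem_toFinset]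
          exact hrel Y1 (not_lt.1 hC)
        · right
          refine ⟨g, ?_, hSF⟩
          rw [Set.Finite.mem_toFinset]
          refine hrel Y2 ?_
          have h1 : (G : ℝ) ^ 2 ≤ Y2 ^ 2 := by
            have h2 : Y2 ^ 2 = (|K3| + 1) ^ 2 * (H : ℝ) ^ (1 / 2 : ℝ) := by
              rw [hY2d, mul_pow]
              congr 1
              rw [← Real.rpow_natCast, ← Real.rpow_mul hH0.le]; norm_num
            rw [h2]
            refine (hlow.trans hD.le).trans ?_
            refine mul_le_mul_of_nonneg_right ?_ (by positivity)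
            have := le_abs_self K3
            have := abs_nonneg K3
            nlinarith
          exact le_of_sq_le_sq h1 (by linarith) |> id
    refine (cnt_mono hcov).trans ?_
    refine (cnt_or_le _ _).trans ?_
    have h1 := hK1 H hH
    have hcard : ∀ (Y : ℝ) (hY : 1 ≤ Y), (((hKG Y hY).1.toFinset.card : ℕ) : ℝ) ≤ |KG| * Y := by
      intro Y hY
      have h2 := (hKG Y hY).2
      rw [Set.ncard_eq_toFinset_card _ (hKG Y hY).1] at h2
      exact h2.trans (mul_le_mul_of_nonneg_right (le_abs_self _) (by linarith))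
    have h2 : cnt 2 H (fun a => ∃ g ∈ (hKG Y1 hY1).1.toFinset, ∃ D : ℕ, FDisc g D ∧
        K3 * (H : ℝ) ^ (1 / 2 : ℝ) ≤ D ∧ SameField (pol b a) g) ≤ |KG| * Y1 * |K3| := by
      refine (cnt_exists_le _ (fun g a => ∃ D : ℕ, FDisc g D ∧
        K3 * (H : ℝ) ^ (1 / 2 : ℝ) ≤ D ∧ SameField (pol b a) g)).trans ?_
      have h3 : ∀ g ∈ (hKG Y1 hY1).1.toFinset, cnt 2 H (fun a => ∃ D : ℕ, FDisc g D ∧
          K3 * (H : ℝ) ^ (1 / 2 : ℝ) ≤ D ∧ SameField (pol b a) g) ≤ |K3| := by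
        intro g _
        by_cases hex : ∃ D : ℕ, FDisc g D ∧ K3 * (H : ℝ) ^ (1 / 2 : ℝ) ≤ D
        · obtain ⟨D, hD1, hD2⟩ := hex
          refine (cnt_mono ?_).trans ((hK3 H hH2 g D hD1 hD2).trans (le_abs_self _))
          rintro a - ⟨D', -, -, h⟩
          exact h
        · have h4 : {a | a ∈ box 2 H ∧ ∃ D : ℕ, FDisc g D ∧ K3 * (H : ℝ) ^ (1 / 2 : ℝ) ≤ D ∧
              SameField (pol b a) g} = ∅ := by
            ext a
            simp only [Set.mem_ofPred_eq, Set.mem_empty_iff_false, iff_false, not_and]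
            rintro - ⟨D, h5, h6, -⟩
            exact hex ⟨D, h5, h6⟩
          rw [cnt, h4]
          simp
      refine (Finset.sum_le_card_nsmul _ _ _ h3).trans ?_
      rw [nsmul_eq_mul]
      exact mul_le_mul_of_nonneg_right (hcard Y1 hY1) (abs_nonneg _)
    have h3 : cnt 2 H (fun a => ∃ g ∈ (hKG Y2 hY2).1.toFinset, SameField (pol b a) g) ≤
        |KG| * (|K3| + 1) * (|KF| * 64) * H := by
      refine (cnt_exists_le _ (fun g a => SameField (pol b a) g)).trans ?_
      have hlog0 : 0 ≤ Real.log H := Real.log_nonneg hH1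
      have h4 : ∀ g ∈ (hKG Y2 hY2).1.toFinset,
          cnt 2 H (fun a => SameField (pol b a) g) ≤ |KF| * Real.log H ^ 2 := by
        intro g _
        refine (hKF H hH2 g).trans ?_
        exact mul_le_mul_of_nonneg_right (le_abs_self _) (by positivity)
      refine (Finset.sum_le_card_nsmul _ _ _ h4).trans ?_
      rw [nsmul_eq_mul]
      have h5 : Real.log H ≤ 8 * (H : ℝ) ^ (1 / 8 : ℝ) := by
        have := Real.log_le_rpow_div hH0.le (show (0 : ℝ) < 1 / 8 by norm_num)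
        linarith
      have h6 : Real.log H ^ 2 ≤ 64 * (H : ℝ) ^ (1 / 4 : ℝ) := by
        calc Real.log H ^ 2 ≤ (8 * (H : ℝ) ^ (1 / 8 : ℝ)) ^ 2 := pow_le_pow_left₀ hlog0 h5 2
          _ = 64 * ((H : ℝ) ^ (1 / 8 : ℝ)) ^ 2 := by ring
          _ = 64 * (H : ℝ) ^ (1 / 4 : ℝ) := by
              rw [← Real.rpow_natCast, ← Real.rpow_mul hH0.le]; norm_num
      have h7 : (H : ℝ) ^ (1 / 4 : ℝ) * (H : ℝ) ^ (1 / 4 : ℝ) ≤ H := by
        rw [← Real.rpow_add hH0]
        conv_rhs => rw [← Real.rpow_one (H : ℝ)]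
        exact Real.rpow_le_rpow_of_exponent_le hH1 (by norm_num)
      calc (((hKG Y2 hY2).1.toFinset.card : ℕ) : ℝ) * (|KF| * Real.log H ^ 2)
          ≤ (|KG| * Y2) * (|KF| * (64 * (H : ℝ) ^ (1 / 4 : ℝ))) := by
            have := hcard Y2 hY2
            gcongr
        _ = |KG| * (|K3| + 1) * (|KF| * 64) * ((H : ℝ) ^ (1 / 4 : ℝ) * (H : ℝ) ^ (1 / 4 : ℝ)) := by
            rw [hY2d]; ring
        _ ≤ |KG| * (|K3| + 1) * (|KF| * 64) * H := by gcongr
    have h4 : K1 * (H : ℝ) ≤ |K1| * (H : ℝ) := by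
      gcongr; exact le_abs_self _
    have h5 := (cnt_or_le (m := 2) (H := H) (fun a => ∃ g ∈ (hKG Y1 hY1).1.toFinset, ∃ D : ℕ, FDisc g D ∧
        K3 * (H : ℝ) ^ (1 / 2 : ℝ) ≤ D ∧ SameField (pol b a) g)
        (fun a => ∃ g ∈ (hKG Y2 hY2).1.toFinset, SameField (pol b a) g)).trans (add_le_add h2 h3)
    calc _ ≤ K1 * (H : ℝ) + (|KG| * Y1 * |K3| + |KG| * (|K3| + 1) * (|KF| * 64) * H) :=
          add_le_add h1 h5
      _ ≤ _ := by
          rw [hY1d]
          nlinarith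

end Pool.Agent.H7.GF
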