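import Pool.Agent.H14.GF.E34
import Pool.Agent.H14.GF.G5A
import Pool.Agent.H27.GF.ALT
import Pool.Agent.H27.GF.QDEP
import Pool.Agent.H27.GF.SQ
import Pool.Agent.H36.GF.ELL
import Pool.Agent.H36.GF.FW
import Pool.Agent.H36.GF.MORD
import Pool.Agent.H54.GF.G5B
import Pool.Agent.H54.GF.E3A
import Pool.Agent.H56.GF.AN3
import Pool.Agent.H56.GF.GC3
import Pool.Agent.H56.GF.N3S
import Pool.Agent.H57.GF.G6B
import Pool.Agent.H57.GF.SWAP
import Pool.Agent.H57.GF.VP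
import Pool.Agent.H58.GF.CLS
import Pool.Agent.H58.GF.SZ
import Pool.Agent.H59.GF.N3Q
import Pool.Agent.H59.GF.N3A
import Pool.Agent.H65.GF.D0N
import Pool.Agent.H65.GF.DDS
import Pool.Agent.H66.GF.GC4
import Pool.Agent.H67.GF.I6C
import Pool.Agent.H67.GF.RHO
import Pool.Agent.H67.GF.RHO1
import Pool.Agent.H69.GF.I4C
import Pool.Agent.H69.GF.PELL
import Pool.Agent.H69.GF.PRIMG
import Pool.Agent.H69.GF.RTS
import Pool.Agent.H7.GF.E3
import Pool.Agent.H7.GF.EI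
import Pool.Agent.H7.GF.GC
import Pool.Agent.H7.GF.MAIN
import Pool.Agent.H7.GF.PR2
import Pool.Agent.H73.GF.Crt
import Pool.Agent.H73.GF.Gauss
import Pool.Agent.H73.GF.E3b
import Pool.Agent.H73.GF.Nc
import Pool.Agent.H73.GF.Nc4
import Pool.Agent.H73.GF.Wt
import Pool.Agent.H74.GF.MCNT
import Pool.Agent.H74.GF.SIEVE
import Pool.Agent.H78.GF.CONJ
import Pool.Agent.H78.GF.MAJ
import Pool.Agent.H78.GF.MAJ4
import Pool.Agent.H78.GF.ROOTS
import Pool.Agent.H78.GF.STR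
import Pool.Agent.H83.GF.DICH
import Pool.Agent.H83.GF.Small
import Pool.Agent.H85.GF.GAP3
import Pool.Agent.H85.GF.NORMB
import Pool.Agent.H85.GF.ROOTB
import Pool.Agent.H92.GF.CS3
import Pool.Agent.H92.GF.MINK
import Pool.Agent.H92.GF.N3T
import Pool.Agent.H92.GF.N4
import Pool.Agent.H95.GF.FIB
import Pool.Agent.H95.GF.I6A
import Pool.Agent.H95.GF.RED
import Pool.Agent.H97.GF.I4A
import Pool.Agent.H97.GF.I4B
import Pool.Agent.H97.GF.SFUL

/-!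
# MP_cd65c5_nt: assembly
-/

set_option autoImplicit false

namespace Pool.Agent.H7.GF

theorem str_done : T_STR :=
  H78.GF.str H92.GF.MINK.main H78.GF.conj (H78.GF.an1 H57.GF.vp H78.GF.roots H78.GF.conv)
    (H56.GF.an3 H57.GF.swap H69.GF.primg) H57.GF.vp H97.GF.sful

theorem fib_done : T_FIB := H95.GF.fib H85.GF.normb H85.GF.rootb

theorem fib3_done : T_FIB3 := H95.GF.fib3 H85.GF.gap3 H85.GF.rootb H85.GF.normb

theorem ell_done : T_ELL := H36.GF.ell_thm H92.GF.CS3.main H74.GF.sieve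

theorem final : T_MAIN := by
  have hRTS : T_RTS := H69.GF.rts H58.GF.cls
  have hE3A : T_E3A := e3a H65.GF.dds hRTS
  have hMORD : T_MORD := H36.GF.mord H74.GF.mcnt
  have hNC4 : T_NC4 := H73.GF.nc4 (H78.GF.maj4 H78.GF.maj) (H73.GF.n4f hMORD) H92.GF.N4.main_R
    H92.GF.N4.main_E hRTS
  have hE3B : T_E3B := H73.GF.e3b (H73.GF.nc (H36.GF.fw4 H78.GF.maj H73.GF.gauss)
    (H36.GF.fw5 H78.GF.maj) (H36.GF.fw6 H78.GF.maj)) H83.GF.omg
  have hG5A : T_G5A := H14.GF.g5a H58.GF.szt H58.GF.cls H83.GF.omg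
  have hG6A : T_G6A := H14.GF.g6a H58.GF.szt H58.GF.cls H83.GF.omg
  have hG5B : T_G5B := g5b H65.GF.dd0' hRTS H83.GF.omg
  have hG6B : T_G6B := H57.GF.g6b H65.GF.dd0' hRTS H83.GF.omg
  have hN3A : T_N3A := H59.GF.N3A.n3a H67.GF.rho_main H56.GF.n3s (H92.GF.N3T.main H83.GF.omg)
  have hGC4 : T_GC4 := H66.GF.GC4.gc4 ell_done H83.GF.omg
  have hPR : T_PR := pr str_done (ei H58.GF.szb H58.GF.cls H83.GF.omg) (e3 hE3A hE3B)
    (gc hG5A hG5B hG6A hG6B) fib_done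
  have hPR3 : T_PR3 := pr3 str_done H27.GF.exp4 H27.GF.sq4 H27.GF.qdep
    (H14.GF.e34 hNC4 hE3A H83.GF.omg) hGC4 fib_done
  have hPR2 : T_PR2 := pr2 str_done hN3A H56.GF.gc3 fib_done fib3_done
    (H27.GF.sq3 H83.GF.dich H83.GF.pdeg)
  exact main H95.GF.red H83.GF.low H83.GF.dich H83.GF.pdeg H97.GF.i4a
    (H69.GF.i4c H69.GF.pell H97.GF.i4b) H95.GF.i6a (H67.GF.i6c H85.GF.pack) hPR2 hPR3 hPR

end Pool.Agent.H7.GF
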