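import Pool.Agent.H7.GF.Basic
import Pool.Agent.H7.GF.Targets1
import Pool.Agent.H7.GF.Targets2
import Pool.Agent.H7.GF.Targets3

/-!
# MP_cd65c5_nt: module PR, primitive bad polynomials of degree 5, 6, 7
-/

set_option autoImplicit false

namespace Pool.Agent.H7.GF

open Polynomial NumberField Module

lemma fact_bound (D N : ℕ) (hD : D ≠ 0) (hN : N ≠ 0)
    (h21 : ∀ p, p.Prime → D.factorization p ≤ 21) (S : Finset ℕ) (hS : S ⊆ D.primeFactors)
    (hrest : ∀ p ∈ D.primeFactors, p ∉ S → p ∣ N) :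
    D ≤ N ^ 21 * ∏ p ∈ S, p ^ D.factorization p := by
  classical
  have h1 : ∏ p ∈ D.primeFactors, p ^ D.factorization p = D := Nat.prod_factorization_pow_eq_self hD
  have h2 : ∏ p ∈ D.primeFactors, p ^ D.factorization p =
      (∏ p ∈ D.primeFactors \ S, p ^ D.factorization p) * ∏ p ∈ S, p ^ D.factorization p :=
    (Finset.prod_sdiff hS).symm
  have h3 : ∏ p ∈ D.primeFactors \ S, p ^ D.factorization p ≤ N ^ 21 := by
    calc ∏ p ∈ D.primeFactors \ S, p ^ D.factorization p ≤ ∏ p ∈ D.primeFactors \ S, p ^ 21 := by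
          refine Finset.prod_le_prod' ?_
          intro p hp
          have hpp := Nat.prime_of_mem_primeFactors (Finset.mem_sdiff.1 hp).1
          exact Nat.pow_le_pow_right hpp.pos (h21 p hpp)
      _ = (∏ p ∈ D.primeFactors \ S, p) ^ 21 := Finset.prod_pow _ _ _
      _ ≤ N ^ 21 := by
          refine Nat.pow_le_pow_left (Nat.le_of_dvd (Nat.pos_of_ne_zero hN) ?_) 21
          refine Finset.prod_primes_dvd N ?_ ?_
          · intro p hp
            exact (Nat.prime_of_mem_primeFactors (Finset.mem_sdiff.1 hp).1).prime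
          · intro p hp
            exact hrest p (Finset.mem_sdiff.1 hp).1 (Finset.mem_sdiff.1 hp).2
  calc D = (∏ p ∈ D.primeFactors \ S, p ^ D.factorization p) * ∏ p ∈ S, p ^ D.factorization p := by
        rw [← h2, h1]
    _ ≤ _ := Nat.mul_le_mul_right _ h3

lemma fact_prod_le (D : ℕ) (hD : D ≠ 0) (S : Finset ℕ) (hS : S ⊆ D.primeFactors) :
    ∏ p ∈ S, p ^ D.factorization p ≤ D := by
  classical
  have h1 : ∏ p ∈ D.primeFactors, p ^ D.factorization p = D := Nat.prod_factorization_pow_eq_self hD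
  have h2 : ∏ p ∈ D.primeFactors, p ^ D.factorization p =
      (∏ p ∈ D.primeFactors \ S, p ^ D.factorization p) * ∏ p ∈ S, p ^ D.factorization p :=
    (Finset.prod_sdiff hS).symm
  refine Nat.le_of_dvd (Nat.pos_of_ne_zero hD) ⟨∏ p ∈ D.primeFactors \ S, p ^ D.factorization p, ?_⟩
  rw [mul_comm, ← h2, h1]

lemma squarefree_prod_primes (S : Finset ℕ) (hS : ∀ p ∈ S, p.Prime) : Squarefree (∏ p ∈ S, p) := by
  classical
  induction S using Finset.induction_on with
  | empty => simp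
  | insert p S hp ih =>
    rw [Finset.prod_insert hp]
    have h1 : Nat.Coprime p (∏ q ∈ S, q) := by
      refine Nat.Coprime.prod_right ?_
      intro q hq
      refine (Nat.coprime_primes (hS p (Finset.mem_insert_self _ _))
        (hS q (Finset.mem_insert_of_mem hq))).2 ?_
      rintro rfl
      exact hp hq
    rw [Nat.squarefree_mul h1]
    exact ⟨(hS p (Finset.mem_insert_self _ _)).prime.squarefree,
      ih fun q hq => hS q (Finset.mem_insert_of_mem hq)⟩

lemma prime_dvd_210 (p : ℕ) (hp : p.Prime) (h : p ≤ 7) : p ∣ 210 := by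
  have h2 := hp.two_le
  interval_cases p
  · norm_num
  · norm_num
  · exact absurd hp (by norm_num)
  · norm_num
  · exact absurd hp (by norm_num)
  · norm_num

lemma numeric (m : ℕ) (hm4 : 4 ≤ m) (hm6 : m ≤ 6) (H I : ℕ) (hH : 2 ≤ H)
    (hI : (2 : ℝ) ^ I ≤ 2 * (H : ℝ) ^ (207 / 100 : ℝ)) :
    ((I : ℝ) + 1) * (2 * (H : ℝ) ^ (207 / 100 : ℝ)) ^ (expo (m + 1)) * (Real.log H) ^ m ≤
      (602 * 200 ^ m * 2 ^ (expo (m + 1))) * (H : ℝ) ^ (m - 1) := by
  have hH1 : (1 : ℝ) ≤ H := by exact_mod_cast (by omega : 1 ≤ H)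
  have hH0 : (0 : ℝ) < H := by linarith
  have hlog0 : 0 ≤ Real.log H := Real.log_nonneg hH1
  set y : ℝ := (H : ℝ) ^ (1 / 200 : ℝ) with hy
  have hy1 : 1 ≤ y := Real.one_le_rpow hH1 (by norm_num)
  have hlog : Real.log H ≤ 200 * y := by
    have := Real.log_le_rpow_div hH0.le (show (0 : ℝ) < 1 / 200 by norm_num)
    rw [hy]; linarith
  have hl2 : (0.6931471803 : ℝ) < Real.log 2 := Real.log_two_gt_d9
  have hI1 : (I : ℝ) + 1 ≤ 602 * y := by
    have h1 : (I : ℝ) * Real.log 2 ≤ Real.log 2 + 207 / 100 * Real.log H := by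
      have h2 := Real.log_le_log (by positivity) hI
      rw [Real.log_pow, Real.log_mul (by norm_num) (by positivity), Real.log_rpow hH0] at h2
      exact h2
    have h3 : (I : ℝ) ≤ 1 + 3 * Real.log H := by
      have h4 : (I : ℝ) * Real.log 2 ≤ (1 + 3 * Real.log H) * Real.log 2 := by
        nlinarith
      exact le_of_mul_le_mul_right h4 (by linarith)
    linarith
  have hlogm : Real.log H ^ m ≤ 200 ^ m * y ^ m := by
    rw [← mul_pow]
    exact pow_le_pow_left₀ hlog0 hlog m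
  have hyp : y * y ^ m = (H : ℝ) ^ (((m : ℝ) + 1) / 200) := by
    rw [hy, ← Real.rpow_natCast ((H : ℝ) ^ (1 / 200 : ℝ)) m, ← Real.rpow_mul hH0.le,
      ← Real.rpow_add hH0]
    congr 1; ring
  have he : (2 * (H : ℝ) ^ (207 / 100 : ℝ)) ^ (expo (m + 1)) =
      2 ^ (expo (m + 1)) * (H : ℝ) ^ (207 / 100 * expo (m + 1)) := by
    rw [Real.mul_rpow (by norm_num) (by positivity), ← Real.rpow_mul hH0.le]
  have hexp : ((m : ℝ) + 1) / 200 + 207 / 100 * expo (m + 1) ≤ ((m - 1 : ℕ) : ℝ) := by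
    have h : m = 4 ∨ m = 5 ∨ m = 6 := by omega
    rcases h with rfl | rfl | rfl <;> norm_num [expo]
  rw [he]
  calc ((I : ℝ) + 1) * (2 ^ (expo (m + 1)) * (H : ℝ) ^ (207 / 100 * expo (m + 1))) * Real.log H ^ m
      ≤ (602 * y) * (2 ^ (expo (m + 1)) * (H : ℝ) ^ (207 / 100 * expo (m + 1))) *
        (200 ^ m * y ^ m) := by gcongr
    _ = (602 * 200 ^ m * 2 ^ (expo (m + 1))) *
        ((y * y ^ m) * (H : ℝ) ^ (207 / 100 * expo (m + 1))) := by ring
    _ = (602 * 200 ^ m * 2 ^ (expo (m + 1))) *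
        ((H : ℝ) ^ (((m : ℝ) + 1) / 200 + 207 / 100 * expo (m + 1))) := by
        rw [hyp, ← Real.rpow_add hH0]
    _ ≤ (602 * 200 ^ m * 2 ^ (expo (m + 1))) * (H : ℝ) ^ (m - 1) := by
        rw [← Real.rpow_natCast (H : ℝ) (m - 1)]
        gcongr

/-- the primitive bad polynomials of small discriminant -/
lemma pr_small (hGC : T_GC) (hFIB : T_FIB) (m : ℕ) (hm4 : 4 ≤ m) (hm6 : m ≤ 6) (b : ℤ) (hb : b ≠ 0)
    (c : ℝ) (hc : 0 < c) : ∃ K : ℝ, ∀ H : ℕ, 2 ≤ H →
    cnt m H (fun a => ∃ (g : ℤ[X]) (D : ℕ), Str (m + 1) c (pol b a) g D ∧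
      (D : ℝ) ≤ (H : ℝ) ^ (207 / 100 : ℝ)) ≤ K * (H : ℝ) ^ (m - 1) := by
  classical
  set c' : ℝ := max c (2 * (210 : ℝ) ^ 21) with hc'
  have hc'0 : 0 < c' := lt_of_lt_of_le hc (le_max_left _ _)
  obtain ⟨KG, hKG⟩ := hGC (m + 1) (by omega) (by omega) c' hc'0
  obtain ⟨KF, hKF⟩ := hFIB m (by omega) b hb
  refine ⟨|KG| * |KF| * (602 * 200 ^ m * 2 ^ (expo (m + 1))), ?_⟩
  intro H hH
  have hH1 : (1 : ℝ) ≤ H := by exact_mod_cast (by omega : 1 ≤ H)
  have hH0 : (0 : ℝ) < H := by linarith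
  have hlog0 : 0 ≤ Real.log H := Real.log_nonneg hH1
  set Y : ℝ := 2 * (H : ℝ) ^ (207 / 100 : ℝ) with hY
  have hY1 : 1 ≤ Y := by
    have : 1 ≤ (H : ℝ) ^ (207 / 100 : ℝ) := Real.one_le_rpow hH1 (by norm_num)
    linarith
  set I : ℕ := Nat.log 2 ⌊Y⌋₊ with hI
  have hfl : ⌊Y⌋₊ ≠ 0 := by
    have := Nat.le_floor (α := ℝ) (n := 1) (a := Y) (by simpa using hY1)
    omega
  have hI2 : (2 : ℝ) ^ I ≤ Y := by
    have h1 : 2 ^ I ≤ ⌊Y⌋₊ := Nat.pow_log_le_self 2 hfl
    have h2 : (⌊Y⌋₊ : ℝ) ≤ Y := Nat.floor_le (by linarith)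
    exact le_trans (by exact_mod_cast h1) h2
  -- the covering
  have hcov : ∀ a ∈ box m H, (∃ (g : ℤ[X]) (D : ℕ), Str (m + 1) c (pol b a) g D ∧
      (D : ℝ) ≤ (H : ℝ) ^ (207 / 100 : ℝ)) →
      ∃ i ∈ Finset.range (I + 1), ∃ g ∈ (hKG ((2 : ℝ) ^ i) (one_le_pow₀ (by norm_num))).1.toFinset,
        SameField (pol b a) g := by
    rintro a - ⟨g, D, hstr, hD⟩
    obtain ⟨hD0, hSF, hFD, hgm, hgd, hgi, hgn, hgp, hg1, hgj, h21, hram⟩ := hstr
    set i : ℕ := Nat.log 2 D + 1 with hi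
    have hDi : D < 2 ^ i := Nat.lt_pow_succ_log_self (by norm_num) D
    have hiD : 2 ^ i ≤ 2 * D := by
      rw [hi, pow_succ]
      have := Nat.pow_log_le_self 2 hD0.ne'
      omega
    have hDiR : (D : ℝ) ≤ (2 : ℝ) ^ i := by exact_mod_cast hDi.le
    have hiDR : (2 : ℝ) ^ i ≤ 2 * D := by exact_mod_cast hiD
    have hiY : (2 : ℝ) ^ i ≤ Y := by rw [hY]; linarith
    have hiI : i ≤ I := by
      rw [hI]
      refine Nat.le_log_of_pow_le (by norm_num) ?_
      refine Nat.le_floor ?_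
      push_cast
      exact hiY
    refine ⟨i, Finset.mem_range.2 (by omega), g, ?_, hSF⟩
    rw [Set.Finite.mem_toFinset]
    refine ⟨hgm, hgd, hg1, ?_, ?_⟩
    · intro j hj2 hjn
      refine (hgj j hj2 hjn).trans ?_
      have h1 : 0 ≤ (j : ℝ) / (2 * (((m + 1 : ℕ) : ℝ) - 1)) := by
        push_cast
        have : (0 : ℝ) ≤ m := by positivity
        have : (m : ℝ) + 1 - 1 = m := by ring
        rw [this]
        positivity
      have h2 : (D : ℝ) ^ ((j : ℝ) / (2 * (((m + 1 : ℕ) : ℝ) - 1))) ≤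
          ((2 : ℝ) ^ i) ^ ((j : ℝ) / (2 * (((m + 1 : ℕ) : ℝ) - 1))) :=
        Real.rpow_le_rpow (by positivity) hDiR h1
      exact mul_le_mul (le_max_left _ _) h2 (by positivity) hc'0.le
    · set S : Finset ℕ := D.primeFactors.filter (fun p => 7 < p) with hS
      have hSp : ∀ p ∈ S, p.Prime := fun p hp =>
        Nat.prime_of_mem_primeFactors (Finset.mem_filter.1 hp).1
      have hpf : (∏ p ∈ S, p).primeFactors = S := Nat.primeFactors_prod hSp
      refine ⟨∏ p ∈ S, p, fun p => D.factorization p, squarefree_prod_primes S hSp, ?_, ?_, ?_⟩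
      · intro p hp hpC
        have h1 : p ∈ (∏ p ∈ S, p).primeFactors := by
          rw [Nat.mem_primeFactors]
          exact ⟨hp, hpC, (squarefree_prod_primes S hSp).ne_zero⟩
        rw [hpf, hS, Finset.mem_filter] at h1
        obtain ⟨h2, h3, h4, h5⟩ := hram p hp h1.2 (Nat.dvd_of_mem_primeFactors h1.1)
        exact ⟨h1.2, h2, h3, h5⟩
      · rw [hpf]
        have h1 := fact_bound D 210 hD0.ne' (by norm_num) h21 S (Finset.filter_subset _ _) (by
          intro p hp hpS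
          have hpp := Nat.prime_of_mem_primeFactors hp
          have h7 : p ≤ 7 := by
            by_contra h
            exact hpS (Finset.mem_filter.2 ⟨hp, by omega⟩)
          exact prime_dvd_210 p hpp h7)
        have h2 : (D : ℝ) ≤ 210 ^ 21 * ∏ p ∈ S, (p : ℝ) ^ D.factorization p := by exact_mod_cast h1
        have h3 : 0 ≤ ∏ p ∈ S, (p : ℝ) ^ D.factorization p := by positivity
        calc (2 : ℝ) ^ i ≤ 2 * D := hiDR
          _ ≤ 2 * (210 ^ 21 * ∏ p ∈ S, (p : ℝ) ^ D.factorization p) := by linarith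
          _ = (2 * 210 ^ 21) * ∏ p ∈ S, (p : ℝ) ^ D.factorization p := by ring
          _ ≤ c' * ∏ p ∈ S, (p : ℝ) ^ D.factorization p :=
              mul_le_mul_of_nonneg_right (le_max_right _ _) h3
      · rw [hpf]
        have h1 := fact_prod_le D hD0.ne' S (Finset.filter_subset _ _)
        have h2 : ∏ p ∈ S, (p : ℝ) ^ D.factorization p ≤ D := by exact_mod_cast h1
        exact h2.trans hDiR
  refine (cnt_mono hcov).trans ?_
  refine (cnt_exists_le (Finset.range (I + 1)) (fun i a =>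
    ∃ g ∈ (hKG ((2 : ℝ) ^ i) (one_le_pow₀ (by norm_num))).1.toFinset,
        SameField (pol b a) g)).trans ?_
  have hterm : ∀ i ∈ Finset.range (I + 1), cnt m H (fun a =>
      ∃ g ∈ (hKG ((2 : ℝ) ^ i) (one_le_pow₀ (by norm_num))).1.toFinset, SameField (pol b a) g) ≤
      |KG| * Y ^ (expo (m + 1)) * (|KF| * Real.log H ^ m) := by
    intro i hi
    refine (cnt_exists_le _ (fun g a => SameField (pol b a) g)).trans ?_
    have h1 : ∀ g ∈ (hKG ((2 : ℝ) ^ i) (one_le_pow₀ (by norm_num))).1.toFinset,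
        cnt m H (fun a => SameField (pol b a) g) ≤ |KF| * Real.log H ^ m := by
      intro g _
      refine (hKF H hH g).trans ?_
      exact mul_le_mul_of_nonneg_right (le_abs_self _) (by positivity)
    refine (Finset.sum_le_card_nsmul _ _ _ h1).trans ?_
    rw [nsmul_eq_mul]
    refine mul_le_mul_of_nonneg_right ?_ (by positivity)
    have h2 := (hKG ((2 : ℝ) ^ i) (one_le_pow₀ (by norm_num))).2
    rw [Set.ncard_eq_toFinset_card _ (hKG ((2 : ℝ) ^ i) (one_le_pow₀ (by norm_num))).1] at h2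
    refine h2.trans ?_
    have h3 : (2 : ℝ) ^ i ≤ Y := by
      refine le_trans ?_ hI2
      exact pow_le_pow_right₀ (by norm_num) (by have := Finset.mem_range.1 hi; omega)
    have he : 0 ≤ expo (m + 1) := by unfold expo; split_ifs <;> norm_num
    exact mul_le_mul (le_abs_self _) (Real.rpow_le_rpow (by positivity) h3 he) (by positivity)
      (abs_nonneg _)
  refine (Finset.sum_le_card_nsmul _ _ _ hterm).trans ?_
  rw [nsmul_eq_mul, Finset.card_range]
  push_cast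
  have hn := numeric m hm4 hm6 H I hH hI2
  calc ((I : ℝ) + 1) * (|KG| * Y ^ (expo (m + 1)) * (|KF| * Real.log H ^ m))
      = |KG| * |KF| * (((I : ℝ) + 1) * Y ^ (expo (m + 1)) * Real.log H ^ m) := by ring
    _ ≤ |KG| * |KF| * ((602 * 200 ^ m * 2 ^ (expo (m + 1))) * (H : ℝ) ^ (m - 1)) := by
        gcongr
    _ = _ := by ring

theorem pr (hSTR : T_STR) (hEI : T_EI) (hE3 : T_E3) (hGC : T_GC) (hFIB : T_FIB) : T_PR := by
  classical
  intro m hm4 hm6 b hb
  obtain ⟨c, hc, hS⟩ := hSTR (m + 1) (by omega) (by omega)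
  have hN : 210 * b.natAbs ≠ 0 := by
    have := Int.natAbs_ne_zero.2 hb
    omega
  set cb : ℝ := (((210 * b.natAbs : ℕ) : ℝ)) ^ 21 with hcb
  have hcb0 : 0 < cb := by
    have : (0 : ℝ) < ((210 * b.natAbs : ℕ) : ℝ) := by exact_mod_cast Nat.pos_of_ne_zero hN
    positivity
  obtain ⟨K1, hK1⟩ := hE3 m hm4 hm6 b hb
  obtain ⟨K2, hK2⟩ := hEI m hm4 hm6 b hb (1 / cb) (by positivity)
  obtain ⟨K3, hK3⟩ := pr_small hGC hFIB m hm4 hm6 b hb c hc
  refine ⟨|K1| + |K2| + |K3| + 3 ^ m, ?_⟩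
  intro H hH
  have hH1 : (1 : ℝ) ≤ H := by exact_mod_cast hH
  have hHp : (1 : ℝ) ≤ (H : ℝ) ^ (m - 1) := one_le_pow₀ hH1
  rcases Nat.lt_or_ge H 2 with hH2 | hH2
  · have hH' : H = 1 := by omega
    subst hH'
    refine (cnt_le_card m 1 _).trans ?_
    have h1 : (2 * ((1 : ℕ) : ℝ) + 1) ^ m = 3 ^ m := by norm_num
    rw [h1]
    have : 0 ≤ |K1| + |K2| + |K3| := by positivity
    simp only [Nat.cast_one, one_pow, mul_one]
    linarith
  · have hcov : ∀ a ∈ box m H, (PrimF (pol b a) ∧ NonFull (pol b a)) →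
        (∃ C : ℕ, Good b C ∧ (H : ℝ) ^ (201 / 200 : ℝ) < C ∧
          ∀ p, p.Prime → p ∣ C → IX p 2 (pol b a)) ∨
        (∃ (C : ℕ) (k : ℕ → ℕ), Good b C ∧ (C : ℝ) ≤ (H : ℝ) ^ (201 / 200 : ℝ) ∧
          (∀ p, p.Prime → p ∣ C → 2 ≤ k p ∧ k p ≤ m ∧ IX p (k p) (pol b a)) ∧
          1 / cb * (H : ℝ) ^ (207 / 100 : ℝ) ≤ ∏ p ∈ C.primeFactors, (p : ℝ) ^ (k p)) ∨
        ∃ (g : ℤ[X]) (D : ℕ), Str (m + 1) c (pol b a) g D ∧ (D : ℝ) ≤ (H : ℝ) ^ (207 / 100 : ℝ) := by
      rintro a - ⟨hprim, hnf⟩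
      obtain ⟨g, D, hstr⟩ := hS (pol b a) (pol_monic b a) (pol_natDegree b a) hprim hnf
      have hstr' := hstr
      obtain ⟨hD0, hSF, hFD, hgm, hgd, hgi, hgn, hgp, hg1, hgj, h21, hram⟩ := hstr'
      set S : Finset ℕ := D.primeFactors.filter (fun p => 7 < p ∧ ¬ ((p : ℤ) ∣ b)) with hSdef
      have hSp : ∀ p ∈ S, p.Prime := fun p hp =>
        Nat.prime_of_mem_primeFactors (Finset.mem_filter.1 hp).1
      have hpf : (∏ p ∈ S, p).primeFactors = S := Nat.primeFactors_prod hSp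
      have hmem : ∀ p, p.Prime → p ∣ ∏ p ∈ S, p → p ∈ S := by
        intro p hp hpC
        rw [← hpf, Nat.mem_primeFactors]
        exact ⟨hp, hpC, (squarefree_prod_primes S hSp).ne_zero⟩
      have hgood : Good b (∏ p ∈ S, p) := by
        refine ⟨squarefree_prod_primes S hSp, ?_⟩
        intro p hp hpC
        have := hmem p hp hpC
        rw [hSdef, Finset.mem_filter] at this
        exact this.2
      have hram2 : ∀ p, p.Prime → p ∣ ∏ p ∈ S, p → 2 ≤ D.factorization p ∧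
          D.factorization p ≤ m ∧ IX p (D.factorization p) (pol b a) := by
        intro p hp hpC
        have h1 := hmem p hp hpC
        rw [hSdef, Finset.mem_filter] at h1
        obtain ⟨h2, h3, h4, h5⟩ := hram p hp h1.2.1 (Nat.dvd_of_mem_primeFactors h1.1)
        exact ⟨h2, by simpa using h3, h4⟩
      by_cases hC : (H : ℝ) ^ (201 / 200 : ℝ) < ((∏ p ∈ S, p : ℕ) : ℝ)
      · left
        exact ⟨_, hgood, hC, fun p hp hpC => IX_mono (hram2 p hp hpC).1 (hram2 p hp hpC).2.2⟩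
      · right
        rcases le_or_gt (D : ℝ) ((H : ℝ) ^ (207 / 100 : ℝ)) with hD | hD
        · right
          exact ⟨g, D, hstr, hD⟩
        · left
          refine ⟨_, fun p => D.factorization p, hgood, not_lt.1 hC, hram2, ?_⟩
          rw [hpf]
          have h1 := fact_bound D (210 * b.natAbs) hD0.ne' hN h21 S (Finset.filter_subset _ _) (by
            intro p hp hpS
            have hpp := Nat.prime_of_mem_primeFactors hp
            rcases Nat.lt_or_ge 7 p with h7 | h7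
            · have hpb : (p : ℤ) ∣ b := by
                by_contra h
                exact hpS (Finset.mem_filter.2 ⟨hp, h7, h⟩)
              exact Dvd.dvd.mul_left (Int.natCast_dvd.1 hpb) _
            · refine Dvd.dvd.mul_right ?_ _
              exact prime_dvd_210 p hpp h7)
          have h2 : (D : ℝ) ≤ cb * ∏ p ∈ S, (p : ℝ) ^ D.factorization p := by
            rw [hcb]; exact_mod_cast h1
          rw [one_div, inv_mul_le_iff₀ hcb0]
          exact hD.le.trans h2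
    refine (cnt_mono hcov).trans ?_
    refine (cnt_or_le _ _).trans ?_
    have h1 := hK1 H hH
    have h2 := (cnt_or_le (m := m) (H := H) (fun a => ∃ (C : ℕ) (k : ℕ → ℕ), Good b C ∧ (C : ℝ) ≤ (H : ℝ) ^ (201 / 200 : ℝ) ∧
          (∀ p, p.Prime → p ∣ C → 2 ≤ k p ∧ k p ≤ m ∧ IX p (k p) (pol b a)) ∧
          1 / cb * (H : ℝ) ^ (207 / 100 : ℝ) ≤ ∏ p ∈ C.primeFactors, (p : ℝ) ^ (k p))
          (fun a => ∃ (g : ℤ[X]) (D : ℕ), Str (m + 1) c (pol b a) g D ∧ (D : ℝ) ≤ (H : ℝ) ^ (207 / 100 : ℝ))).trans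
          (add_le_add (hK2 H hH) (hK3 H hH2))
    have h3 : K1 * (H : ℝ) ^ (m - 1) ≤ |K1| * (H : ℝ) ^ (m - 1) := by
      gcongr; exact le_abs_self _
    have h4 : K2 * (H : ℝ) ^ (m - 1) ≤ |K2| * (H : ℝ) ^ (m - 1) := by
      gcongr; exact le_abs_self _
    have h5 : K3 * (H : ℝ) ^ (m - 1) ≤ |K3| * (H : ℝ) ^ (m - 1) := by
      gcongr; exact le_abs_self _
    have h6 : (0 : ℝ) ≤ 3 ^ m * (H : ℝ) ^ (m - 1) := by positivity
    calc _ ≤ K1 * (H : ℝ) ^ (m - 1) + (K2 * (H : ℝ) ^ (m - 1) + K3 * (H : ℝ) ^ (m - 1)) :=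
          add_le_add h1 h2
      _ ≤ _ := by nlinarith

end Pool.Agent.H7.GF
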