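import Pool.Agent.H7.GF.PR

/-!
# MP_cd65c5_nt: module PR3, primitive bad quartics
-/

set_option autoImplicit false

namespace Pool.Agent.H7.GF

open Polynomial NumberField Module

lemma numeric2 (A α e s : ℝ) (m : ℕ) (hA : 1 ≤ A) (hα : 0 ≤ α) (he : 0 ≤ e) (hs : α * e < s) :
    ∃ K : ℝ, 0 ≤ K ∧ ∀ H I : ℕ, 1 ≤ H → (2 : ℝ) ^ I ≤ A * (H : ℝ) ^ α →
      ((I : ℝ) + 1) * (A * (H : ℝ) ^ α) ^ e * (Real.log H) ^ m ≤ K * (H : ℝ) ^ s := by
  set ε : ℝ := (s - α * e) / ((m : ℝ) + 1) with hε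
  have hm : (0 : ℝ) < (m : ℝ) + 1 := by positivity
  have hε0 : 0 < ε := div_pos (by linarith) hm
  have hlA : 0 ≤ Real.log A := Real.log_nonneg hA
  set B : ℝ := 2 * (Real.log A + α / ε) + 1 with hB
  have hB0 : 0 ≤ B := by
    have : 0 ≤ α / ε := by positivity
    rw [hB]; linarith
  refine ⟨B * A ^ e * (1 / ε) ^ m, by positivity, ?_⟩
  intro H I hH hI
  have hH1 : (1 : ℝ) ≤ H := by exact_mod_cast hH
  have hH0 : (0 : ℝ) < H := by linarith
  have hlog0 : 0 ≤ Real.log H := Real.log_nonneg hH1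
  set y : ℝ := (H : ℝ) ^ ε with hy
  have hy1 : 1 ≤ y := Real.one_le_rpow hH1 hε0.le
  have hlog : Real.log H ≤ 1 / ε * y := by
    have := Real.log_le_rpow_div hH0.le hε0
    rw [hy]; rw [one_div, inv_mul_eq_div]; exact this
  have hl2 : (0.6931471803 : ℝ) < Real.log 2 := Real.log_two_gt_d9
  have hI1 : (I : ℝ) + 1 ≤ B * y := by
    have h1 : (I : ℝ) * Real.log 2 ≤ Real.log A + α * Real.log H := by
      have h2 := Real.log_le_log (by positivity) hI
      rw [Real.log_pow, Real.log_mul (by linarith) (by positivity), Real.log_rpow hH0] at h2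
      exact h2
    have h3 : (I : ℝ) ≤ 2 * (Real.log A + α * Real.log H) := by
      have h4 : (I : ℝ) / 2 ≤ (I : ℝ) * Real.log 2 := by
        have : (0 : ℝ) ≤ I := by positivity
        nlinarith
      linarith
    have h5 : α * Real.log H ≤ α / ε * y := by
      calc α * Real.log H ≤ α * (1 / ε * y) := mul_le_mul_of_nonneg_left hlog hα
        _ = _ := by ring
    have h6 : Real.log A ≤ Real.log A * y := le_mul_of_one_le_right hlA hy1
    rw [hB]
    nlinarith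
  have hlogm : Real.log H ^ m ≤ (1 / ε) ^ m * y ^ m := by
    rw [← mul_pow]
    exact pow_le_pow_left₀ hlog0 hlog m
  have hyp : y * y ^ m = (H : ℝ) ^ (s - α * e) := by
    rw [hy, ← Real.rpow_natCast ((H : ℝ) ^ ε) m, ← Real.rpow_mul hH0.le,
      ← Real.rpow_add hH0]
    congr 1
    rw [hε]; field_simp; ring
  have hee : (A * (H : ℝ) ^ α) ^ e = A ^ e * (H : ℝ) ^ (α * e) := by
    rw [Real.mul_rpow (by linarith) (by positivity), ← Real.rpow_mul hH0.le]
  rw [hee]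
  calc ((I : ℝ) + 1) * (A ^ e * (H : ℝ) ^ (α * e)) * Real.log H ^ m
      ≤ (B * y) * (A ^ e * (H : ℝ) ^ (α * e)) * ((1 / ε) ^ m * y ^ m) := by gcongr
    _ = (B * A ^ e * (1 / ε) ^ m) * ((y * y ^ m) * (H : ℝ) ^ (α * e)) := by ring
    _ = (B * A ^ e * (1 / ε) ^ m) * (H : ℝ) ^ s := by
        rw [hyp, ← Real.rpow_add hH0]
        congr 2; ring

/-- dyadic decomposition of the discriminant -/
lemma small_gen (hFIB : T_FIB) (m : ℕ) (hm : 1 ≤ m) (b : ℤ) (hb : b ≠ 0) (R : ℝ → ℤ[X] → Prop)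
    (e A α s KG : ℝ) (hA : 1 ≤ A) (hα : 0 ≤ α) (he : 0 ≤ e) (hs : α * e < s)
    (hR : ∀ X : ℝ, 1 ≤ X → {g : ℤ[X] | R X g}.Finite ∧ ({g : ℤ[X] | R X g}.ncard : ℝ) ≤ KG * X ^ e) :
    ∃ K : ℝ, ∀ H : ℕ, 2 ≤ H →
    cnt m H (fun a => ∃ (g : ℤ[X]) (D : ℕ), 0 < D ∧ SameField (pol b a) g ∧
      (D : ℝ) ≤ A * (H : ℝ) ^ α ∧ ∀ X : ℝ, (D : ℝ) ≤ X → X ≤ 2 * D → R X g) ≤ K * (H : ℝ) ^ s := by
  classical
  obtain ⟨KF, hKF⟩ := hFIB m hm b hb
  obtain ⟨KN, hKN0, hKN⟩ := numeric2 (2 * A) α e s m (by linarith) hα he hs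
  refine ⟨|KG| * |KF| * KN, ?_⟩
  intro H hH
  have hH1 : (1 : ℝ) ≤ H := by exact_mod_cast (by omega : 1 ≤ H)
  have hH0 : (0 : ℝ) < H := by linarith
  have hlog0 : 0 ≤ Real.log H := Real.log_nonneg hH1
  set Y : ℝ := 2 * A * (H : ℝ) ^ α with hY
  have hHa : 1 ≤ (H : ℝ) ^ α := Real.one_le_rpow hH1 hα
  have hY1 : 1 ≤ Y := by nlinarith
  set I : ℕ := Nat.log 2 ⌊Y⌋₊ with hI
  have hfl : ⌊Y⌋₊ ≠ 0 := by
    have := Nat.le_floor (α := ℝ) (n := 1) (a := Y) (by simpa using hY1)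
    omega
  have hI2 : (2 : ℝ) ^ I ≤ Y := by
    have h1 : 2 ^ I ≤ ⌊Y⌋₊ := Nat.pow_log_le_self 2 hfl
    have h2 : (⌊Y⌋₊ : ℝ) ≤ Y := Nat.floor_le (by linarith)
    exact le_trans (by exact_mod_cast h1) h2
  -- the covering
  have hcov : ∀ a ∈ box m H, (∃ (g : ℤ[X]) (D : ℕ), 0 < D ∧ SameField (pol b a) g ∧
      (D : ℝ) ≤ A * (H : ℝ) ^ α ∧ ∀ X : ℝ, (D : ℝ) ≤ X → X ≤ 2 * D → R X g) →
      ∃ i ∈ Finset.range (I + 1), ∃ g ∈ (hR ((2 : ℝ) ^ i) (one_le_pow₀ (by norm_num))).1.toFinset,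
        SameField (pol b a) g := by
    rintro a - ⟨g, D, hD0, hSF, hD, hRR⟩
    set i : ℕ := Nat.log 2 D + 1 with hi
    have hDi : D < 2 ^ i := Nat.lt_pow_succ_log_self (by norm_num) D
    have hiD : 2 ^ i ≤ 2 * D := by
      rw [hi, pow_succ]
      have := Nat.pow_log_le_self 2 hD0.ne'
      omega
    have hDiR : (D : ℝ) ≤ (2 : ℝ) ^ i := by exact_mod_cast hDi.le
    have hiDR : (2 : ℝ) ^ i ≤ 2 * D := by exact_mod_cast hiD
    have hiY : (2 : ℝ) ^ i ≤ Y := by rw [hY]; linarith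
    have hiI : i ≤ I := by
      rw [hI]
      refine Nat.le_log_of_pow_le (by norm_num) ?_
      refine Nat.le_floor ?_
      push_cast
      exact hiY
    refine ⟨i, Finset.mem_range.2 (by omega), g, ?_, hSF⟩
    rw [Set.Finite.mem_toFinset]
    exact hRR _ hDiR hiDR
  refine (cnt_mono hcov).trans ?_
  refine (cnt_exists_le (Finset.range (I + 1)) (fun i a =>
    ∃ g ∈ (hR ((2 : ℝ) ^ i) (one_le_pow₀ (by norm_num))).1.toFinset,
        SameField (pol b a) g)).trans ?_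
  have hterm : ∀ i ∈ Finset.range (I + 1), cnt m H (fun a =>
      ∃ g ∈ (hR ((2 : ℝ) ^ i) (one_le_pow₀ (by norm_num))).1.toFinset, SameField (pol b a) g) ≤
      |KG| * Y ^ e * (|KF| * Real.log H ^ m) := by
    intro i hi
    refine (cnt_exists_le _ (fun g a => SameField (pol b a) g)).trans ?_
    have h1 : ∀ g ∈ (hR ((2 : ℝ) ^ i) (one_le_pow₀ (by norm_num))).1.toFinset,
        cnt m H (fun a => SameField (pol b a) g) ≤ |KF| * Real.log H ^ m := by
      intro g _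
      refine (hKF H hH g).trans ?_
      exact mul_le_mul_of_nonneg_right (le_abs_self _) (by positivity)
    refine (Finset.sum_le_card_nsmul _ _ _ h1).trans ?_
    rw [nsmul_eq_mul]
    refine mul_le_mul_of_nonneg_right ?_ (by positivity)
    have h2 := (hR ((2 : ℝ) ^ i) (one_le_pow₀ (by norm_num))).2
    rw [Set.ncard_eq_toFinset_card _ (hR ((2 : ℝ) ^ i) (one_le_pow₀ (by norm_num))).1] at h2
    refine h2.trans ?_
    have h3 : (2 : ℝ) ^ i ≤ Y := by
      refine le_trans ?_ hI2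
      exact pow_le_pow_right₀ (by norm_num) (by have := Finset.mem_range.1 hi; omega)
    exact mul_le_mul (le_abs_self _) (Real.rpow_le_rpow (by positivity) h3 he) (by positivity)
      (abs_nonneg _)
  refine (Finset.sum_le_card_nsmul _ _ _ hterm).trans ?_
  rw [nsmul_eq_mul, Finset.card_range]
  push_cast
  have hn := hKN H I (by omega) hI2
  calc ((I : ℝ) + 1) * (|KG| * Y ^ e * (|KF| * Real.log H ^ m))
      = |KG| * |KF| * (((I : ℝ) + 1) * Y ^ e * Real.log H ^ m) := by ring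
    _ ≤ |KG| * |KF| * (KN * (H : ℝ) ^ s) := by
        gcongr
    _ = _ := by ring

/-- primes of the radical -/
lemma rad_data (D : ℕ) (P : ℕ → Prop) :
    ∃ C : ℕ, Squarefree C ∧ C.primeFactors ⊆ D.primeFactors ∧ (∀ p ∈ C.primeFactors, P p) ∧
      (∀ p, p.Prime → p ∣ C → p ∣ D ∧ P p) ∧ (∀ p ∈ D.primeFactors, p ∉ C.primeFactors → ¬ P p) ∧
      C = ∏ p ∈ C.primeFactors, p := by
  classical
  set S : Finset ℕ := D.primeFactors.filter P with hS
  have hSp : ∀ p ∈ S, p.Prime := fun p hp =>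
    Nat.prime_of_mem_primeFactors (Finset.mem_filter.1 hp).1
  have hpf : (∏ p ∈ S, p).primeFactors = S := Nat.primeFactors_prod hSp
  have hsq := squarefree_prod_primes S hSp
  refine ⟨∏ p ∈ S, p, hsq, ?_, ?_, ?_, ?_, ?_⟩
  · rw [hpf]; exact Finset.filter_subset _ _
  · rw [hpf]; intro p hp; exact (Finset.mem_filter.1 hp).2
  · intro p hp hpC
    have : p ∈ (∏ p ∈ S, p).primeFactors := Nat.mem_primeFactors.2 ⟨hp, hpC, hsq.ne_zero⟩
    rw [hpf, hS, Finset.mem_filter] at this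
    exact ⟨Nat.dvd_of_mem_primeFactors this.1, this.2⟩
  · intro p hp hpS hP
    rw [hpf] at hpS
    exact hpS (Finset.mem_filter.2 ⟨hp, hP⟩)
  · rw [hpf]

theorem pr3 (hSTR : T_STR) (hEXP4 : T_EXP4) (hSQ4 : T_SQ4) (hQDEP : T_QDEP) (hE34 : T_E34)
    (hGC4 : T_GC4) (hFIB : T_FIB) : T_PR3 := by
  classical
  intro b hb
  obtain ⟨c, hc, hS⟩ := hSTR 4 (by omega) (by omega)
  have hN : 210 * b.natAbs ≠ 0 := by
    have := Int.natAbs_ne_zero.2 hb
    omega
  set cb : ℝ := (((210 * b.natAbs : ℕ) : ℝ)) ^ 21 with hcb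
  have hcb1 : 1 ≤ cb := by
    have : (1 : ℝ) ≤ ((210 * b.natAbs : ℕ) : ℝ) := by exact_mod_cast Nat.pos_of_ne_zero hN
    exact one_le_pow₀ this
  set c' : ℝ := max c (2 * (210 : ℝ) ^ 21) with hc'
  have hc'0 : 0 < c' := lt_of_lt_of_le hc (le_max_left _ _)
  obtain ⟨KG, hKG⟩ := hGC4 c' hc'0
  obtain ⟨K1, hK1⟩ := hE34 b hb
  obtain ⟨K2, hK2⟩ := small_gen hFIB 3 (by norm_num) b hb (RelG4 c') (19 / 20) cb (201 / 100) 2 KG
    hcb1 (by norm_num) (by norm_num) (by norm_num) hKG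
  refine ⟨|K1| + |K2| + 27, ?_⟩
  intro H hH
  have hH1 : (1 : ℝ) ≤ H := by exact_mod_cast hH
  have hH0 : (0 : ℝ) < H := by linarith
  have hHp : (1 : ℝ) ≤ (H : ℝ) ^ 2 := one_le_pow₀ hH1
  rcases Nat.lt_or_ge H 2 with hH2 | hH2
  · have hH' : H = 1 := by omega
    subst hH'
    refine (cnt_le_card 3 1 _).trans ?_
    have : 0 ≤ |K1| + |K2| := by positivity
    norm_num
    linarith
  · have hcov : ∀ a ∈ box 3 H, (PrimF (pol b a) ∧ NonFull (pol b a)) →
        (∃ C : ℕ, Good b C ∧ (H : ℝ) ^ (201 / 200 : ℝ) < C ∧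
          ∀ p, p.Prime → p ∣ C → IX p 2 (pol b a)) ∨
        (∃ (g : ℤ[X]) (D : ℕ), 0 < D ∧ SameField (pol b a) g ∧
          (D : ℝ) ≤ cb * (H : ℝ) ^ (201 / 100 : ℝ) ∧
          ∀ X : ℝ, (D : ℝ) ≤ X → X ≤ 2 * D → RelG4 c' X g) := by
      rintro a - ⟨hprim, hnf⟩
      obtain ⟨g, D, hstr⟩ := hS (pol b a) (pol_monic b a) (pol_natDegree b a) hprim hnf
      have hv2 := hEXP4 c (pol b a) g D hstr
      obtain ⟨hD0, hSF, hFD, hgm, hgd, hgi, hgn, hgp, hg1, hgj, h21, hram⟩ := hstr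
      obtain ⟨C, hCsq, hCsub, hCP, hCP', hCn, hCprod⟩ := rad_data D (fun p => 7 < p ∧ ¬ ((p : ℤ) ∣ b))
      have hgood : Good b C := ⟨hCsq, fun p hp hpC => (hCP' p hp hpC).2⟩
      by_cases hC : (H : ℝ) ^ (201 / 200 : ℝ) < (C : ℝ)
      · left
        refine ⟨C, hgood, hC, fun p hp hpC => ?_⟩
        obtain ⟨h1, h2⟩ := hCP' p hp hpC
        have h3 := hram p hp h2.1 h1
        exact IX_mono h3.1 h3.2.2.1
      · right
        have hD1 : (D : ℝ) ≤ cb * (H : ℝ) ^ (201 / 100 : ℝ) := by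
          have h1 := fact_bound D (210 * b.natAbs) hD0.ne' hN h21 C.primeFactors hCsub (by
            intro p hp hpS
            have hpp := Nat.prime_of_mem_primeFactors hp
            have h := hCn p hp hpS
            rcases Nat.lt_or_ge 7 p with h7 | h7
            · have hpb : (p : ℤ) ∣ b := by
                by_contra h'
                exact h ⟨h7, h'⟩
              exact Dvd.dvd.mul_left (Int.natCast_dvd.1 hpb) _
            · exact Dvd.dvd.mul_right (prime_dvd_210 p hpp h7) _)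
          have h2 : ∏ p ∈ C.primeFactors, p ^ D.factorization p = C ^ 2 := by
            conv_rhs => rw [hCprod, ← Finset.prod_pow]
            refine Finset.prod_congr rfl ?_
            intro p hp
            rw [hv2 p (Nat.prime_of_mem_primeFactors hp) (hCP p hp).1
              (Nat.dvd_of_mem_primeFactors (hCsub hp))]
          rw [h2] at h1
          have h3 : (D : ℝ) ≤ cb * (C : ℝ) ^ 2 := by rw [hcb]; exact_mod_cast h1
          refine h3.trans ?_
          have h4 : (C : ℝ) ^ 2 ≤ ((H : ℝ) ^ (201 / 200 : ℝ)) ^ 2 :=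
            pow_le_pow_left₀ (by positivity) (not_lt.1 hC) 2
          have h5 : ((H : ℝ) ^ (201 / 200 : ℝ)) ^ 2 = (H : ℝ) ^ (201 / 100 : ℝ) := by
            rw [← Real.rpow_natCast, ← Real.rpow_mul hH0.le]; norm_num
          rw [← h5]
          exact mul_le_mul_of_nonneg_left h4 (by linarith)
        refine ⟨g, D, hD0, hSF, hD1, ?_⟩
        intro X hDX hXD
        have hD0R : (0 : ℝ) < D := by exact_mod_cast hD0
        have hcoef : ∀ j : ℕ, 2 ≤ j → j ≤ 4 → |(g.coeff (4 - j) : ℝ)| ≤ c' * X ^ ((j : ℝ) / 6) := by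
          intro j hj2 hj4
          refine (hgj j hj2 hj4).trans ?_
          have h0 : (2 : ℝ) * (((4 : ℕ) : ℝ) - 1) = 6 := by norm_num
          rw [h0]
          have h2 : (D : ℝ) ^ ((j : ℝ) / 6) ≤ X ^ ((j : ℝ) / 6) :=
            Real.rpow_le_rpow hD0R.le hDX (by positivity)
          exact mul_le_mul (le_max_left _ _) h2 (by positivity) hc'0.le
        obtain ⟨G, hGsq, hGsub, hGP, hGP', hGn, hGprod⟩ := rad_data D (fun p => 7 < p)
        have hG2 : ∏ p ∈ G.primeFactors, p ^ D.factorization p = G ^ 2 := by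
          conv_rhs => rw [hGprod, ← Finset.prod_pow]
          refine Finset.prod_congr rfl ?_
          intro p hp
          rw [hv2 p (Nat.prime_of_mem_primeFactors hp) (hGP p hp)
            (Nat.dvd_of_mem_primeFactors (hGsub hp))]
        refine ⟨hgm, hgd, by simpa using hg1, ?_, ?_, ?_, hSQ4 g hgm hgd hgp hgn,
          hQDEP g hgm hgd hgi hgp, G, hGsq, ?_, ?_, ?_⟩
        · have := hcoef 2 (by norm_num) (by norm_num)
          norm_num at this ⊢
          exact this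
        · have := hcoef 3 (by norm_num) (by norm_num)
          norm_num at this ⊢
          exact this
        · have := hcoef 4 (by norm_num) (by norm_num)
          norm_num at this ⊢
          exact this
        · intro p hp hpG
          obtain ⟨h1, h2⟩ := hGP' p hp hpG
          obtain ⟨h3, h4, h5, h6⟩ := hram p hp h2 h1
          exact ⟨h2, IX_mono h3 h6⟩
        · have h1 := fact_bound D 210 hD0.ne' (by norm_num) h21 G.primeFactors hGsub (by
            intro p hp hpS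
            have hpp := Nat.prime_of_mem_primeFactors hp
            exact prime_dvd_210 p hpp (not_lt.1 (hGn p hp hpS)))
          rw [hG2] at h1
          have h3 : (D : ℝ) ≤ 210 ^ 21 * (G : ℝ) ^ 2 := by exact_mod_cast h1
          calc X ≤ 2 * D := hXD
            _ ≤ 2 * (210 ^ 21 * (G : ℝ) ^ 2) := by linarith
            _ = (2 * 210 ^ 21) * (G : ℝ) ^ 2 := by ring
            _ ≤ c' * (G : ℝ) ^ 2 := mul_le_mul_of_nonneg_right (le_max_right _ _) (by positivity)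
        · have h1 := fact_prod_le D hD0.ne' G.primeFactors hGsub
          rw [hG2] at h1
          have h2 : (G : ℝ) ^ 2 ≤ D := by exact_mod_cast h1
          exact h2.trans hDX
    refine (cnt_mono hcov).trans ?_
    refine (cnt_or_le _ _).trans ?_
    have h1 := hK1 H hH
    have h2 := hK2 H hH2
    rw [Real.rpow_two] at h2
    have h3 : K1 * (H : ℝ) ^ 2 ≤ |K1| * (H : ℝ) ^ 2 := by
      gcongr; exact le_abs_self _
    have h4 : K2 * (H : ℝ) ^ 2 ≤ |K2| * (H : ℝ) ^ 2 := by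
      gcongr; exact le_abs_self _
    calc _ ≤ K1 * (H : ℝ) ^ 2 + K2 * (H : ℝ) ^ 2 := add_le_add h1 h2
      _ ≤ _ := by nlinarith

end Pool.Agent.H7.GF
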